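import Pool.Agent.Helper84.MT.Seg
import Mathlib

/-! Coefficients of a polynomial in several variables are bounded by its values on the cube. Recentred and rescaled
polynomials. -/

set_option autoImplicit false

namespace Pool.Agent.Helper63.FRT

open Finset MvPolynomial Pool.Agent.Helper84.MT

noncomputable section

/-- exponents of degree at most `d` -/
def exps (n d : ℕ) : Finset (Fin n →₀ ℕ) :=
  ((Finset.univ : Finset (Fin n → Fin (d + 1))).image fun f => Finsupp.equivFunOnFinite.symm fun i => (f i : ℕ)).filter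
    fun a => ∑ i, a i ≤ d

variable {n : ℕ}

theorem mem_exps {d : ℕ} {a : Fin n →₀ ℕ} (h : ∑ i, a i ≤ d) : a ∈ exps n d := by
  unfold exps
  rw [Finset.mem_filter, Finset.mem_image]
  refine ⟨⟨fun i => ⟨a i, ?_⟩, Finset.mem_univ _, ?_⟩, h⟩
  · have h1 := Finset.single_le_sum (f := fun i => a i) (fun i _ => Nat.zero_le _) (Finset.mem_univ i)
    omega
  · ext i
    rfl

theorem exps_deg {d : ℕ} {a : Fin n →₀ ℕ} (h : a ∈ exps n d) : ∑ i, a i ≤ d := by
  unfold exps at h
  rw [Finset.mem_filter] at h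
  exact h.2

theorem deg_of_support {d : ℕ} {P : MvPolynomial (Fin n) ℝ} (hP : P.totalDegree ≤ d) {a : Fin n →₀ ℕ}
    (ha : a ∈ P.support) : ∑ i, a i ≤ d := by
  have h1 : a.sum (fun _ n => n) ≤ P.totalDegree := MvPolynomial.le_totalDegree ha
  rw [Finsupp.sum_fintype _ _ (fun _ => rfl)] at h1
  exact h1.trans hP

theorem coeff_zero_of_deg {d : ℕ} {P : MvPolynomial (Fin n) ℝ} (hP : P.totalDegree ≤ d) {a : Fin n →₀ ℕ}
    (ha : ¬ ∑ i, a i ≤ d) : P.coeff a = 0 := by
  by_contra h
  exact ha (deg_of_support hP (MvPolynomial.mem_support_iff.mpr h))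

theorem eval_exps {d : ℕ} (P : MvPolynomial (Fin n) ℝ) (hP : P.totalDegree ≤ d) (z : Fin n → ℝ) :
    MvPolynomial.eval z P = ∑ a ∈ exps n d, P.coeff a * ∏ i, z i ^ a i := by
  rw [MvPolynomial.eval_eq']
  apply Finset.sum_subset
  · intro a ha
    exact mem_exps (deg_of_support hP ha)
  · intro a _ ha
    rw [MvPolynomial.notMem_support_iff.mp ha, zero_mul]

/-- the nodes of the grid, in `[0, 1)` -/
def nod (d : ℕ) (x : Fin n → Fin (d + 1)) : Fin n → ℝ := fun i => (x i : ℕ) / ((d : ℝ) + 1)

theorem nod_nonneg (d : ℕ) (x : Fin n → Fin (d + 1)) (i : Fin n) : 0 ≤ nod d x i := by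
  unfold nod
  positivity

theorem nod_lt (d : ℕ) (x : Fin n → Fin (d + 1)) (i : Fin n) : nod d x i < 1 := by
  unfold nod
  rw [div_lt_one (by positivity)]
  have h1 : ((x i : ℕ) : ℝ) < ((d + 1 : ℕ) : ℝ) := by exact_mod_cast (x i).2
  push_cast at h1
  exact h1

/-- the values at the nodes -/
def valL (n d : ℕ) : ((exps n d) → ℝ) →ₗ[ℝ] ((Fin n → Fin (d + 1)) → ℝ) where
  toFun := fun c x => ∑ a, c a * ∏ i, nod d x i ^ (a.1 i)
  map_add' := by
    intro c c'
    funext x
    simp only [Pi.add_apply, add_mul, Finset.sum_add_distrib]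
  map_smul' := by
    intro r c
    funext x
    simp only [Pi.smul_apply, smul_eq_mul, RingHom.id_apply, Finset.mul_sum, mul_assoc]

/-- the polynomial with given coefficients -/
def ofc (n d : ℕ) (c : (exps n d) → ℝ) : MvPolynomial (Fin n) ℝ := ∑ a, MvPolynomial.monomial a.1 (c a)

theorem ofc_coeff {d : ℕ} (c : (exps n d) → ℝ) (a : exps n d) : (ofc n d c).coeff a.1 = c a := by
  classical
  unfold ofc
  rw [MvPolynomial.coeff_sum]
  simp only [MvPolynomial.coeff_monomial]
  rw [Finset.sum_eq_single a]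
  · rw [if_pos rfl]
  · intro b _ hb
    rw [if_neg (fun h => hb (Subtype.ext h))]
  · intro h
    exact absurd (Finset.mem_univ a) h

theorem ofc_eval {d : ℕ} (c : (exps n d) → ℝ) (z : Fin n → ℝ) :
    MvPolynomial.eval z (ofc n d c) = ∑ a, c a * ∏ i, z i ^ (a.1 i) := by
  unfold ofc
  rw [map_sum]
  apply Finset.sum_congr rfl
  intro a _
  rw [MvPolynomial.eval_monomial, Finsupp.prod_fintype _ _ (fun i => pow_zero _)]

theorem ofc_deg {d : ℕ} (c : (exps n d) → ℝ) (i : Fin n) : (ofc n d c).degreeOf i ≤ d := by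
  classical
  rw [MvPolynomial.degreeOf_le_iff]
  intro a ha
  have h1 : a ∈ exps n d := by
    by_contra h
    rw [MvPolynomial.mem_support_iff] at ha
    apply ha
    unfold ofc
    rw [MvPolynomial.coeff_sum]
    apply Finset.sum_eq_zero
    intro b _
    rw [MvPolynomial.coeff_monomial, if_neg (fun h' : b.1 = a => h (h' ▸ b.2))]
  have h2 := exps_deg h1
  exact (Finset.single_le_sum (f := fun i => a i) (fun i _ => Nat.zero_le _) (Finset.mem_univ i)).trans h2

theorem valL_inj (n d : ℕ) : LinearMap.ker (valL n d) = ⊥ := by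
  classical
  rw [LinearMap.ker_eq_bot']
  intro c hc
  have h0 : (0 : ℝ) < (d : ℝ) + 1 := by positivity
  have hP : ofc n d c = 0 := by
    set T : Finset ℝ := (Finset.univ : Finset (Fin (d + 1))).image (fun j : Fin (d + 1) => ((j : ℕ) : ℝ) / ((d : ℝ) + 1))
      with hT
    apply MvPolynomial.eq_zero_of_eval_zero_at_prod_finset (ofc n d c) (fun _ => T)
    · intro i
      rw [hT, Finset.card_image_of_injective, Finset.card_univ, Fintype.card_fin]
      · exact Nat.lt_succ_of_le (ofc_deg c i)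
      · intro j j' hj
        have h1 : ((j : ℕ) : ℝ) / ((d : ℝ) + 1) = ((j' : ℕ) : ℝ) / ((d : ℝ) + 1) := hj
        rw [div_left_inj' h0.ne'] at h1
        exact Fin.ext (by exact_mod_cast h1)
    · intro z hz
      have h1 : ∀ i, ∃ j : Fin (d + 1), ((j : ℕ) : ℝ) / ((d : ℝ) + 1) = z i := by
        intro i
        obtain ⟨j, -, hj⟩ := Finset.mem_image.mp (hz i)
        exact ⟨j, hj⟩
      choose x hx using h1
      have h2 : z = nod d x := by
        funext i
        exact (hx i).symm
      rw [ofc_eval, h2]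
      exact congrFun hc x
  funext a
  rw [← ofc_coeff c a, hP, MvPolynomial.coeff_zero]
  rfl

/-- COEFFICIENTS ARE BOUNDED BY THE VALUES at the nodes of the cube `[0, 1)` -/
theorem exists_coef_bd (n d : ℕ) : ∃ B : ℝ, 1 ≤ B ∧ ∀ P : MvPolynomial (Fin n) ℝ, P.totalDegree ≤ d → ∀ A : ℝ,
    (∀ y : Fin n → ℝ, (∀ i, 0 ≤ y i ∧ y i < 1) → |MvPolynomial.eval y P| ≤ A) → ∀ a, |P.coeff a| ≤ B * A := by
  classical
  obtain ⟨R, hR⟩ := LinearMap.exists_leftInverse_of_injective (valL n d) (valL_inj n d)
  refine ⟨1 + ∑ a, ∑ x, |R (Pi.single x 1) a|, ?_, ?_⟩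
  · have : 0 ≤ ∑ a, ∑ x, |R (Pi.single x 1) a| := Finset.sum_nonneg fun a _ => Finset.sum_nonneg fun x _ => abs_nonneg _
    linarith
  · intro P hP A hA a
    have hA0 : 0 ≤ A := (abs_nonneg _).trans (hA (fun _ => 0) fun i => ⟨le_rfl, one_pos⟩)
    have hS0 : 0 ≤ ∑ a, ∑ x, |R (Pi.single x 1) a| :=
      Finset.sum_nonneg fun a _ => Finset.sum_nonneg fun x _ => abs_nonneg _
    by_cases ha : ∑ i, a i ≤ d
    · have hmem := mem_exps ha
      set c : (exps n d) → ℝ := fun b => P.coeff b.1 with hc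
      have h1 : R (valL n d c) = c := by
        have := LinearMap.congr_fun hR c
        exact this
      have hval : ∀ x, |valL n d c x| ≤ A := by
        intro x
        have e1 : valL n d c x = MvPolynomial.eval (nod d x) P := by
          rw [eval_exps P hP, ← Finset.sum_coe_sort]
          rfl
        rw [e1]
        exact hA _ fun i => ⟨nod_nonneg d x i, nod_lt d x i⟩
      have h2 : valL n d c = ∑ x, valL n d c x • (Pi.single x (1 : ℝ) : (Fin n → Fin (d + 1)) → ℝ) := by
        funext y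
        rw [Finset.sum_apply, Finset.sum_eq_single y]
        · rw [Pi.smul_apply, Pi.single_eq_same, smul_eq_mul, mul_one]
        · intro x _ hx
          rw [Pi.smul_apply, Pi.single_eq_of_ne (Ne.symm hx), smul_zero]
        · intro h
          exact absurd (Finset.mem_univ y) h
      have h3 : P.coeff a = ∑ x, valL n d c x * R (Pi.single x 1) ⟨a, hmem⟩ := by
        have h4 : c ⟨a, hmem⟩ = R (valL n d c) ⟨a, hmem⟩ := by rw [h1]
        have h5 : R (valL n d c) = ∑ x, valL n d c x • R (Pi.single x 1) := by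
          conv_lhs => rw [h2]
          rw [map_sum]
          simp only [map_smul]
        rw [h5, Finset.sum_apply] at h4
        exact h4
      rw [h3]
      refine (Finset.abs_sum_le_sum_abs _ _).trans ?_
      have h4 : ∑ x, |valL n d c x * R (Pi.single x 1) ⟨a, hmem⟩| ≤ ∑ x, A * |R (Pi.single x 1) ⟨a, hmem⟩| := by
        apply Finset.sum_le_sum
        intro x _
        rw [abs_mul]
        exact mul_le_mul_of_nonneg_right (hval x) (abs_nonneg _)
      refine h4.trans ?_
      rw [← Finset.mul_sum, mul_comm]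
      apply mul_le_mul_of_nonneg_right _ hA0
      have h5 : ∑ x, |R (Pi.single x 1) ⟨a, hmem⟩| ≤ ∑ a, ∑ x, |R (Pi.single x 1) a| :=
        Finset.single_le_sum (f := fun b => ∑ x, |R (Pi.single x 1) b|)
          (fun b _ => Finset.sum_nonneg fun x _ => abs_nonneg _) (Finset.mem_univ _)
      linarith
    · rw [coeff_zero_of_deg hP ha, abs_zero]
      exact mul_nonneg (by linarith) hA0

/-! ### recentred polynomials -/

/-- the polynomial `u ↦ f (a + r u)` -/
def rcp (a r : Fin n → ℝ) (f : MvPolynomial (Fin n) ℝ) : MvPolynomial (Fin n) ℝ :=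
  MvPolynomial.bind₁ (fun i => C (a i) + C (r i) * X i) f

theorem rcp_eval (a r : Fin n → ℝ) (f : MvPolynomial (Fin n) ℝ) (u : Fin n → ℝ) :
    MvPolynomial.eval u (rcp a r f) = MvPolynomial.eval (fun i => a i + r i * u i) f := by
  unfold rcp
  rw [MvPolynomial.eval, MvPolynomial.eval₂Hom_bind₁]
  congr 2
  funext i
  simp

theorem rcp_deg (a r : Fin n → ℝ) (f : MvPolynomial (Fin n) ℝ) : (rcp a r f).totalDegree ≤ f.totalDegree := by
  have h1 := totalDegree_bind_le f (fun i => C (a i) + C (r i) * X i) 1 (fun i => by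
    refine (MvPolynomial.totalDegree_add _ _).trans (max_le ?_ ?_)
    · rw [MvPolynomial.totalDegree_C]
      exact zero_le_one
    · refine (MvPolynomial.totalDegree_mul _ _).trans ?_
      rw [MvPolynomial.totalDegree_C, zero_add]
      exact (MvPolynomial.totalDegree_X i).le)
  rwa [one_mul] at h1

end

end Pool.Agent.Helper63.FRT
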