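import Pool.Agent.Helper63.FRT.Cof
import Pool.Agent.Helper63.MT.Imu
import Pool.Agent.Helper81.MT.Trn

/-! NESTING (NES): polynomials of a variable whose digits are full over a partition (up to the levels `β i`). A
polynomial of bounded degree, with ARBITRARY coefficients, which is a function of the base, the partition and the cells
of levels `c i < β i` of the variable (up to tame factors), is typically not larger on the cell than at the variable: the
coefficients of `u ↦ f (Y + 2^(-c n) u)` are at most `K |f Y|`, `K` tame. -/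

set_option autoImplicit false

namespace Pool.Agent.Helper63.FRT

open Finset Filter Topology Matrix Pool.Agent.Helper69.RK Pool.Agent.Helper31.EC Pool.Agent.Helper31.EC.Sp
open Pool.Agent.Helper40.EL Pool.Agent.Helper89.LX Pool.Agent.Helper3.LF Pool.Agent.Helper84.MT
open Pool.Agent.Helper63.MT (typ_all sub_all)

noncomputable section

variable {S : Sp} {e : ℕ}

/-! ### digits of different levels -/

/-- the digits of level `b i` of the coordinates `i` -/
def celm (Y : S.VV e) (b : Fin e → ℝ) : ∀ k, (S.F k).Ω → Fin e → ℤ := fun k ω i => ⌊Y.v k ω i / S.dl (b i) k⌋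

theorem celm_const (Y : S.VV e) (r : ℝ) : celm Y (fun _ => r) = Y.cellv r := rfl

/-- subadditivity over the coordinates -/
theorem e_pi_le (F : FSp) {α : Type} (X : F.Ω → Fin e → α) (B : Setoid F.Ω) :
    F.e (Setoid.ker X) B ≤ ∑ i, F.e (Setoid.ker (fun ω => X ω i)) B := by
  classical
  have key : ∀ s : Finset (Fin e), F.e (oths X s) B ≤ ∑ i ∈ s, F.e (Setoid.ker (fun ω => X ω i)) B := by
    intro s
    induction s using Finset.induction_on with
    | empty =>
      rw [Finset.sum_empty]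
      apply le_of_eq
      apply F.e_zero
      intro ω ω' _ _ _
      exact (oths_rel X _ ω ω').2 (fun i hi => absurd hi (Finset.notMem_empty i))
    | insert i s hi ih =>
      rw [Finset.sum_insert hi]
      have h1 : F.e (oths X (insert i s)) B ≤ F.e (Setoid.ker (fun ω => X ω i) ⊓ oths X s) B := by
        apply F.e_mono
        intro ω ω' _ _ h _
        refine (oths_rel X _ ω ω').2 fun j hj => ?_
        rcases Finset.mem_insert.mp hj with h2 | h2
        · rw [h2]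
          exact h.1
        · exact (oths_rel X _ ω ω').1 h.2 j h2
      have h2 := F.e_sup_le (Setoid.ker (fun ω => X ω i)) (oths X s) B
      linarith
  refine le_trans ?_ (key Finset.univ)
  apply F.e_mono
  intro ω ω' _ _ h _
  show X ω = X ω'
  funext i
  exact (oths_rel X _ ω ω').1 h i (Finset.mem_univ i)

/-- digits of levels `b` of a vector whose coordinates vary by at most `K 2^(-a n)` on the atoms of `B` -/
theorem h_celm_le (Y : S.VV e) (a b : Fin e → ℝ) (hab : ∀ i, a i ≤ b i) (B : ∀ k, Setoid (S.F k).Ω) (K : ℕ → ℝ)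
    (hK : S.Sub K) (hB : ∀ᶠ k in UF, ∀ ω ω', (S.F k).μ ω ≠ 0 → (S.F k).μ ω' ≠ 0 → (S.F k).Z ω ω' → B k ω ω' →
      ∀ i, |Y.v k ω i - Y.v k ω' i| ≤ K k * S.dl (a i) k) (ε : ℝ) (hε : 0 < ε) :
    ∀ᶠ k in UF, h (fc (Setoid.ker (celm Y b k))) (fc (B k)) / (S.F k).n ≤ ∑ i, (b i - a i) + ε := by
  have h1 : Tendsto (fun k => e * (Real.logb 2 (K k + 2) / (S.F k).n)) UF (𝓝 (e * 0)) := hK.2.const_mul _
  rw [mul_zero] at h1
  filter_upwards [hB, hK.1, h1.eventually (gt_mem_nhds hε)] with k hk hK0 hk2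
  have hn := (S.F k).pos
  rw [h_fc, div_le_iff₀ hn]
  have h2 : ∀ i : Fin e, (S.F k).e (Setoid.ker (fun ω => celm Y b k ω i)) (B k ⊓ (S.F k).Z) ≤
      (b i - a i) * (S.F k).n + Real.logb 2 (K k + 2) := by
    intro i
    set x : ℝ := 2 ^ ((b i - a i) * (S.F k).n) with hx
    have hx1 : 1 ≤ x := Real.one_le_rpow (by norm_num) (mul_nonneg (sub_nonneg.mpr (hab i)) hn.le)
    have e1 : S.dl (a i) k = x * S.dl (b i) k := by
      unfold Sp.dl
      rw [hx, ← Real.rpow_add (by norm_num)]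
      congr 1
      ring
    have h3 := (S.F k).e_int_le (fun ω (_ : Fin 1) => celm Y b k ω i) (B k ⊓ (S.F k).Z) (K k * x + 1) (by positivity)
      (fun ω ω' a' b' c' _ => by
        apply floor_diff (S.dl_pos (b i) k)
        have h4 := hk ω ω' a' b' c'.2 c'.1 i
        rw [e1] at h4
        rw [mul_assoc]
        exact h4)
    have h5 : (S.F k).e (Setoid.ker (fun ω => celm Y b k ω i)) (B k ⊓ (S.F k).Z) ≤
        (S.F k).e (Setoid.ker (fun ω (_ : Fin 1) => celm Y b k ω i)) (B k ⊓ (S.F k).Z) := by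
      apply (S.F k).e_mono
      intro ω ω' _ _ h _
      exact congrFun h 0
    refine h5.trans (h3.trans ?_)
    rw [Nat.cast_one, one_mul]
    have h6 : Real.logb 2 (K k * x + 1 + 1) ≤ Real.logb 2 (x * (K k + 2)) := by
      apply Real.logb_le_logb_of_le (by norm_num) (by positivity)
      nlinarith
    refine h6.trans (le_of_eq ?_)
    rw [Real.logb_mul (by positivity) (by positivity), hx, Real.logb_rpow (by norm_num) (by norm_num)]
  refine (e_pi_le _ _ _).trans ((Finset.sum_le_sum fun i _ => h2 i).trans ?_)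
  rw [Finset.sum_add_distrib, ← Finset.sum_mul, Finset.sum_const, Finset.card_univ, Fintype.card_fin, nsmul_eq_mul,
    add_mul]
  have h3 : e * (Real.logb 2 (K k + 2) / (S.F k).n) * (S.F k).n = e * Real.logb 2 (K k + 2) := by
    field_simp
  have h4 := mul_le_mul_of_nonneg_right hk2.le hn.le
  rw [h3] at h4
  linarith

/-- full digits given the cells of lower levels -/
theorem full_cells (Y : S.VV e) (La : ∀ k, Setoid (S.F k).Ω) (c β : Fin e → ℝ) (h0 : ∀ i, 0 ≤ c i)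
    (hc : ∀ i, c i ≤ β i)
    (full : Tendsto (fun k => h (fc (Setoid.ker (celm Y β k))) (fc (La k)) / (S.F k).n) UF (𝓝 (∑ i, β i))) :
    Tendsto (fun k => h (fc (Setoid.ker (celm Y β k))) (fc (La k ⊓ Setoid.ker (celm Y c k))) / (S.F k).n) UF
      (𝓝 (∑ i, (β i - c i))) := by
  rw [Metric.tendsto_nhds]
  intro ε hε
  obtain ⟨K, hK, hY⟩ := Y.bd
  have h1 := h_celm_le Y (fun _ => 0) c h0 La (fun k => K k + K k) (hK.add hK) (by
    filter_upwards [hY] with k hk ω ω' a b _ _ i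
    rw [S.dl_zero, mul_one]
    refine (abs_sub _ _).trans (add_le_add (hk ω a i) (hk ω' b i))) (ε / 2) (by linarith)
  have h2 := h_celm_le Y c β hc (fun k => La k ⊓ Setoid.ker (celm Y c k)) (fun _ => 1) (S.Sub_const zero_le_one)
    (Eventually.of_forall fun k ω ω' _ _ _ r i => by
      rw [one_mul]
      exact abs_sub_le_of_floor_eq (S.dl_pos _ k) (congrFun r.2 i)) (ε / 2) (by linarith)
  have h3 := full.eventually (lt_mem_nhds (show ∑ i, β i - ε / 4 < ∑ i, β i by linarith))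
  filter_upwards [h1, h2, h3] with k a b d
  rw [Real.dist_eq, abs_lt]
  have hn := (S.F k).pos
  have h4 : h (fc (Setoid.ker (celm Y β k))) (fc (La k)) ≤ h (fc (Setoid.ker (celm Y c k))) (fc (La k)) +
      h (fc (Setoid.ker (celm Y β k))) (fc (La k ⊓ Setoid.ker (celm Y c k))) := by
    refine (h_mono (le_sup_right : fc (Setoid.ker (celm Y β k)) ≤ fc (Setoid.ker (celm Y c k)) ⊔ _)).trans ?_
    rw [h_chain, fc_inf, sup_comm (fc (La k))]
  have h5 := div_le_div_of_nonneg_right h4 hn.le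
  rw [add_div] at h5
  have e1 : ∑ i, (c i - 0) = ∑ i, c i := Finset.sum_congr rfl fun i _ => sub_zero _
  have e2 : ∑ i, (β i - c i) = ∑ i, β i - ∑ i, c i := Finset.sum_sub_distrib _ _
  rw [e1] at a
  rw [e2] at b ⊢
  constructor <;> linarith

/-- FULL DIGITS FROM A CHART: if the digits of level `r` of the vector `x` over `La` have the entropy `∑ β i` and if they
are functions of `La` and of the digits of levels `β i` of `Y`, the latter are full -/
theorem full_of_chart {m : ℕ} (Y : S.VV e) (x : S.VV m) (r : ℝ) (La : ∀ k, Setoid (S.F k).Ω) (β : Fin e → ℝ)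
    (h0 : ∀ i, 0 ≤ β i)
    (ent : Tendsto (fun k => h (fc (Setoid.ker (x.cellv r k))) (fc (La k)) / (S.F k).n) UF (𝓝 (∑ i, β i)))
    (K : ℕ → ℝ) (hK : S.Sub K) (hfn : ∀ᶠ k in UF, ∀ ω ω', (S.F k).μ ω ≠ 0 → (S.F k).μ ω' ≠ 0 → (S.F k).Z ω ω' →
      La k ω ω' → celm Y β k ω = celm Y β k ω' → ∀ i, |x.v k ω i - x.v k ω' i| ≤ K k * S.dl r k) :
    Tendsto (fun k => h (fc (Setoid.ker (celm Y β k))) (fc (La k)) / (S.F k).n) UF (𝓝 (∑ i, β i)) := by
  rw [Metric.tendsto_nhds]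
  intro ε hε
  obtain ⟨L, hL, hY⟩ := Y.bd
  have h1 := h_celm_le Y (fun _ => 0) β h0 La (fun k => L k + L k) (hL.add hL) (by
    filter_upwards [hY] with k hk ω ω' a b _ _ i
    rw [S.dl_zero, mul_one]
    refine (abs_sub _ _).trans (add_le_add (hk ω a i) (hk ω' b i))) (ε / 2) (by linarith)
  have h2 := PLe_cell x r (fun k => La k ⊓ Setoid.ker (celm Y β k)) K hK (by
    filter_upwards [hfn] with k hk ω ω' a b c d
    exact hk ω ω' a b c d.1 d.2)
  have h2' := h2.eventually (gt_mem_nhds (show (0 : ℝ) < ε / 4 by linarith))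
  have h3 := ent.eventually (lt_mem_nhds (show ∑ i, β i - ε / 4 < ∑ i, β i by linarith))
  filter_upwards [h1, h2', h3] with k a b d
  rw [Real.dist_eq, abs_lt]
  have hn := (S.F k).pos
  have h4 : h (fc (Setoid.ker (x.cellv r k))) (fc (La k)) ≤ h (fc (Setoid.ker (celm Y β k))) (fc (La k)) +
      h (fc (Setoid.ker (x.cellv r k))) (fc (La k ⊓ Setoid.ker (celm Y β k))) := by
    refine (h_mono (le_sup_right : fc (Setoid.ker (x.cellv r k)) ≤ fc (Setoid.ker (celm Y β k)) ⊔ _)).trans ?_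
    rw [h_chain, fc_inf, sup_comm (fc (La k))]
  have h5 := div_le_div_of_nonneg_right h4 hn.le
  rw [add_div] at h5
  have e1 : ∑ i, (β i - 0) = ∑ i, β i := Finset.sum_congr rfl fun i _ => sub_zero _
  rw [e1] at a
  have b' : h (fc (Setoid.ker (x.cellv r k))) (fc (La k ⊓ Setoid.ker (celm Y β k))) / (S.F k).n < ε / 4 := b
  constructor <;> linarith

/-! ### the remainder in the cells -/

/-- the rescaled remainders in the cells of levels `c i` -/
def remv (Y : S.VV e) (c : Fin e → ℝ) : S.VV e :=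
  VV.of (fun k ω i => Y.v k ω i / S.dl (c i) k - ⌊Y.v k ω i / S.dl (c i) k⌋) (by
    refine ⟨1, Eventually.of_forall fun k ω _ i => ?_⟩
    have h1 := Int.floor_le (Y.v k ω i / S.dl (c i) k)
    have h2 := Int.lt_floor_add_one (Y.v k ω i / S.dl (c i) k)
    rw [abs_le]; constructor <;> linarith)

theorem remv_v (Y : S.VV e) (c : Fin e → ℝ) (k : ℕ) (ω : (S.F k).Ω) (i : Fin e) :
    Y.v k ω i = S.dl (c i) k * ((remv Y c).v k ω i + (celm Y c k ω i : ℝ)) := by
  have h1 := S.dl_pos (c i) k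
  show Y.v k ω i = S.dl (c i) k * (Y.v k ω i / S.dl (c i) k - (⌊Y.v k ω i / S.dl (c i) k⌋ : ℝ) +
    (⌊Y.v k ω i / S.dl (c i) k⌋ : ℝ))
  rw [sub_add_cancel, mul_div_cancel₀]
  exact h1.ne'

theorem remv_bd (Y : S.VV e) (c : Fin e → ℝ) (k : ℕ) (ω : (S.F k).Ω) (i : Fin e) :
    0 ≤ (remv Y c).v k ω i ∧ (remv Y c).v k ω i ≤ 1 := by
  have h1 := Int.floor_le (Y.v k ω i / S.dl (c i) k)
  have h2 := Int.lt_floor_add_one (Y.v k ω i / S.dl (c i) k)
  show 0 ≤ Y.v k ω i / S.dl (c i) k - ⌊Y.v k ω i / S.dl (c i) k⌋ ∧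
    Y.v k ω i / S.dl (c i) k - ⌊Y.v k ω i / S.dl (c i) k⌋ ≤ 1
  constructor <;> linarith

/-- the remainders are full over the cells -/
theorem remv_full (Y : S.VV e) (La : ∀ k, Setoid (S.F k).Ω) (c β : Fin e → ℝ) {b : ℝ} (hb : 0 ≤ b)
    (hc : ∀ i, c i + b ≤ β i) (full : Tendsto (fun k => h (fc (Setoid.ker (celm Y β k)))
      (fc (La k ⊓ Setoid.ker (celm Y c k))) / (S.F k).n) UF (𝓝 (∑ i, (β i - c i)))) :
    Tendsto (fun k => h (fc (Setoid.ker ((remv Y c).cellv b k))) (fc (La k ⊓ Setoid.ker (celm Y c k))) / (S.F k).n) UF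
      (𝓝 (e * b)) := by
  rw [Metric.tendsto_nhds]
  intro ε hε
  have h1 := h_celm_le (remv Y c) (fun _ => 0) (fun _ => b) (fun _ => hb) (fun k => La k ⊓ Setoid.ker (celm Y c k))
    (fun _ => 1) (S.Sub_const zero_le_one) (Eventually.of_forall fun k ω ω' _ _ _ _ i => by
      obtain ⟨h1, h2⟩ := remv_bd Y c k ω i
      obtain ⟨h3, h4⟩ := remv_bd Y c k ω' i
      rw [S.dl_zero, mul_one, abs_le]
      constructor <;> linarith) (ε / 2) (by linarith)
  have h2 := h_celm_le Y (fun i => c i + b) β hc (fun k => (La k ⊓ Setoid.ker (celm Y c k)) ⊓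
    Setoid.ker ((remv Y c).cellv b k)) (fun _ => 1) (S.Sub_const zero_le_one)
    (Eventually.of_forall fun k ω ω' _ _ _ r i => by
      have h3 : |(remv Y c).v k ω i - (remv Y c).v k ω' i| ≤ S.dl b k :=
        abs_sub_le_of_floor_eq (S.dl_pos _ k) (congrFun r.2 i)
      have h4 : celm Y c k ω i = celm Y c k ω' i := congrFun r.1.2 i
      rw [remv_v Y c k ω i, remv_v Y c k ω' i, h4, one_mul, S.dl_add, ← mul_sub, add_sub_add_right_eq_sub, abs_mul,
        abs_of_pos (S.dl_pos (c i) k)]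
      exact mul_le_mul_of_nonneg_left h3 (S.dl_pos _ k).le) (ε / 2) (by linarith)
  have h3 := full.eventually (lt_mem_nhds (show ∑ i, (β i - c i) - ε / 4 < ∑ i, (β i - c i) by linarith))
  filter_upwards [h1, h2, h3] with k x y z
  rw [Real.dist_eq, abs_lt]
  have hn := (S.F k).pos
  have h4 : h (fc (Setoid.ker (celm Y β k))) (fc (La k ⊓ Setoid.ker (celm Y c k))) ≤
      h (fc (Setoid.ker ((remv Y c).cellv b k))) (fc (La k ⊓ Setoid.ker (celm Y c k))) +
      h (fc (Setoid.ker (celm Y β k))) (fc ((La k ⊓ Setoid.ker (celm Y c k)) ⊓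
        Setoid.ker ((remv Y c).cellv b k))) := by
    refine (h_mono (le_sup_right : fc (Setoid.ker (celm Y β k)) ≤
      fc (Setoid.ker ((remv Y c).cellv b k)) ⊔ _)).trans ?_
    rw [h_chain, fc_inf (La k ⊓ Setoid.ker (celm Y c k)), sup_comm (fc (La k ⊓ Setoid.ker (celm Y c k)))]
  have h5 := div_le_div_of_nonneg_right h4 hn.le
  rw [add_div] at h5
  have e1 : ∑ _i : Fin e, (b - 0) = e * b := by
    rw [Finset.sum_const, Finset.card_univ, Fintype.card_fin, nsmul_eq_mul, sub_zero]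
  have e2 : ∑ i, (β i - (c i + b)) = ∑ i, (β i - c i) - e * b := by
    have e3 : ∀ i, β i - (c i + b) = (β i - c i) - b := fun i => by ring
    simp only [e3]
    rw [Finset.sum_sub_distrib (s := Finset.univ) (fun i => β i - c i) (fun _ => b), Finset.sum_const,
      Finset.card_univ, Fintype.card_fin, nsmul_eq_mul]
  rw [e1] at x
  rw [e2] at y
  have x' : h (fc (Setoid.ker ((remv Y c).cellv b k))) (fc (La k ⊓ Setoid.ker (celm Y c k))) / (S.F k).n ≤
      e * b + ε / 2 := x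
  constructor <;> linarith

/-! ### changes of the depth -/

theorem Sub_of_chg {b : ℝ} (hb : 0 < b) {K : ℕ → ℝ} (hK : (S.chg S.tr b hb).Sub K) : S.Sub K := by
  refine ⟨hK.1, ?_⟩
  have h1 := hK.2.const_mul b
  rw [mul_zero] at h1
  refine h1.congr fun k => ?_
  show b * (Real.logb 2 (K k + 2) / (b * (S.F k).n)) = Real.logb 2 (K k + 2) / (S.F k).n
  have := (S.F k).pos
  field_simp

/-! ### full variables -/

/-- UNIFORM LEVELS: a variable whose digits of level `b` are full over `La`; polynomials known to `La` -/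
theorem nes0 (Y : S.VV e) (La : ∀ k, Setoid (S.F k).Ω) {b : ℝ} (hb : 0 < b)
    (full : Tendsto (fun k => h (fc (Setoid.ker (Y.cellv b k))) (fc (La k)) / (S.F k).n) UF (𝓝 (e * b)))
    {D : ℕ} (f : ∀ k, (S.F k).Ω → MvPolynomial (Fin e) ℝ)
    (deg : ∀ᶠ k in UF, ∀ ω, (S.F k).μ ω ≠ 0 → (f k ω).totalDegree ≤ D) {κ : ℕ → ℝ} (hκ : S.Sub κ)
    (hf : ∀ᶠ k in UF, ∀ ω ω', (S.F k).μ ω ≠ 0 → (S.F k).μ ω' ≠ 0 → (S.F k).Z ω ω' → La k ω ω' → ∀ y,
      |MvPolynomial.eval y (f k ω')| ≤ κ k * |MvPolynomial.eval y (f k ω)|) :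
    ∃ K : ℕ → ℝ, S.Sub K ∧ Typ (fun k ω => ∀ y : Fin e → ℝ, (∀ i, |y i - Y.v k ω i| < 1) →
      |MvPolynomial.eval y (f k ω)| ≤ K k * |MvPolynomial.eval (Y.v k ω) (f k ω)|) := by
  set S' := S.chg S.tr b hb with hS'
  set Y' : S'.VV e := Y.chg S.tr b hb with hY'
  have hfull : Tendsto (fun k => h (fc (F := S'.F k) (Setoid.ker (Y'.cellv 1 k))) (fc (La k)) / (S'.F k).n) UF
      (𝓝 e) := by
    have h2 := full.const_mul b⁻¹
    have e1 : b⁻¹ * ((e : ℝ) * b) = e := by
      field_simp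
    rw [e1] at h2
    refine h2.congr fun k => ?_
    have e2 := h_chg_top b hb (F := S.F k) (Setoid.ker (Y.cellv b k)) (La k)
    have e3 : (Y.chg S.tr b hb).cellv 1 k = Y.cellv b k :=
      (Pool.Agent.Helper52.SL.cellv_chg Y b hb 1 k).trans (by rw [mul_one])
    have e4 : h (fc (F := (S.F k).chg ⊤ b hb) (Setoid.ker ((Y.chg S.tr b hb).cellv 1 k))) (fc (La k)) =
        h (fc (Setoid.ker (Y.cellv b k))) (fc (La k)) :=
      (congrArg (fun f => h (fc (F := (S.F k).chg ⊤ b hb) (Setoid.ker f)) (fc (La k))) e3).trans e2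
    have e5 : ∀ x n : ℝ, b⁻¹ * (x / n) = x / (b * n) := by
      intro x n
      rw [← div_div, div_right_comm, div_eq_inv_mul (x / n)]
    exact (e5 _ _).trans (congrArg (fun x => x / (b * (S.F k).n)) e4.symm)
  set l : Leaf S' Y' (lin (max e 1)) := Leaf.ofPoly (S := S') (Q := Y') (max e 1) (le_max_right _ _) e (le_max_left _ _)
    La Y' (fun _ _ i => MvPolynomial.X i) (fun k ω i => (MvPolynomial.totalDegree_X (R := ℝ) i).le.trans (le_max_right _ _))
    (Eventually.of_forall fun k ω ω' _ _ _ _ => rfl)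
    ⟨fun _ => 1, S'.Sub_const zero_le_one, Eventually.of_forall fun k ω _ i a => by
      classical
      rw [MvPolynomial.coeff_X]
      split_ifs
      · rw [abs_one]
      · rw [abs_zero]
        exact zero_le_one⟩
    ⟨fun _ => 0, S'.Sub_const le_rfl, Eventually.of_forall fun k ω _ i => by
      rw [MvPolynomial.eval_X, sub_self, abs_zero, zero_mul]⟩ hfull with hl
  obtain ⟨K', hK', hT⟩ := typ_al l (c := 0) le_rfl one_pos (fun k => FLab.triv (S'.F k)) (by
      show Tendsto _ _ _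
      simp only [FLab.triv_leak, zero_div]
      exact tendsto_const_nhds) (D := D) (fun k w y => MvPolynomial.eval y (f k w))
    (by
      filter_upwards [deg] with k hk w hw
      refine ⟨fun y => MvPolynomial.eval y (f k w), ⟨f k w, ?_, rfl⟩, fun y _ => rfl⟩
      have h1 : D ≤ max e 1 * D := Nat.le_mul_of_pos_left D (lt_of_lt_of_le one_pos (le_max_right e 1))
      exact (hk w hw).trans h1)
    (κ := κ) (chg_sub S.tr b hb hκ) (by
      filter_upwards [hf] with k hk w w' hw hw' hZ _ hLa _ y _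
      exact hk w w' hw hw' hZ.2 hLa y)
  refine ⟨K', Sub_of_chg hb hK', ?_⟩
  have hT' : Typ (S := S) (fun k ω => ∀ y : Fin e → ℝ, (∀ i, |y i - Y.v k ω i| < S'.dl 0 k) →
      |MvPolynomial.eval y (f k ω)| ≤ K' k * |MvPolynomial.eval (Y.v k ω) (f k ω)|) := hT
  refine hT'.mono (Eventually.of_forall fun k ω _ h y hy => h y fun i => ?_)
  rw [S'.dl_zero]
  exact hy i

/-- NESTING: polynomials known to `La` and the cells of levels `c i` -/
theorem nes (Y : S.VV e) (La : ∀ k, Setoid (S.F k).Ω) (c β : Fin e → ℝ) (hc : ∀ i, c i < β i)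
    (full : Tendsto (fun k => h (fc (Setoid.ker (celm Y β k))) (fc (La k ⊓ Setoid.ker (celm Y c k))) / (S.F k).n) UF
      (𝓝 (∑ i, (β i - c i))))
    {D : ℕ} (f : ∀ k, (S.F k).Ω → MvPolynomial (Fin e) ℝ)
    (deg : ∀ᶠ k in UF, ∀ ω, (S.F k).μ ω ≠ 0 → (f k ω).totalDegree ≤ D) {κ : ℕ → ℝ} (hκ : S.Sub κ)
    (hf : ∀ᶠ k in UF, ∀ ω ω', (S.F k).μ ω ≠ 0 → (S.F k).μ ω' ≠ 0 → (S.F k).Z ω ω' → La k ω ω' →
      celm Y c k ω = celm Y c k ω' → ∀ y, |MvPolynomial.eval y (f k ω')| ≤ κ k * |MvPolynomial.eval y (f k ω)|) :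
    ∃ K : ℕ → ℝ, S.Sub K ∧ (∀ᶠ k in UF, 1 ≤ K k) ∧ Typ (fun k ω => ∀ ρ : ℝ, 1 ≤ ρ → ∀ x : Fin e → ℝ,
      (∀ i, |x i - Y.v k ω i| ≤ ρ * S.dl (c i) k) →
        |MvPolynomial.eval x (f k ω)| ≤ K k * ρ ^ D * |MvPolynomial.eval (Y.v k ω) (f k ω)| ∧
        ∀ a, |(rcp x (fun i => S.dl (c i) k) (f k ω)).coeff a| ≤
          K k * ρ ^ D * |MvPolynomial.eval (Y.v k ω) (f k ω)|) := by
  obtain ⟨b, hb, hcb⟩ : ∃ b : ℝ, 0 < b ∧ ∀ i, c i + b ≤ β i := by
    rcases isEmpty_or_nonempty (Fin e) with he | he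
    · exact ⟨1, one_pos, fun i => he.elim i⟩
    · obtain ⟨i₀, hi₀⟩ := Finite.exists_min (fun i => β i - c i)
      refine ⟨β i₀ - c i₀, sub_pos.mpr (hc i₀), fun i => ?_⟩
      have := hi₀ i
      linarith
  set cr : ∀ k, (S.F k).Ω → Fin e → ℝ := fun k ω i => S.dl (c i) k * (celm Y c k ω i : ℝ) with hcr
  set r : ℕ → Fin e → ℝ := fun k i => S.dl (c i) k with hr
  obtain ⟨K, hK, hT⟩ := nes0 (remv Y c) (fun k => La k ⊓ Setoid.ker (celm Y c k)) hb (remv_full Y La c β hb.le hcb full)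
    (D := D) (fun k ω => rcp (cr k ω) (r k) (f k ω)) (by
      filter_upwards [deg] with k hk ω hω
      exact (rcp_deg _ _ _).trans (hk ω hω)) hκ (by
      filter_upwards [hf] with k hk ω ω' a b z h y
      have h1 : celm Y c k ω = celm Y c k ω' := h.2
      have h2 : cr k ω' = cr k ω := by
        funext i
        simp only [hcr, h1]
      rw [h2, rcp_eval, rcp_eval]
      exact hk ω ω' a b z h.1 h1 _)
  obtain ⟨B, hB1, hB⟩ := exists_coef_bd e D
  have hBe : (0 : ℝ) ≤ B * ((D : ℝ) + 1) ^ e * 2 ^ D := by positivity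
  -- bounds with the centre at the variable
  refine ⟨fun k => (B * ((D : ℝ) + 1) ^ e * 2 ^ D) * (B * K k) + 1, ((S.Sub_const hBe).mul
    ((S.Sub_const (by linarith)).mul hK)).add (S.Sub_const zero_le_one), ?_, hT.mono ?_⟩
  · filter_upwards [hK.1] with k hk
    have : 0 ≤ (B * ((D : ℝ) + 1) ^ e * 2 ^ D) * (B * K k) := mul_nonneg hBe (mul_nonneg (by linarith) hk)
    linarith
  filter_upwards [hK.1, deg] with k hK0 hdeg ω hω h1 ρ hρ x hx
  have hd : (f k ω).totalDegree ≤ D := hdeg ω hω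
  have eY : (fun i => cr k ω i + r k i * (remv Y c).v k ω i) = Y.v k ω := by
    funext i
    rw [remv_v Y c k ω i]
    simp only [hcr, hr]
    ring
  obtain ⟨V, hV⟩ : ∃ V : ℝ, V = |MvPolynomial.eval (Y.v k ω) (f k ω)| := ⟨_, rfl⟩
  have hV0 : 0 ≤ V := by rw [hV]; exact abs_nonneg _
  have h2 : ∀ u : Fin e → ℝ, (∀ i, |u i| < 1) →
      |MvPolynomial.eval (fun i => Y.v k ω i + r k i * u i) (f k ω)| ≤ K k * V := by
    intro u hu
    have h3 := h1 (fun i => (remv Y c).v k ω i + u i) (fun i => by rw [add_sub_cancel_left]; exact hu i)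
    rw [rcp_eval, rcp_eval, eY, ← hV] at h3
    have e3 : (fun i => cr k ω i + r k i * ((remv Y c).v k ω i + u i)) = fun i => Y.v k ω i + r k i * u i := by
      funext i
      rw [← congrFun eY i]
      ring
    rw [e3] at h3
    exact h3
  have h3 : ∀ a, |(rcp (Y.v k ω) (r k) (f k ω)).coeff a| ≤ B * (K k * V) := by
    apply hB _ ((rcp_deg _ _ _).trans hd)
    intro y hy
    rw [rcp_eval]
    exact h2 y fun i => abs_lt.mpr ⟨by linarith [(hy i).1], (hy i).2⟩
  -- values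
  have h4 : ∀ R : ℝ, 1 ≤ R → ∀ y : Fin e → ℝ, (∀ i, |y i - Y.v k ω i| ≤ R * r k i) →
      |MvPolynomial.eval y (f k ω)| ≤ ((D : ℝ) + 1) ^ e * (B * (K k * V) * R ^ D) := by
    intro R hR y hy
    have e4 : y = fun i => Y.v k ω i + r k i * ((y i - Y.v k ω i) / r k i) := by
      funext i
      have : 0 < r k i := S.dl_pos _ _
      rw [mul_div_cancel₀ _ this.ne']
      ring
    have h5 := eval_le_of_coeff (rcp (Y.v k ω) (r k) (f k ω)) ((rcp_deg _ _ _).trans hd) (B * (K k * V)) R (by positivity)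
      hR h3 (fun i => (y i - Y.v k ω i) / r k i) (fun i => by
        have : 0 < r k i := S.dl_pos _ _
        rw [abs_div, abs_of_pos this, div_le_iff₀ this]
        exact hy i)
    rw [rcp_eval, ← e4] at h5
    exact h5
  have hRD : (1 : ℝ) ≤ ρ ^ D := one_le_pow₀ hρ
  have hD1 : (1 : ℝ) ≤ ((D : ℝ) + 1) ^ e := one_le_pow₀ (by
    have : (0 : ℝ) ≤ D := Nat.cast_nonneg _
    linarith)
  have h2D : (1 : ℝ) ≤ 2 ^ D := one_le_pow₀ (by norm_num)
  rw [← hV]
  constructor
  · refine (h4 ρ hρ x hx).trans ?_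
    have h6 : 0 ≤ ((D : ℝ) + 1) ^ e * (B * (K k * V) * ρ ^ D) := by positivity
    have h7 : (1 : ℝ) ≤ B * 2 ^ D := by nlinarith
    have h8 : ((D : ℝ) + 1) ^ e * (B * (K k * V) * ρ ^ D) ≤
        (B * 2 ^ D) * (((D : ℝ) + 1) ^ e * (B * (K k * V) * ρ ^ D)) := by nlinarith
    have h9 : 0 ≤ ρ ^ D * V := by positivity
    nlinarith
  · intro a
    have h5 := hB (rcp x (r k) (f k ω)) ((rcp_deg _ _ _).trans hd) (((D : ℝ) + 1) ^ e * (B * (K k * V) * (2 * ρ) ^ D))
      (fun y hy => by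
        rw [rcp_eval]
        apply h4 (2 * ρ) (by linarith)
        intro i
        have h6 := hx i
        have h7 : 0 < r k i := S.dl_pos _ _
        have h8 : |x i + r k i * y i - Y.v k ω i| ≤ |x i - Y.v k ω i| + |r k i * y i| := by
          have e5 : x i + r k i * y i - Y.v k ω i = (x i - Y.v k ω i) + r k i * y i := by ring
          rw [e5]
          exact abs_add_le _ _
        have h9 : |r k i * y i| ≤ r k i := by
          rw [abs_mul, abs_of_pos h7, abs_of_nonneg (hy i).1]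
          have := (hy i).2
          nlinarith
        have h10 : |x i - Y.v k ω i| ≤ ρ * r k i := h6
        nlinarith) a
    refine h5.trans ?_
    rw [mul_pow]
    have h9 : 0 ≤ ρ ^ D * V := by positivity
    nlinarith

/-- NESTING over a partition over which the variable is full -/
theorem nes_full (Y : S.VV e) (La : ∀ k, Setoid (S.F k).Ω) (c β : Fin e → ℝ) (h0 : ∀ i, 0 ≤ c i)
    (hc : ∀ i, c i < β i)
    (full : Tendsto (fun k => h (fc (Setoid.ker (celm Y β k))) (fc (La k)) / (S.F k).n) UF (𝓝 (∑ i, β i)))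
    {D : ℕ} (f : ∀ k, (S.F k).Ω → MvPolynomial (Fin e) ℝ)
    (deg : ∀ᶠ k in UF, ∀ ω, (S.F k).μ ω ≠ 0 → (f k ω).totalDegree ≤ D)
    (hf : ∀ᶠ k in UF, ∀ ω ω', (S.F k).μ ω ≠ 0 → (S.F k).μ ω' ≠ 0 → (S.F k).Z ω ω' → La k ω ω' →
      celm Y c k ω = celm Y c k ω' → f k ω = f k ω') :
    ∃ K : ℕ → ℝ, S.Sub K ∧ (∀ᶠ k in UF, 1 ≤ K k) ∧ Typ (fun k ω => ∀ ρ : ℝ, 1 ≤ ρ → ∀ x : Fin e → ℝ,
      (∀ i, |x i - Y.v k ω i| ≤ ρ * S.dl (c i) k) →
        |MvPolynomial.eval x (f k ω)| ≤ K k * ρ ^ D * |MvPolynomial.eval (Y.v k ω) (f k ω)| ∧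
        ∀ a, |(rcp x (fun i => S.dl (c i) k) (f k ω)).coeff a| ≤
          K k * ρ ^ D * |MvPolynomial.eval (Y.v k ω) (f k ω)|) :=
  nes Y La c β hc (full_cells Y La c β h0 (fun i => (hc i).le) full) f deg (κ := fun _ => 1)
    (S.Sub_const zero_le_one) (by
      filter_upwards [hf] with k hk ω ω' a b z h1 h2 y
      rw [hk ω ω' a b z h1 h2, one_mul])

theorem rcp_zero_one (f : MvPolynomial (Fin e) ℝ) : rcp (fun _ => 0) (fun _ => 1) f = f := by
  unfold rcp
  have h1 : (fun i : Fin e => MvPolynomial.C (0 : ℝ) + MvPolynomial.C (1 : ℝ) * MvPolynomial.X i) =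
      MvPolynomial.X := by
    funext i
    rw [map_zero, map_one, zero_add, one_mul]
  rw [h1, MvPolynomial.bind₁_X_left]
  rfl

/-- COEFFICIENTS of a polynomial known to a partition over which the variable is full -/
theorem nes_coeff (Y : S.VV e) (La : ∀ k, Setoid (S.F k).Ω) (β : Fin e → ℝ) (h0 : ∀ i, 0 < β i)
    (full : Tendsto (fun k => h (fc (Setoid.ker (celm Y β k))) (fc (La k)) / (S.F k).n) UF (𝓝 (∑ i, β i)))
    {D : ℕ} (f : ∀ k, (S.F k).Ω → MvPolynomial (Fin e) ℝ)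
    (deg : ∀ᶠ k in UF, ∀ ω, (S.F k).μ ω ≠ 0 → (f k ω).totalDegree ≤ D)
    (hf : ∀ᶠ k in UF, ∀ ω ω', (S.F k).μ ω ≠ 0 → (S.F k).μ ω' ≠ 0 → (S.F k).Z ω ω' → La k ω ω' → f k ω = f k ω') :
    ∃ K : ℕ → ℝ, S.Sub K ∧ (∀ᶠ k in UF, 1 ≤ K k) ∧ Typ (fun k ω => ∀ a, |(f k ω).coeff a| ≤
      K k * |MvPolynomial.eval (Y.v k ω) (f k ω)|) := by
  obtain ⟨K, hK, hK1, hT⟩ := nes_full Y La (fun _ => 0) β (fun _ => le_rfl) h0 full f deg (by
    filter_upwards [hf] with k hk ω ω' a b z h1 _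
    exact hk ω ω' a b z h1)
  obtain ⟨L, hL, hY⟩ := Y.bd
  refine ⟨fun k => K k * (L k + 1) ^ D, hK.mul (Sub_pow' (hL.add (S.Sub_const zero_le_one)) D), ?_, hT.mono ?_⟩
  · filter_upwards [hK1, hL.1] with k h1 h2
    have h3 : (1 : ℝ) ≤ (L k + 1) ^ D := one_le_pow₀ (by linarith)
    nlinarith
  · filter_upwards [hY, hL.1] with k h1 h2 ω hω h3 a
    have h4 := (h3 (L k + 1) (by linarith) (fun _ => 0) (fun i => by
      rw [zero_sub, abs_neg, S.dl_zero, mul_one]
      have := h1 ω hω i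
      linarith)).2 a
    have e1 : (fun _ : Fin e => S.dl 0 k) = fun _ => 1 := by
      funext i
      exact S.dl_zero k
    rw [e1, rcp_zero_one] at h4
    exact h4

end

end Pool.Agent.Helper63.FRT
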