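import Pool.Agent.Helper36.AM.St
import Pool.Agent.Helper77.WDG.Nrm
import Pool.Agent.Helper63.FRT.Nes

/-! FRT: the coordinates of a frame of a label are full over the label: if the cells of level `r` of the first `m`
coordinates of the point have entropy `Σ (r - La i)` over the label, the digits of levels `r - La i` of the first `m`
coordinates of the frame are full. -/

set_option autoImplicit false

namespace Pool.Agent.Helper63.FRT

open Finset Filter Topology Pool.Agent.Helper69.RK Pool.Agent.Helper31.EC Pool.Agent.Helper31.EC.Sp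
open Pool.Agent.Helper40.EL Pool.Agent.Helper89.LX Pool.Agent.Helper3.LF Pool.Agent.Helper84.MT
open Pool.Agent.Helper36.AM (Frm)

noncomputable section

variable {S : Sp} {M : ℕ}

/-- the degrees of a frame are bounded -/
theorem frm_deg {Q : S.VV M} {l : Lab S} {La : Fin M → ℝ} (f : Frm Q l La) (h0 : ∀ i, 0 < La i) :
    ∃ κ : ℕ, ∀ k ω j, (f.P k ω j).totalDegree ≤ κ := by
  classical
  rcases isEmpty_or_nonempty (Fin M) with he | he
  · exact ⟨0, fun _ _ j => he.elim j⟩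
  obtain ⟨i₀, h1⟩ := Finite.exists_min La
  obtain ⟨i₁, h2⟩ := Finite.exists_max La
  refine ⟨⌈La i₁ / La i₀⌉₊, fun k ω j => ?_⟩
  rw [MvPolynomial.totalDegree]
  refine Finset.sup_le fun a ha => ?_
  by_cases h : a = 0
  · subst h
    simp
  have h3 := f.red k ω j a ha h
  have h4 : (∑ i, (a i : ℝ)) * La i₀ ≤ ∑ i, (a i : ℝ) * La i := by
    rw [Finset.sum_mul]
    exact Finset.sum_le_sum fun i _ => mul_le_mul_of_nonneg_left (h1 i) (Nat.cast_nonneg _)
  have h5 : (∑ i, (a i : ℝ)) ≤ La i₁ / La i₀ := by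
    rw [le_div_iff₀ (h0 i₀)]
    linarith [h2 j]
  have h6 : ((a.sum fun _ e => e : ℕ) : ℝ) = ∑ i, (a i : ℝ) := by
    rw [Finsupp.sum_fintype _ _ (fun _ => rfl)]
    push_cast
    rfl
  have h7 : ((a.sum fun _ e => e : ℕ) : ℝ) ≤ (⌈La i₁ / La i₀⌉₊ : ℕ) := by
    rw [h6]
    exact h5.trans (Nat.le_ceil _)
  exact_mod_cast h7

/-- on the atoms of the label and of the cells of the frame coordinates the point varies by `2 ^ (-r n)` -/
theorem frm_close {Q : S.VV M} {l : Lab S} {La : Fin M → ℝ} (f : Frm Q l La) (h0 : ∀ i, 0 < La i) {r : ℝ}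
    (hr1 : r ≤ 1) : ∃ K : ℕ → ℝ, S.Sub K ∧ ∀ᶠ k in UF, ∀ (j : Fin M) (ω ω' : (l.sp.F k).Ω), (l.sp.F k).μ ω ≠ 0 →
      (l.sp.F k).μ ω' ≠ 0 → (l.sp.F k).Z ω ω' → l.V k ω ω' →
      (∀ i, i ≤ j → |f.X.v k ω i - f.X.v k ω' i| ≤ S.dl (r - La i) k) →
        |(l.pj.vv Q).v k ω j - (l.pj.vv Q).v k ω' j| ≤ K k * S.dl r k := by
  obtain ⟨κ, hκ⟩ := frm_deg f h0
  obtain ⟨Kc, hKc, hc⟩ := f.bd
  obtain ⟨Kp, hKp, hp⟩ := f.pt
  obtain ⟨Kx, hKx', hx⟩ := f.X.bd
  have hKx : S.Sub Kx := (sp_Sub l).mp hKx'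
  have hT : S.Sub (fun k => ((κ : ℝ) + 1) ^ M * Kc k * (κ * (Kx k + 1) ^ κ)) :=
    ((S.Sub_const (by positivity)).mul hKc).mul ((S.Sub_const (Nat.cast_nonneg _)).mul
      (Sub_pow' (hKx.add (S.Sub_const zero_le_one)) κ))
  refine ⟨_, (hT.add (S.Sub_const zero_le_one)).add (hKp.add hKp), ?_⟩
  filter_upwards [hc, hp, hx, f.fn, hKc.1, hKp.1, hKx.1] with k c1 c2 c3 c4 c5 c6 c7 j ω ω' hω hω' hZ hV hi
  have hd : ∀ a, 0 < S.dl a k := fun a => S.dl_pos a k
  have hdr : S.dl 1 k ≤ S.dl r k := S.dl_anti hr1 k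
  have hP := c4 ω ω' hω hω' hZ hV
  obtain ⟨U, hU⟩ : ∃ U : Fin M → ℝ, U = fun i => S.dl (La i) k * f.X.v k ω i := ⟨_, rfl⟩
  obtain ⟨U', hU'⟩ : ∃ U' : Fin M → ℝ, U' = fun i => S.dl (La i) k * f.X.v k ω' i := ⟨_, rfl⟩
  have hUU : ∀ i, i ≤ j → |U i - U' i| ≤ S.dl r k := by
    intro i hij
    rw [hU, hU']
    show |S.dl (La i) k * f.X.v k ω i - S.dl (La i) k * f.X.v k ω' i| ≤ _
    rw [← mul_sub, abs_mul, abs_of_pos (hd _)]
    have e1 : S.dl r k = S.dl (La i) k * S.dl (r - La i) k := by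
      rw [← S.dl_add]
      congr 1
      ring
    rw [e1]
    exact mul_le_mul_of_nonneg_left (hi i hij) (hd _).le
  have hdi : ∀ i, S.dl (La i) k ≤ 1 := fun i => by
    rw [← S.dl_zero k]
    exact S.dl_anti (h0 i).le k
  have hUb : ∀ i, |U i| ≤ Kx k + 1 := by
    intro i
    rw [hU]
    show |S.dl (La i) k * f.X.v k ω i| ≤ _
    rw [abs_mul, abs_of_pos (hd _)]
    have h1 := (mul_le_mul_of_nonneg_left (c3 ω hω i) (hd (La i)).le).trans (mul_le_of_le_one_left c7 (hdi i))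
    linarith
  have hUb' : ∀ i, |U' i| ≤ Kx k + 1 := by
    intro i
    rw [hU']
    show |S.dl (La i) k * f.X.v k ω' i| ≤ _
    rw [abs_mul, abs_of_pos (hd _)]
    have h1 := (mul_le_mul_of_nonneg_left (c3 ω' hω' i) (hd (La i)).le).trans (mul_le_of_le_one_left c7 (hdi i))
    linarith
  have h1 := Pool.Agent.Helper77.WDG.eval_sub_le (P := f.P k ω j) (T := Kx k + 1) (δ := S.dl r k) (by linarith)
    (hd r).le (hκ k ω j) (u := U) (v := U') (fun i _ => hUb i) (fun i _ => hUb' i)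
    (fun i hi' => hUU i (f.tri k ω j i hi').le)
  have h2 := Pool.Agent.Helper77.WDG.nrm_le_of_coeff (hκ k ω j) c5 (c1 ω hω j)
  rw [Fintype.card_fin] at h2
  have h3 : |MvPolynomial.eval U (f.P k ω j) - MvPolynomial.eval U' (f.P k ω j)| ≤
      ((κ : ℝ) + 1) ^ M * Kc k * (κ * (Kx k + 1) ^ κ * S.dl r k) :=
    h1.trans (mul_le_mul_of_nonneg_right h2 (by
      have := (hd r).le
      positivity))
  have h4 := c2 ω hω j
  have h5 := c2 ω' hω' j
  rw [← hP] at h5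
  have e2 : (fun i => S.dl (La i) k * f.X.v k ω i) = U := hU.symm
  have e3 : (fun i => S.dl (La i) k * f.X.v k ω' i) = U' := hU'.symm
  have e4 : S.dl (La j) k * f.X.v k ω j = U j := (congrFun hU j).symm
  have e5 : S.dl (La j) k * f.X.v k ω' j = U' j := (congrFun hU' j).symm
  rw [e2, e4] at h4
  rw [e3, e5] at h5
  have h6 := hUU j le_rfl
  have h7 : Kp k * S.dl 1 k ≤ Kp k * S.dl r k := mul_le_mul_of_nonneg_left hdr c6
  have e6 : (l.pj.vv Q).v k ω j - (l.pj.vv Q).v k ω' j =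
      ((l.pj.vv Q).v k ω j - (MvPolynomial.eval U (f.P k ω j) + U j)) -
      ((l.pj.vv Q).v k ω' j - (MvPolynomial.eval U' (f.P k ω j) + U' j)) +
      ((MvPolynomial.eval U (f.P k ω j) - MvPolynomial.eval U' (f.P k ω j)) + (U j - U' j)) := by ring
  rw [e6]
  refine (abs_add_le _ _).trans ?_
  have h8 := abs_sub ((l.pj.vv Q).v k ω j - (MvPolynomial.eval U (f.P k ω j) + U j))
    ((l.pj.vv Q).v k ω' j - (MvPolynomial.eval U' (f.P k ω j) + U' j))
  have h9 := abs_add_le (MvPolynomial.eval U (f.P k ω j) - MvPolynomial.eval U' (f.P k ω j)) (U j - U' j)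
  nlinarith

/-- THE COORDINATES OF A FRAME ARE FULL over the label -/
theorem frm_full {Q : S.VV M} {l : Lab S} {La : Fin M → ℝ} (f : Frm Q l La) (h0 : ∀ i, 0 < La i) {m : ℕ}
    (hm : m ≤ M) (x : S.VV m) (hx : ∀ k ω i, x.v k ω i = Q.v k ω (Fin.castLE hm i)) (Y : l.sp.VV m)
    (hY : ∀ k ω i, Y.v k ω i = f.X.v k ω (Fin.castLE hm i)) {r : ℝ} (hr : ∀ i : Fin m, La (Fin.castLE hm i) ≤ r)
    (hr1 : r ≤ 1)
    (ent : Tendsto (fun k => h ((l k).p.map (fc (Setoid.ker (x.cellv r k)))) (l k).v / (S.F k).n) UF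
      (𝓝 (∑ i : Fin m, (r - La (Fin.castLE hm i))))) :
    Tendsto (fun k => h (fc (Setoid.ker (celm Y (fun i => r - La (Fin.castLE hm i)) k))) (fc (l.V k)) /
      (l.sp.F k).n) UF (𝓝 (∑ i : Fin m, (r - La (Fin.castLE hm i)))) := by
  obtain ⟨K, hK, hk⟩ := frm_close f h0 hr1
  have e1 : ∀ k, Setoid.comap ((l k).p.π) (Setoid.ker (x.cellv r k)) =
      Setoid.ker ((l.pj.vv x).cellv r k) := by
    intro k
    have h1 : (fun k ω => x.cellv r k (l.pj.π k ω)) = (l.pj.vv x).cellv r := by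
      funext k ω i
      have h2 : (l.sp.F k).n = (S.F k).n := (l k).hn
      show ⌊x.v k (l.pj.π k ω) i / S.dl r k⌋ = ⌊x.v k (l.pj.π k ω) i / l.sp.dl r k⌋
      unfold Sp.dl
      rw [h2]
    rw [← h1]
    rfl
  have hn : ∀ k, (l.sp.F k).n = (S.F k).n := fun k => (l k).hn
  refine full_of_chart Y (l.pj.vv x) r l.V (fun i => r - La (Fin.castLE hm i))
    (fun i => sub_nonneg.mpr (hr i)) ?_ K ((sp_Sub l).mpr hK) ?_
  · refine ent.congr fun k => ?_
    rw [hn k, ← e1 k]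
    rfl
  · filter_upwards [hk] with k a ω ω' hω hω' hZ hV hc i
    have hd : l.sp.dl r k = S.dl r k := by
      unfold Sp.dl
      rw [hn k]
    rw [hd]
    have h2 := a (Fin.castLE hm i) ω ω' hω hω' hZ hV (fun i' hi' => by
      have hlt : (i' : ℕ) < m := lt_of_le_of_lt (show (i' : ℕ) ≤ (i : ℕ) from hi') i.2
      have e2 : i' = Fin.castLE hm ⟨(i' : ℕ), hlt⟩ := Fin.ext rfl
      have h3 := congrFun hc ⟨(i' : ℕ), hlt⟩
      have h4 : ⌊Y.v k ω ⟨(i' : ℕ), hlt⟩ / l.sp.dl (r - La (Fin.castLE hm ⟨(i' : ℕ), hlt⟩)) k⌋ =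
        ⌊Y.v k ω' ⟨(i' : ℕ), hlt⟩ / l.sp.dl (r - La (Fin.castLE hm ⟨(i' : ℕ), hlt⟩)) k⌋ := h3
      rw [← e2] at h4
      have hd2 : l.sp.dl (r - La i') k = S.dl (r - La i') k := by
        unfold Sp.dl
        rw [hn k]
      rw [hd2, hY, hY, ← e2] at h4
      have hp := S.dl_pos (r - La i') k
      have h5 := Int.floor_le (f.X.v k ω i' / S.dl (r - La i') k)
      have h6 := Int.lt_floor_add_one (f.X.v k ω i' / S.dl (r - La i') k)
      have h7 := Int.floor_le (f.X.v k ω' i' / S.dl (r - La i') k)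
      have h8 := Int.lt_floor_add_one (f.X.v k ω' i' / S.dl (r - La i') k)
      rw [h4] at h5 h6
      have h9 : |f.X.v k ω i' / S.dl (r - La i') k - f.X.v k ω' i' / S.dl (r - La i') k| ≤ 1 := by
        rw [abs_le]
        constructor <;> linarith
      rw [← sub_div, abs_div, abs_of_pos hp, div_le_one hp] at h9
      exact h9)
    have e3 : ∀ ω, (l.pj.vv x).v k ω i = (l.pj.vv Q).v k ω (Fin.castLE hm i) := fun ω => hx k ((l k).p.π ω) i
    rw [e3, e3]
    exact h2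

end

end Pool.Agent.Helper63.FRT
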