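import Pool.Agent.Helper85.FRM.Step
import Pool.Agent.Helper77.WDG.Nrm
import Pool.Agent.Helper63.FRT.Cof

/-! Polynomials in the coordinates of a triangular frame: restriction to the first `j` variables, Lipschitz bounds in
terms of majorants, majorants from coefficients of rescaled polynomials, the row in the coordinates of the frame. -/

set_option autoImplicit false

namespace Pool.Agent.Helper63.FRT

open MvPolynomial Finset
open Pool.Agent.Helper85.FRM (maj maj_bind maj_mono maj_nonneg wd WD N Fr tr co tr_eq co_eq rec' one_le_wd coeff_le_maj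
  maj_C_mul maj_X exp_zero_of_notMem eval_bind eval_congr bind_congr bind_rec)

noncomputable section

variable {M : ℕ}

/-! ### the first variables -/

/-- the inclusion of the first `j` variables -/
def emb (j : Fin M) : Fin j.val → Fin M := fun i => ⟨i.val, i.isLt.trans j.isLt⟩

theorem emb_lt (j : Fin M) (i : Fin j.val) : emb j i < j := i.isLt

theorem emb_inj (j : Fin M) : Function.Injective (emb j) := fun a b h => Fin.ext (by
  have h1 := congrArg Fin.val h
  exact h1)

/-- substitute zero for the variables `≥ j` -/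
def dn (j : Fin M) (F : MvPolynomial (Fin M) ℝ) : MvPolynomial (Fin j.val) ℝ :=
  bind₁ (fun l : Fin M => if h : l.val < j.val then X ⟨l.val, h⟩ else 0) F

theorem eval_bind' {σ τ : Type*} (T : σ → MvPolynomial τ ℝ) (P : MvPolynomial σ ℝ) (x : τ → ℝ) :
    eval x (bind₁ T P) = eval (fun i => eval x (T i)) P := by
  rw [MvPolynomial.eval, MvPolynomial.eval₂Hom_bind₁]
  rfl

theorem eval_dn {j : Fin M} {F : MvPolynomial (Fin M) ℝ} (hF : ∀ a ∈ F.vars, a < j) (x : Fin M → ℝ)
    (y : Fin j.val → ℝ) (hy : ∀ i, y i = x (emb j i)) : eval y (dn j F) = eval x F := by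
  unfold dn
  rw [eval_bind']
  apply eval_congr
  intro a ha
  have h1 : a.val < j.val := hF a ha
  rw [dif_pos h1, eval_X, hy]
  rfl

theorem bind_congr' {σ τ : Type*} [Fintype σ] {T T' : σ → MvPolynomial τ ℝ} (P : MvPolynomial σ ℝ)
    (h : ∀ i ∈ P.vars, T i = T' i) : bind₁ T P = bind₁ T' P := by
  rw [Pool.Agent.Helper77.WDG.bind_eq_sum, Pool.Agent.Helper77.WDG.bind_eq_sum]
  refine Finset.sum_congr rfl fun a ha => ?_
  congr 1
  refine Finset.prod_congr rfl fun i hi => ?_
  rw [h i (Pool.Agent.Helper77.WDG.mem_vars_of_support ha (Finsupp.mem_support_iff.1 hi))]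

theorem rename_dn {j : Fin M} {F : MvPolynomial (Fin M) ℝ} (hF : ∀ a ∈ F.vars, a < j) :
    rename (emb j) (dn j F) = F := by
  have h1 : rename (emb j) (dn j F) =
      bind₁ (fun l : Fin M => rename (emb j) (if h : l.val < j.val then X ⟨l.val, h⟩ else 0 : MvPolynomial (Fin j.val) ℝ))
        F := by
    unfold dn
    rw [rename_bind₁]
  rw [h1, bind_congr' (T' := X) F fun a ha => ?_]
  · exact Pool.Agent.Helper85.FRM.bind_X F
  · have h2 : a.val < j.val := hF a ha
    rw [dif_pos h2, rename_X]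
    rfl

theorem dn_deg (j : Fin M) (F : MvPolynomial (Fin M) ℝ) : (dn j F).totalDegree ≤ F.totalDegree := by
  unfold dn
  refine (Pool.Agent.Helper77.WDG.totalDegree_bind_le (E := 1) le_rfl _ fun i _ => ?_).trans (by rw [mul_one])
  split_ifs
  · rw [totalDegree_X]
  · rw [totalDegree_zero]
    exact Nat.zero_le _

theorem eval_rename_emb {j : Fin M} (G : MvPolynomial (Fin j.val) ℝ) (x : Fin M → ℝ) (y : Fin j.val → ℝ)
    (hy : ∀ i, y i = x (emb j i)) : eval x (rename (emb j) G) = eval y G := by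
  rw [eval_rename]
  congr 2
  funext i
  exact (hy i).symm

theorem vars_rename_emb {j : Fin M} (G : MvPolynomial (Fin j.val) ℝ) : ∀ a ∈ (rename (emb j) G).vars, a < j := by
  classical
  intro a ha
  obtain ⟨i, _, hi⟩ := Finset.mem_image.mp (vars_rename (emb j) G ha)
  rw [← hi]
  exact emb_lt j i

/-! ### degrees -/

theorem deg_le_of_wd {w : Fin M → ℝ} (hw : ∀ l, 1 ≤ w l) {P : MvPolynomial (Fin M) ℝ} {W : ℝ} {d : ℕ} (hW : W ≤ d)
    (h : WD w P W) : P.totalDegree ≤ d := by
  rw [totalDegree]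
  refine Finset.sup_le fun a ha => ?_
  have h1 := h a ha
  have h2 : ((a.sum fun _ e => e : ℕ) : ℝ) ≤ wd w a := by
    rw [Finsupp.sum_fintype _ _ (fun _ => rfl)]
    unfold wd
    push_cast
    refine Finset.sum_le_sum fun i _ => ?_
    have h3 : (0 : ℝ) ≤ a i := Nat.cast_nonneg _
    nlinarith [hw i]
  have h4 : ((a.sum fun _ e => e : ℕ) : ℝ) ≤ (d : ℕ) := h2.trans (h1.trans hW)
  exact_mod_cast h4

/-! ### Lipschitz bounds -/

theorem nrm_le_maj {σ : Type*} [Fintype σ] (P : MvPolynomial σ ℝ) :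
    Pool.Agent.Helper77.WDG.nrm P = maj (fun _ => 1) P := by
  unfold Pool.Agent.Helper77.WDG.nrm maj
  refine Finset.sum_congr rfl fun a _ => ?_
  simp

theorem lip_maj {σ : Type*} [Fintype σ] (P : MvPolynomial σ ℝ) {v : σ → ℝ} (hv : ∀ i, 0 < v i) {T δ : ℝ} (hT : 1 ≤ T)
    (hδ : 0 ≤ δ) {D : ℕ} (hD : P.totalDegree ≤ D) {x y : σ → ℝ} (hx : ∀ i ∈ P.vars, |x i| ≤ T * v i)
    (hy : ∀ i ∈ P.vars, |y i| ≤ T * v i) (h : ∀ i ∈ P.vars, |x i - y i| ≤ δ * v i) :
    |eval x P - eval y P| ≤ maj v P * (D * T ^ D * δ) := by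
  classical
  obtain ⟨P', hP'⟩ : ∃ P' : MvPolynomial σ ℝ, P' = bind₁ (fun i => C (v i) * X i) P := ⟨_, rfl⟩
  have hvars : ∀ i ∈ P'.vars, i ∈ P.vars := by
    intro i hi
    rw [hP'] at hi
    obtain ⟨l, hl, hil⟩ := Finset.mem_biUnion.mp (vars_bind₁ _ P hi)
    have h1 : i ∈ (C (v l) : MvPolynomial σ ℝ).vars ∪ (X l : MvPolynomial σ ℝ).vars := vars_mul _ _ hil
    rw [vars_C, vars_X, Finset.empty_union, Finset.mem_singleton] at h1
    rw [h1]
    exact hl
  have e1 : ∀ z : σ → ℝ, eval z P = eval (fun i => z i / v i) P' := by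
    intro z
    rw [hP', eval_bind']
    congr 2
    funext i
    rw [map_mul, eval_C, eval_X, mul_div_cancel₀ _ (hv i).ne']
  have hD' : P'.totalDegree ≤ D := by
    rw [hP']
    refine (Pool.Agent.Helper77.WDG.totalDegree_bind_le (E := 1) hD _ fun i _ => ?_).trans (by rw [mul_one])
    refine (totalDegree_mul _ _).trans ?_
    rw [totalDegree_C, totalDegree_X]
  have h1 := Pool.Agent.Helper77.WDG.eval_sub_le (P := P') (T := T) (δ := δ) hT hδ hD' (u := fun i => x i / v i)
    (v := fun i => y i / v i) (fun i hi => by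
      rw [abs_div, abs_of_pos (hv i), div_le_iff₀ (hv i)]
      exact hx i (hvars i hi)) (fun i hi => by
      rw [abs_div, abs_of_pos (hv i), div_le_iff₀ (hv i)]
      exact hy i (hvars i hi)) (fun i hi => by
      rw [← sub_div, abs_div, abs_of_pos (hv i), div_le_iff₀ (hv i)]
      exact h i (hvars i hi))
  rw [e1 x, e1 y]
  refine h1.trans (mul_le_mul_of_nonneg_right ?_ (by positivity))
  rw [nrm_le_maj, hP']
  refine maj_bind (fun _ => zero_le_one) _ P v fun i _ => ?_
  refine (maj_C_mul (fun _ => zero_le_one) _ _).trans ?_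
  rw [maj_X, mul_one, abs_of_pos (hv i)]

/-! ### majorants -/

theorem maj_rename {σ τ : Type*} [Fintype σ] [Fintype τ] {f : σ → τ} (v : τ → ℝ) (hv : ∀ i, 0 ≤ v i)
    (G : MvPolynomial σ ℝ) : maj v (rename f G) ≤ maj (fun i => v (f i)) G := by
  classical
  have h1 : rename f G = ∑ a ∈ G.support, rename f (monomial a (G.coeff a)) := by
    conv_lhs => rw [G.as_sum]
    rw [map_sum]
  rw [h1]
  refine (Pool.Agent.Helper85.FRM.maj_sum hv _ _).trans ?_
  unfold maj
  refine Finset.sum_le_sum fun a _ => ?_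
  rw [rename_monomial]
  have h2 := Pool.Agent.Helper85.FRM.maj_monomial v (Finsupp.mapDomain f a) (G.coeff a)
  unfold maj at h2
  rw [h2]
  apply le_of_eq
  congr 1
  have h3 : ∏ i, v i ^ (Finsupp.mapDomain f a) i = (Finsupp.mapDomain f a).prod fun i n => v i ^ n := by
    rw [Finsupp.prod_fintype]
    intro i
    exact pow_zero _
  rw [h3, Finsupp.prod_mapDomain_index (fun i => pow_zero _) (fun i m n => pow_add _ _ _), Finsupp.prod_fintype]
  intro i
  exact pow_zero _

theorem maj_of_coeff {e : ℕ} (G : MvPolynomial (Fin e) ℝ) {D : ℕ} (hD : G.totalDegree ≤ D) (y : Fin e → ℝ) {r K : ℝ}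
    (hr : 0 < r) (hK : 0 ≤ K) (h : ∀ a, |(rcp y (fun _ => r) G).coeff a| ≤ K) :
    maj (fun _ => r) (rec' y G) ≤ ((D : ℝ) + 1) ^ e * K := by
  have e1 : rec' y G = bind₁ (fun i => C r⁻¹ * X i) (rcp y (fun _ => r) G) := by
    unfold rcp rec'
    rw [bind₁_bind₁]
    congr 2
    funext i
    rw [map_add, map_mul, bind₁_C_right, bind₁_C_right, bind₁_X_right, ← mul_assoc, ← C_mul, mul_inv_cancel₀ hr.ne',
      C_1, one_mul, add_comm]
  rw [e1]
  refine (maj_bind (fun _ => hr.le) _ _ (fun _ => 1) fun i _ => ?_).trans ?_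
  · refine (maj_C_mul (fun _ => hr.le) _ _).trans ?_
    rw [maj_X, abs_of_pos (inv_pos.mpr hr), inv_mul_cancel₀ hr.ne']
  · rw [← nrm_le_maj]
    have h2 := Pool.Agent.Helper77.WDG.nrm_le_of_coeff ((rcp_deg y (fun _ => r) G).trans hD) hK h
    rwa [Fintype.card_fin] at h2

theorem rec_rename {j : Fin M} (G : MvPolynomial (Fin j.val) ℝ) (x : Fin M → ℝ) (y : Fin j.val → ℝ)
    (hy : ∀ i, y i = x (emb j i)) : rec' x (rename (emb j) G) = rename (emb j) (rec' y G) := by
  unfold rec'
  rw [bind₁_rename, rename_bind₁]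
  congr 2
  funext i
  rw [map_add, rename_X, rename_C, hy]
  rfl

/-- the norm of the recentred polynomial -/
theorem N_of_coeff {w : Fin M → ℝ} (hw : ∀ l, 1 ≤ w l) {q ε : ℝ} (hq : 1 ≤ q) (hε : 0 ≤ ε) {j : Fin M}
    (G : MvPolynomial (Fin j.val) ℝ) {D : ℕ} (hD : G.totalDegree ≤ D) (x : Fin M → ℝ) (y : Fin j.val → ℝ)
    (hy : ∀ i, y i = x (emb j i)) {K : ℝ} (hK : 0 ≤ K) (h : ∀ a, |(rcp y (fun _ => q ^ (-ε)) G).coeff a| ≤ K) :
    N q w (-ε) (rec' x (rename (emb j) G)) ≤ ((D : ℝ) + 1) ^ j.val * K := by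
  have hq0 : 0 < q := by linarith
  rw [rec_rename G x y hy]
  unfold N
  refine (maj_rename _ (fun i => (Real.rpow_pos_of_pos hq0 _).le) _).trans ?_
  refine le_trans ?_ (maj_of_coeff G hD y (Real.rpow_pos_of_pos hq0 (-ε)) hK h)
  refine maj_mono _ (fun i _ => (Real.rpow_pos_of_pos hq0 _).le) fun i _ => ?_
  apply Real.rpow_le_rpow_of_exponent_le hq
  nlinarith [hw (emb j i)]

/-! ### the row in the coordinates of the frame -/

/-- chain rule -/
theorem pderiv_bindg {σ τ : Type*} [Fintype σ] (u : σ → MvPolynomial τ ℝ) (a : τ) (p : MvPolynomial σ ℝ) :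
    pderiv a (bind₁ u p) = ∑ i, bind₁ u (pderiv i p) * pderiv a (u i) := by
  classical
  induction p using MvPolynomial.induction_on with
  | C c => simp
  | add p q hp hq =>
    simp only [map_add, hp, hq, add_mul, Finset.sum_add_distrib]
  | mul_X p n hp =>
    simp only [map_mul, bind₁_X_right, Derivation.leibniz, smul_eq_mul, hp, map_add, pderiv_X]
    rw [Finset.mul_sum]
    have h1 : ∀ i : σ, (bind₁ u p * bind₁ u (Pi.single (M := fun _ => MvPolynomial σ ℝ) i 1 n) +
        u n * bind₁ u (pderiv i p)) * pderiv a (u i) =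
        bind₁ u p * (bind₁ u (Pi.single (M := fun _ => MvPolynomial σ ℝ) i 1 n) * pderiv a (u i)) +
          u n * (bind₁ u (pderiv i p) * pderiv a (u i)) := fun i => by ring
    rw [Finset.sum_congr rfl fun i _ => h1 i, Finset.sum_add_distrib, ← Finset.mul_sum]
    congr 2
    rw [Finset.sum_eq_single n]
    · rw [Pi.single_eq_same, map_one, one_mul]
    · intro i _ hi
      rw [Pi.single_eq_of_ne (fun h => hi h.symm), map_zero, zero_mul, mul_zero]
    · intro h
      exact absurd (Finset.mem_univ n) h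

/-- the chart of the frame: old coordinates as polynomials in the new ones and `z = x_j` (the variable `0`) -/
def ctr (q : ℝ) (w : Fin M → ℝ) (a : ℝ) (j : Fin M) (P : Fin M → MvPolynomial (Fin M) ℝ) (l : Fin M) :
    MvPolynomial (Fin (j.val + 1)) ℝ :=
  if h : l.val < j.val then rename Fin.succ (dn j (P l)) + C (q ^ (-(w l * a))) * X (Fin.succ ⟨l.val, h⟩)
  else if l = j then X 0 else 0

/-- the row in the coordinates of the frame -/
def rowf (q : ℝ) (w : Fin M → ℝ) (a : ℝ) (j : Fin M) (P : Fin M → MvPolynomial (Fin M) ℝ)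
    (p : MvPolynomial (Fin M) ℝ) : MvPolynomial (Fin (j.val + 1)) ℝ := bind₁ (ctr q w a j P) p

section
variable {q : ℝ} {w : Fin M → ℝ} {j : Fin M} {P : Fin M → MvPolynomial (Fin M) ℝ}

theorem ctr_eval (hq : 0 < q) (a : ℝ) (hP : Fr w j.val P) (x : Fin M → ℝ) (y : Fin j.val → ℝ)
    (hy : ∀ i, y i = co q w a P x (emb j i)) {l : Fin M} (hl : l ≤ j) :
    eval (Fin.cons (x j) y : Fin (j.val + 1) → ℝ) (ctr q w a j P l) = x l := by
  unfold ctr
  by_cases h : l.val < j.val
  · rw [dif_pos h, map_add, map_mul, eval_C, eval_X, Fin.cons_succ, eval_rename]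
    have h1 : (Fin.cons (x j) y : Fin (j.val + 1) → ℝ) ∘ Fin.succ = y := by
      funext i
      exact Fin.cons_succ _ _ _
    have h2 := hP.vars l h
    rw [h1, eval_dn (fun a ha => (h2 a ha).trans h) (co q w a P x) y hy, hy]
    have h3 : emb j ⟨l.val, h⟩ = l := rfl
    rw [h3, co_eq a x h2, ← mul_assoc, ← Real.rpow_add hq]
    simp
  · rw [dif_neg h]
    have h1 : l = j := le_antisymm hl (not_lt.mp h)
    rw [if_pos h1, eval_X, Fin.cons_zero, h1]

theorem rowf_eval (hq : 0 < q) (a : ℝ) (hP : Fr w j.val P) (x : Fin M → ℝ) (y : Fin j.val → ℝ)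
    (hy : ∀ i, y i = co q w a P x (emb j i)) {p : MvPolynomial (Fin M) ℝ} (hp : ∀ b ∈ p.vars, b ≤ j) :
    eval (Fin.cons (x j) y : Fin (j.val + 1) → ℝ) (rowf q w a j P p) = eval x p := by
  unfold rowf
  rw [eval_bind']
  exact eval_congr _ fun l hl => ctr_eval hq a hP x y hy (hp l hl)

theorem vars_pderiv_le (i : Fin M) (p : MvPolynomial (Fin M) ℝ) : ∀ b ∈ (pderiv i p).vars, b ∈ p.vars := by
  classical
  intro b hb
  obtain ⟨a, ha, hab⟩ := (mem_vars_iff_mem_support b).mp hb
  have h1 : pderiv i p = ∑ c ∈ p.support, pderiv i (monomial c (p.coeff c)) := by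
    conv_lhs => rw [p.as_sum]
    rw [map_sum]
  rw [h1] at ha
  obtain ⟨c, hc, hac⟩ := Finset.mem_biUnion.mp (support_sum ha)
  rw [pderiv_monomial] at hac
  have h2 := Finset.mem_singleton.mp (support_monomial_subset hac)
  refine (mem_vars_iff_mem_support b).mpr ⟨c, hc, ?_⟩
  rw [Finsupp.mem_support_iff] at hab ⊢
  intro h3
  apply hab
  rw [h2, Finsupp.tsub_apply, h3, Nat.zero_sub]

theorem rowf_pd (hq : 0 < q) (a : ℝ) (hP : Fr w j.val P) (x : Fin M → ℝ) (y : Fin j.val → ℝ)
    (hy : ∀ i, y i = co q w a P x (emb j i)) {p : MvPolynomial (Fin M) ℝ} (hp : ∀ b ∈ p.vars, b ≤ j) :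
    eval (Fin.cons (x j) y : Fin (j.val + 1) → ℝ) (pderiv 0 (rowf q w a j P p)) = eval x (pderiv j p) := by
  classical
  unfold rowf
  have h0 : ∀ l : Fin M, l ≠ j → pderiv 0 (ctr q w a j P l) = 0 := by
    intro l hl
    unfold ctr
    by_cases h : l.val < j.val
    · rw [dif_pos h, map_add, pderiv_C_mul, pderiv_X_of_ne (Fin.succ_ne_zero _), mul_zero, add_zero]
      apply pderiv_eq_zero_of_notMem_vars
      intro h1
      obtain ⟨i, _, hi⟩ := Finset.mem_image.mp (vars_rename Fin.succ (dn j (P l)) h1)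
      exact Fin.succ_ne_zero i hi
    · rw [dif_neg h, if_neg hl, map_zero]
  have h1 : pderiv 0 (ctr q w a j P j) = 1 := by
    unfold ctr
    rw [dif_neg (lt_irrefl _), if_pos rfl, pderiv_X_self]
  rw [pderiv_bindg, Finset.sum_eq_single j]
  · rw [h1, mul_one, eval_bind']
    exact eval_congr _ fun l hl => ctr_eval hq a hP x y hy (hp l (vars_pderiv_le j p l hl))
  · intro l _ hl
    rw [h0 l hl, mul_zero]
  · intro h
    exact absurd (Finset.mem_univ j) h

theorem ctr_deg (a : ℝ) {d : ℕ} (hd : ∀ l : Fin M, l.val < j.val → (P l).totalDegree ≤ d) (l : Fin M) :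
    (ctr q w a j P l).totalDegree ≤ d + 1 := by
  unfold ctr
  split_ifs with h1 h2
  · refine (totalDegree_add _ _).trans (max_le ?_ ?_)
    · exact (totalDegree_rename_le _ _).trans ((dn_deg j _).trans ((hd l h1).trans (Nat.le_succ d)))
    · refine (totalDegree_mul _ _).trans ?_
      rw [totalDegree_C, totalDegree_X]
      omega
  · rw [totalDegree_X]
    omega
  · rw [totalDegree_zero]
    exact Nat.zero_le _

theorem rowf_deg (a : ℝ) {d D : ℕ} (hd : ∀ l : Fin M, l.val < j.val → (P l).totalDegree ≤ d)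
    {p : MvPolynomial (Fin M) ℝ} (hp : p.totalDegree ≤ D) : (rowf q w a j P p).totalDegree ≤ D * (d + 1) := by
  unfold rowf
  exact Pool.Agent.Helper77.WDG.totalDegree_bind_le hp _ fun l _ => ctr_deg a hd l

end

end

end Pool.Agent.Helper63.FRT
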