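import Pool.Agent.Helper63.FRT.Nes
import Pool.Agent.Helper76.RL.Gb

/-! AVOIDANCE: a variable whose digits are full over a partition typically avoids every small set of cells which is
known to the partition. Grid cells of a variable with full digits. -/

set_option autoImplicit false

namespace Pool.Agent.Helper63.FRT

open Finset Filter Topology Matrix Pool.Agent.Helper69.RK Pool.Agent.Helper31.EC Pool.Agent.Helper31.EC.Sp
open Pool.Agent.Helper40.EL Pool.Agent.Helper89.LX Pool.Agent.Helper3.LF Pool.Agent.Helper84.MT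

noncomputable section

open Classical in
/-- the entropy of a variable with `NT` values which hits a set of `NB` values known to the condition -/
theorem e_avoid (F : FSp) {α : Type} [Fintype α] (W : F.Ω → α) (C : Setoid F.Ω) (B : F.Ω → Finset α) (NB : ℝ)
    (hNB : 0 < NB) (hB : ∀ ω ω', F.μ ω ≠ 0 → F.μ ω' ≠ 0 → C ω ω' → B ω = B ω')
    (hc : ∀ ω, F.μ ω ≠ 0 → ((B ω).card : ℝ) ≤ NB) :
    F.e (Setoid.ker W) C ≤ 1 + Real.logb 2 (Fintype.card α) -
      F.pb (fun ω => W ω ∈ B ω) * (Real.logb 2 (Fintype.card α) - Real.logb 2 NB) := by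
  -- a representative of the class in the support
  set rp : Quotient C → Finset α := fun c => if h : ∃ ω, F.μ ω ≠ 0 ∧ Quotient.mk C ω = c then B h.choose else ∅ with hrp
  have hrpB : ∀ ω, F.μ ω ≠ 0 → rp (Quotient.mk C ω) = B ω := by
    intro ω hω
    have h : ∃ ω', F.μ ω' ≠ 0 ∧ Quotient.mk C ω' = Quotient.mk C ω := ⟨ω, hω, rfl⟩
    simp only [hrp]
    rw [dif_pos h]
    exact hB _ _ h.choose_spec.1 hω (Quotient.exact h.choose_spec.2)
  have hrpc : ∀ c, ((rp c).card : ℝ) ≤ NB := by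
    intro c
    simp only [hrp]
    split_ifs with h
    · exact hc _ h.choose_spec.1
    · rw [Finset.card_empty, Nat.cast_zero]
      exact hNB.le
  rcases isEmpty_or_nonempty α with hα | hα
  · have hΩ : ∀ ω : F.Ω, False := fun ω => hα.elim (W ω)
    have h0 : mass F.μ = 0 := by
      unfold mass
      exact Finset.sum_eq_zero fun ω _ => (hΩ ω).elim
    rw [F.ms] at h0
    exact absurd h0 one_ne_zero
  have hNT : (0 : ℝ) < Fintype.card α := by exact_mod_cast Fintype.card_pos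
  set Q : Quotient C → α → ℝ := fun c b => 1 / (2 * (Fintype.card α : ℝ)) + (if b ∈ rp c then 1 / (2 * NB) else 0) with hQ
  have hQ0 : ∀ c b, 0 < Q c b := by
    intro c b
    simp only [hQ]
    have : 0 ≤ (if b ∈ rp c then 1 / (2 * NB) else 0) := by
      split_ifs
      · positivity
      · exact le_rfl
    positivity
  have hQS : ∀ c (s : Finset α), ∑ b ∈ s, Q c b ≤ 1 := by
    intro c s
    simp only [hQ]
    rw [Finset.sum_add_distrib, Finset.sum_const, nsmul_eq_mul, ← Finset.sum_filter, Finset.sum_const, nsmul_eq_mul]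
    have h1 : (s.card : ℝ) ≤ Fintype.card α := by exact_mod_cast Finset.card_le_univ s
    have h2 : ((s.filter (fun b => b ∈ rp c)).card : ℝ) ≤ NB := by
      refine le_trans ?_ (hrpc c)
      exact_mod_cast Finset.card_le_card (fun b hb => (Finset.mem_filter.mp hb).2)
    have h3 : (s.card : ℝ) * (1 / (2 * (Fintype.card α : ℝ))) ≤ 1 / 2 := by
      rw [mul_one_div, div_le_iff₀ (by positivity)]
      linarith
    have h4 : ((s.filter (fun b => b ∈ rp c)).card : ℝ) * (1 / (2 * NB)) ≤ 1 / 2 := by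
      rw [mul_one_div, div_le_iff₀ (by positivity)]
      linarith
    linarith
  have h1 : CH F.μ (Quotient.mk (Setoid.ker W)) (Quotient.mk C) = CH F.μ W (Quotient.mk C) := by
    have h2 := F.e_congr (A := Setoid.ker W) (B := C) W (Quotient.mk C)
      (fun ω ω' _ _ => Iff.rfl) (fun ω ω' _ _ => Quotient.eq.symm)
    exact h2
  have h2 := Pool.Agent.Helper76.RL.gibbs_CH F.μ W (Quotient.mk C) F.nn Q (fun c b => (hQ0 c b).le) hQS
    (fun ω _ => hQ0 _ _)
  show CH F.μ (Quotient.mk (Setoid.ker W)) (Quotient.mk C) ≤ _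
  rw [h1]
  refine h2.trans ?_
  -- the logarithms
  have h3 : ∀ ω, F.μ ω ≠ 0 → 1 + Real.logb 2 (Fintype.card α) -
      (if W ω ∈ B ω then Real.logb 2 (Fintype.card α) - Real.logb 2 NB else 0) ≥ - Real.logb 2 (Q (Quotient.mk C ω) (W ω)) := by
    intro ω hω
    by_cases hW : W ω ∈ B ω
    · rw [if_pos hW]
      have h4 : 1 / (2 * NB) ≤ Q (Quotient.mk C ω) (W ω) := by
        simp only [hQ]
        rw [hrpB ω hω, if_pos hW]
        have : 0 ≤ 1 / (2 * (Fintype.card α : ℝ)) := by positivity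
        linarith
      have h5 := Real.logb_le_logb_of_le (b := 2) (by norm_num) (by positivity) h4
      rw [one_div, Real.logb_inv, Real.logb_mul (by norm_num) hNB.ne', Real.logb_self_eq_one (by norm_num)] at h5
      linarith
    · rw [if_neg hW]
      have h4 : 1 / (2 * (Fintype.card α : ℝ)) ≤ Q (Quotient.mk C ω) (W ω) := by
        simp only [hQ]
        rw [hrpB ω hω, if_neg hW, add_zero]
      have h5 := Real.logb_le_logb_of_le (b := 2) (by norm_num) (by positivity) h4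
      rw [one_div, Real.logb_inv, Real.logb_mul (by norm_num) hNT.ne', Real.logb_self_eq_one (by norm_num)] at h5
      linarith
  have h4 : -∑ ω, F.μ ω * Real.logb 2 (Q (Quotient.mk C ω) (W ω)) ≤ ∑ ω, F.μ ω * (1 + Real.logb 2 (Fintype.card α) -
      (if W ω ∈ B ω then Real.logb 2 (Fintype.card α) - Real.logb 2 NB else 0)) := by
    rw [← Finset.sum_neg_distrib]
    apply Finset.sum_le_sum
    intro ω _
    by_cases hω : F.μ ω = 0
    · rw [hω, zero_mul, zero_mul, neg_zero]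
    · rw [← mul_neg]
      exact mul_le_mul_of_nonneg_left (h3 ω hω) (F.nn ω)
  refine h4.trans (le_of_eq ?_)
  have h5 : ∀ ω, F.μ ω * (1 + Real.logb 2 (Fintype.card α) -
      (if W ω ∈ B ω then Real.logb 2 (Fintype.card α) - Real.logb 2 NB else 0)) =
      F.μ ω * (1 + Real.logb 2 (Fintype.card α)) -
        res F.μ (fun ω => W ω ∈ B ω) ω * (Real.logb 2 (Fintype.card α) - Real.logb 2 NB) := by
    intro ω
    by_cases hW : W ω ∈ B ω
    · rw [if_pos hW, res_pos F.μ (fun ω => W ω ∈ B ω) ω hW]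
      ring
    · rw [if_neg hW, res_neg F.μ (fun ω => W ω ∈ B ω) ω hW]
      ring
  rw [Finset.sum_congr rfl fun ω _ => h5 ω, Finset.sum_sub_distrib, ← Finset.sum_mul, ← Finset.sum_mul]
  have h6 : ∑ ω, F.μ ω = 1 := F.ms
  rw [h6, one_mul]
  rfl

variable {S : Sp}

/-- AVOIDANCE -/
theorem avoid {α : ℕ → Type} [∀ k, Fintype (α k)] (W : ∀ k, (S.F k).Ω → α k) (La : ∀ k, Setoid (S.F k).Ω)
    (B : ∀ k, (S.F k).Ω → Finset (α k)) (NB : ℕ → ℝ) (hNB : ∀ᶠ k in UF, 0 < NB k)
    (hB : ∀ᶠ k in UF, ∀ ω ω', (S.F k).μ ω ≠ 0 → (S.F k).μ ω' ≠ 0 → (S.F k).Z ω ω' → La k ω ω' → B k ω = B k ω')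
    (hc : ∀ᶠ k in UF, ∀ ω, (S.F k).μ ω ≠ 0 → ((B k ω).card : ℝ) ≤ NB k) {η : ℝ} (hη : 0 < η)
    (hsm : ∀ᶠ k in UF, Real.logb 2 (NB k) + η * (S.F k).n ≤ Real.logb 2 (Fintype.card (α k)))
    (full : ∀ ε : ℝ, 0 < ε → ∀ᶠ k in UF, Real.logb 2 (Fintype.card (α k)) ≤
      h (fc (Setoid.ker (W k))) (fc (La k)) + ε * (S.F k).n) : Typ (fun k ω => W k ω ∉ B k ω) := by
  rw [show Typ (fun k ω => W k ω ∉ B k ω) ↔ Tendsto (fun k => (S.F k).pb (fun ω => ¬ W k ω ∉ B k ω)) UF (𝓝 0)
    from Iff.rfl]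
  rw [Metric.tendsto_nhds]
  intro ε hε
  have h1 := S.div_n_tendsto 1
  have h2 : 0 < η * ε / 4 := by positivity
  filter_upwards [hNB, hB, hc, hsm, full _ h2, h1.eventually (gt_mem_nhds h2)] with k a1 a2 a3 a4 a5 a6
  have hn := (S.F k).pos
  have h3 := e_avoid (S.F k) (W k) (La k ⊓ (S.F k).Z) (B k) (NB k) a1
    (fun ω ω' h h' hz => a2 ω ω' h h' hz.2 hz.1) a3
  rw [h_fc] at a5
  have h4 := (S.F k).pb_nonneg (fun ω => W k ω ∈ B k ω)
  have h5 : (S.F k).pb (fun ω => ¬ W k ω ∉ B k ω) ≤ (S.F k).pb (fun ω => W k ω ∈ B k ω) :=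
    (S.F k).pb_mono fun ω _ h => not_not.mp h
  have h6 := (S.F k).pb_nonneg (fun ω => ¬ W k ω ∉ B k ω)
  rw [Real.dist_eq, sub_zero, abs_of_nonneg h6]
  refine lt_of_le_of_lt h5 ?_
  obtain ⟨p, hp⟩ : ∃ p, p = (S.F k).pb (fun ω => W k ω ∈ B k ω) := ⟨_, rfl⟩
  have h3' : (S.F k).e (Setoid.ker (W k)) (La k ⊓ (S.F k).Z) ≤ 1 + Real.logb 2 (Fintype.card (α k)) -
      p * (Real.logb 2 (Fintype.card (α k)) - Real.logb 2 (NB k)) := by
    rw [hp]
    refine h3.trans (le_of_eq ?_)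
    congr 3
  rw [← hp] at h4 ⊢
  have h7 : p * (η * (S.F k).n) ≤ p * (Real.logb 2 (Fintype.card (α k)) - Real.logb 2 (NB k)) :=
    mul_le_mul_of_nonneg_left (by linarith) h4
  rw [div_lt_iff₀ hn] at a6
  have h8 : p * (η * (S.F k).n) ≤ 1 + η * ε / 4 * (S.F k).n := by linarith
  have h9 : (p * η) * (S.F k).n < (η * ε) * (S.F k).n := by nlinarith
  have h10 : p * η < η * ε := lt_of_mul_lt_mul_right h9 hn.le
  by_contra hcon
  push Not at hcon
  nlinarith

end

end Pool.Agent.Helper63.FRT
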