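import Pool.Agent.Helper63.FRT.Lgj

/-! Digits of variables which are close on the atoms of a partition inside a TYPICAL event; fullness over a chart which
is only typical; sequences of constants from bounds with every exponential loss. -/

set_option autoImplicit false

namespace Pool.Agent.Helper63.FRT

open Finset Filter Topology Matrix Pool.Agent.Helper69.RK Pool.Agent.Helper31.EC Pool.Agent.Helper31.EC.Sp
open Pool.Agent.Helper40.EL Pool.Agent.Helper89.LX Pool.Agent.Helper3.LF Pool.Agent.Helper84.MT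

noncomputable section

variable {S : Sp} {e : ℕ}

/-- integer vectors which vary by a tame amount on the atoms of `B` inside a typical event -/
theorem PLe_int (X : ∀ k, (S.F k).Ω → Fin e → ℤ) (B : ∀ k, Setoid (S.F k).Ω) {Ev : ∀ k, (S.F k).Ω → Prop}
    (hE : Typ Ev) {K : ℕ → ℝ} (hK : S.Sub K) {C : ℝ} (hC0 : 0 ≤ C)
    (hC : ∀ᶠ k in UF, ∀ ω, (S.F k).μ ω ≠ 0 → ∀ i, |(X k ω i : ℝ)| ≤ 2 ^ (C * (S.F k).n))
    (hh : ∀ᶠ k in UF, ∀ ω ω', (S.F k).μ ω ≠ 0 → (S.F k).μ ω' ≠ 0 → (S.F k).Z ω ω' → B k ω ω' → Ev k ω → Ev k ω' →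
      ∀ i, |(X k ω i : ℝ) - X k ω' i| ≤ K k) :
    PLe (fun k => fc (Setoid.ker (X k))) (fun k => fc (B k)) := by
  have h2 : Tendsto (fun k => mass (res (S.F k).μ (fun ω => ¬ Ev k ω))) UF (𝓝 0) := hE
  have h3 : Tendsto (fun k => e * (Real.logb 2 (K k + 2) / (S.F k).n) + e * ((C + 2 / (S.F k).n) *
      mass (res (S.F k).μ (fun ω => ¬ Ev k ω))) + 1 / (S.F k).n) UF (𝓝 (e * 0 + e * ((C + 0) * 0) + 0)) :=
    ((hK.2.const_mul _).add (((tendsto_const_nhds.add (S.div_n_tendsto 2)).mul h2).const_mul _)).add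
      (S.div_n_tendsto 1)
  have e0 : (e : ℝ) * 0 + e * ((C + 0) * 0) + 0 = 0 := by ring
  rw [e0] at h3
  refine squeeze_zero' (Eventually.of_forall fun k => div_nonneg (h_nonneg _ _) (S.F k).pos.le) ?_ h3
  filter_upwards [hh, hK.1, hC] with k hk hK0 hCk
  have hn := (S.F k).pos
  rw [h_fc, div_le_iff₀ hn]
  have h4 := (S.F k).e_int_le_event (X k) (B k ⊓ (S.F k).Z) (fun ω => ¬ Ev k ω) (K k + 1)
    (2 * 2 ^ (C * (S.F k).n)) (by linarith) (by positivity)
    (fun ω ω' a b c d r i => (hk ω ω' a b r.2 r.1 (not_not.mp c) (not_not.mp d) i).trans (by linarith))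
    (fun ω ω' a b _ _ _ i => by
      have h5 := hCk ω a i
      have h6 := hCk ω' b i
      refine (abs_sub _ _).trans ?_
      linarith)
  have e1 : (K k + 1 + 1 : ℝ) = K k + 2 := by ring
  rw [e1] at h4
  have h7 : Real.logb 2 (2 * 2 ^ (C * (S.F k).n) + 1) ≤ C * (S.F k).n + 2 := by
    have h8 : (1 : ℝ) ≤ 2 ^ (C * (S.F k).n) := Real.one_le_rpow (by norm_num) (mul_nonneg hC0 hn.le)
    calc Real.logb 2 (2 * 2 ^ (C * (S.F k).n) + 1) ≤ Real.logb 2 (2 ^ (C * (S.F k).n + 2)) := by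
          apply Real.logb_le_logb_of_le (by norm_num) (by positivity)
          rw [Real.rpow_add (by norm_num)]
          norm_num
          linarith
      _ = C * (S.F k).n + 2 := Real.logb_rpow (by norm_num) (by norm_num)
  have hm : 0 ≤ mass (res (S.F k).μ (fun ω => ¬ Ev k ω)) := mass_res_nonneg k _
  have h9 : (e : ℝ) * Real.logb 2 (2 * 2 ^ (C * (S.F k).n) + 1) * mass (res (S.F k).μ (fun ω => ¬ Ev k ω)) ≤
      e * (C * (S.F k).n + 2) * mass (res (S.F k).μ (fun ω => ¬ Ev k ω)) :=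
    mul_le_mul_of_nonneg_right (mul_le_mul_of_nonneg_left h7 (Nat.cast_nonneg e)) hm
  have h10 : (e * (Real.logb 2 (K k + 2) / (S.F k).n) + e * ((C + 2 / (S.F k).n) *
      mass (res (S.F k).μ (fun ω => ¬ Ev k ω))) + 1 / (S.F k).n) * (S.F k).n =
      e * Real.logb 2 (K k + 2) + e * (C * (S.F k).n + 2) * mass (res (S.F k).μ (fun ω => ¬ Ev k ω)) + 1 := by
    field_simp
  rw [h10]
  linarith

/-- bounds of digits -/
theorem celm_bd (Y : S.VV e) (b : Fin e → ℝ) : ∃ C : ℝ, 0 ≤ C ∧ ∀ᶠ k in UF, ∀ ω, (S.F k).μ ω ≠ 0 → ∀ i,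
    |(celm Y b k ω i : ℝ)| ≤ 2 ^ (C * (S.F k).n) := by
  obtain ⟨L, hL, hY⟩ := Y.bd
  refine ⟨∑ i, |b i| + 1, by positivity, ?_⟩
  filter_upwards [hY, hL.1, hL.eventually_le one_pos] with k h1 h2 h3 ω hω i
  have hn := (S.F k).pos
  have hd := S.dl_pos (b i) k
  have h4 := h1 ω hω i
  have h5 : |(celm Y b k ω i : ℝ)| ≤ |Y.v k ω i / S.dl (b i) k| + 1 := by
    have h6 := Int.floor_le (Y.v k ω i / S.dl (b i) k)
    have h7 := Int.lt_floor_add_one (Y.v k ω i / S.dl (b i) k)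
    show |(⌊Y.v k ω i / S.dl (b i) k⌋ : ℝ)| ≤ _
    have h8 := neg_abs_le (Y.v k ω i / S.dl (b i) k)
    have h9 := le_abs_self (Y.v k ω i / S.dl (b i) k)
    rw [abs_le]
    constructor <;> linarith
  have h10 : |Y.v k ω i / S.dl (b i) k| ≤ L k * 2 ^ ((∑ i, |b i|) * (S.F k).n) := by
    rw [abs_div, abs_of_pos hd, div_eq_mul_inv]
    apply mul_le_mul h4 _ (inv_pos.mpr hd).le h2
    rw [dl_inv]
    apply Real.rpow_le_rpow_of_exponent_le (by norm_num)
    apply mul_le_mul_of_nonneg_right _ hn.le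
    exact (le_abs_self _).trans (Finset.single_le_sum (f := fun i => |b i|) (fun _ _ => abs_nonneg _) (Finset.mem_univ i))
  have h11 : (1 : ℝ) ≤ 2 ^ ((∑ i, |b i|) * (S.F k).n) := Real.one_le_rpow (by norm_num) (by positivity)
  rw [one_mul] at h3
  have e1 : (2 : ℝ) ^ ((∑ i, |b i| + 1) * (S.F k).n) = 2 ^ ((∑ i, |b i|) * (S.F k).n) * 2 ^ (S.F k).n := by
    rw [← Real.rpow_add (by norm_num)]
    congr 1
    ring
  rw [e1]
  nlinarith

/-- digits of variables which are close on the atoms of `B` inside a typical event -/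
theorem PLe_celm_typ (Y : S.VV e) (b : Fin e → ℝ) (B : ∀ k, Setoid (S.F k).Ω) {Ev : ∀ k, (S.F k).Ω → Prop}
    (hE : Typ Ev) {K : ℕ → ℝ} (hK : S.Sub K)
    (hh : ∀ᶠ k in UF, ∀ ω ω', (S.F k).μ ω ≠ 0 → (S.F k).μ ω' ≠ 0 → (S.F k).Z ω ω' → B k ω ω' → Ev k ω → Ev k ω' →
      ∀ i, |Y.v k ω i - Y.v k ω' i| ≤ K k * S.dl (b i) k) :
    PLe (fun k => fc (Setoid.ker (celm Y b k))) (fun k => fc (B k)) := by
  obtain ⟨C, hC0, hC⟩ := celm_bd Y b
  refine PLe_int (celm Y b) B hE (hK.add (S.Sub_const zero_le_one)) hC0 hC ?_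
  filter_upwards [hh] with k hk ω ω' h1 h2 h3 h4 h5 h6 i
  exact floor_diff (S.dl_pos (b i) k) (hk ω ω' h1 h2 h3 h4 h5 h6 i)

/-- grid cells of variables which are close on the atoms of `B` inside a typical event -/
theorem PLe_gcell_typ (Y : S.VV e) {ε : ℝ} (hε : 0 ≤ ε) (B : ∀ k, Setoid (S.F k).Ω) {Ev : ∀ k, (S.F k).Ω → Prop}
    (hE : Typ Ev) {K : ℕ → ℝ} (hK : S.Sub K)
    (hh : ∀ᶠ k in UF, ∀ ω ω', (S.F k).μ ω ≠ 0 → (S.F k).μ ω' ≠ 0 → (S.F k).Z ω ω' → B k ω ω' → Ev k ω → Ev k ω' →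
      ∀ i, |Y.v k ω i - Y.v k ω' i| ≤ K k * S.dl ε k) :
    PLe (fun k => fc (Setoid.ker (gcell Y ε k))) (fun k => fc (B k)) := by
  obtain ⟨L, hL, hY⟩ := Y.bd
  have hN2 : ∀ k, ngr S ε k ≤ 2 * (S.dl ε k)⁻¹ := fun k => by
    have h1 := ngr_le S ε k
    rw [dl_inv] at h1 ⊢
    have h2 : (1 : ℝ) ≤ 2 ^ (ε * (S.F k).n) := Real.one_le_rpow (by norm_num) (mul_nonneg hε (S.F k).pos.le)
    linarith
  refine PLe_int (gcell Y ε) B hE (K := fun k => 2 * K k + 1) (((S.Sub_const zero_le_two).mul hK).add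
    (S.Sub_const zero_le_one)) (C := ε + 1) (by linarith) ?_ ?_
  · filter_upwards [hY, hL.1, ((S.Sub_const zero_le_two).mul hL).eventually_le one_pos] with k h1 h2 h3 ω hω i
    have hn := (S.F k).pos
    have h4 := h1 ω hω i
    have hN := ngr_one S ε k
    have h5 : |(gcell Y ε k ω i : ℝ)| ≤ |ngr S ε k * Y.v k ω i| + 1 := by
      have h6 := Int.floor_le (ngr S ε k * Y.v k ω i)
      have h7 := Int.lt_floor_add_one (ngr S ε k * Y.v k ω i)
      show |(⌊ngr S ε k * Y.v k ω i⌋ : ℝ)| ≤ _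
      have h8 := neg_abs_le (ngr S ε k * Y.v k ω i)
      have h9 := le_abs_self (ngr S ε k * Y.v k ω i)
      rw [abs_le]
      constructor <;> linarith
    have h10 : |ngr S ε k * Y.v k ω i| ≤ 2 ^ (ε * (S.F k).n) * (2 * L k) := by
      rw [abs_mul, abs_of_nonneg (by linarith : 0 ≤ ngr S ε k)]
      have h11 := hN2 k
      rw [dl_inv] at h11
      calc ngr S ε k * |Y.v k ω i| ≤ 2 * 2 ^ (ε * (S.F k).n) * L k := mul_le_mul h11 h4 (abs_nonneg _) (by positivity)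
        _ = _ := by ring
    have h12 : (1 : ℝ) ≤ 2 ^ (ε * (S.F k).n) := Real.one_le_rpow (by norm_num) (mul_nonneg hε hn.le)
    rw [one_mul] at h3
    have e1 : (2 : ℝ) ^ ((ε + 1) * (S.F k).n) = 2 ^ (ε * (S.F k).n) * 2 ^ (S.F k).n := by
      rw [← Real.rpow_add (by norm_num)]
      congr 1
      ring
    rw [e1]
    nlinarith
  · filter_upwards [hh, hK.1] with k hk hK0 ω ω' h1 h2 h3 h4 h5 h6 i
    have hN := ngr_one S ε k
    have h7 := hk ω ω' h1 h2 h3 h4 h5 h6 i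
    have h8 : |ngr S ε k * Y.v k ω i - ngr S ε k * Y.v k ω' i| ≤ 2 * K k := by
      rw [← mul_sub, abs_mul, abs_of_nonneg (by linarith : 0 ≤ ngr S ε k)]
      have hd := S.dl_pos ε k
      calc ngr S ε k * |Y.v k ω i - Y.v k ω' i| ≤ (2 * (S.dl ε k)⁻¹) * (K k * S.dl ε k) :=
            mul_le_mul (hN2 k) h7 (abs_nonneg _) (by positivity)
        _ = 2 * K k := by
            field_simp
    have h9 := Int.floor_le (ngr S ε k * Y.v k ω i)
    have h10 := Int.lt_floor_add_one (ngr S ε k * Y.v k ω i)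
    have h11 := Int.floor_le (ngr S ε k * Y.v k ω' i)
    have h12 := Int.lt_floor_add_one (ngr S ε k * Y.v k ω' i)
    show |(⌊ngr S ε k * Y.v k ω i⌋ : ℝ) - (⌊ngr S ε k * Y.v k ω' i⌋ : ℝ)| ≤ 2 * K k + 1
    rw [abs_le] at h8 ⊢
    constructor <;> linarith [h8.1, h8.2]

/-- FULLNESS over a chart which is only typical -/
theorem full_of_chart_typ {m : ℕ} (Y : S.VV e) (x : S.VV m) (r : ℝ) (La : ∀ k, Setoid (S.F k).Ω) (β : Fin e → ℝ)
    (h0 : ∀ i, 0 ≤ β i)
    (ent : Tendsto (fun k => h (fc (Setoid.ker (x.cellv r k))) (fc (La k)) / (S.F k).n) UF (𝓝 (∑ i, β i)))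
    {Ev : ∀ k, (S.F k).Ω → Prop} (hE : Typ Ev) (K : ℕ → ℝ) (hK : S.Sub K)
    (hfn : ∀ᶠ k in UF, ∀ ω ω', (S.F k).μ ω ≠ 0 → (S.F k).μ ω' ≠ 0 → (S.F k).Z ω ω' →
      La k ω ω' → celm Y β k ω = celm Y β k ω' → Ev k ω → Ev k ω' → ∀ i, |x.v k ω i - x.v k ω' i| ≤ K k * S.dl r k) :
    Tendsto (fun k => h (fc (Setoid.ker (celm Y β k))) (fc (La k)) / (S.F k).n) UF (𝓝 (∑ i, β i)) := by
  rw [Metric.tendsto_nhds]
  intro ε hε
  obtain ⟨L, hL, hY⟩ := Y.bd
  have h1 := h_celm_le Y (fun _ => 0) β h0 La (fun k => L k + L k) (hL.add hL) (by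
    filter_upwards [hY] with k hk ω ω' a b _ _ i
    rw [S.dl_zero, mul_one]
    refine (abs_sub _ _).trans (add_le_add (hk ω a i) (hk ω' b i))) (ε / 2) (by linarith)
  have h2 : PLe (fun k => fc (Setoid.ker (celm x (fun _ => r) k))) (fun k => fc (La k ⊓ Setoid.ker (celm Y β k))) :=
    PLe_celm_typ x (fun _ => r) (fun k => La k ⊓ Setoid.ker (celm Y β k)) hE hK (by
      filter_upwards [hfn] with k hk ω ω' a b c d e1 e2
      exact hk ω ω' a b c d.1 d.2 e1 e2)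
  have h3 := (Metric.tendsto_nhds.mp h2) (ε / 4) (by linarith)
  have h4 := (Metric.tendsto_nhds.mp ent) (ε / 4) (by linarith)
  filter_upwards [h1, h3, h4] with k a1 a2 a3
  have hn := (S.F k).pos
  rw [Real.dist_eq] at a2 a3 ⊢
  rw [sub_zero, celm_const] at a2
  have b1 : h (fc (Setoid.ker (x.cellv r k))) (fc (La k)) ≤ h (fc (Setoid.ker (celm Y β k))) (fc (La k)) +
      h (fc (Setoid.ker (x.cellv r k))) (fc (La k ⊓ Setoid.ker (celm Y β k))) := by
    rw [fc_inf]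
    have b2 := h_triangle (fc (Setoid.ker (x.cellv r k))) (fc (Setoid.ker (celm Y β k))) (fc (La k))
    rw [sup_comm (fc (La k))]
    linarith
  have b3 : h (fc (Setoid.ker (x.cellv r k))) (fc (La k)) / (S.F k).n ≤
      h (fc (Setoid.ker (celm Y β k))) (fc (La k)) / (S.F k).n +
      h (fc (Setoid.ker (x.cellv r k))) (fc (La k ⊓ Setoid.ker (celm Y β k))) / (S.F k).n := by
    rw [← add_div]
    exact div_le_div_of_nonneg_right b1 hn.le
  have b4 := (abs_lt.mp a2).2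
  have b5 := abs_lt.mp a3
  simp only [sub_zero] at a1
  rw [abs_lt]
  constructor <;> linarith [b5.1, b5.2]

/-- fullness does not see what is known -/
theorem tendsto_join {A B C : ∀ k, FL (S.F k)} {v : ℝ} (h1 : Tendsto (fun k => h (A k) (B k) / (S.F k).n) UF (𝓝 v))
    (h2 : Tendsto (fun k => h (C k) (B k) / (S.F k).n) UF (𝓝 0)) :
    Tendsto (fun k => h (A k) (B k ⊔ C k) / (S.F k).n) UF (𝓝 v) := by
  have h3 := h1.sub h2
  rw [sub_zero] at h3
  refine tendsto_of_tendsto_of_tendsto_of_le_of_le h3 h1 (fun k => ?_) (fun k => ?_)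
  · show h (A k) (B k) / (S.F k).n - h (C k) (B k) / (S.F k).n ≤ h (A k) (B k ⊔ C k) / (S.F k).n
    rw [← sub_div]
    apply div_le_div_of_nonneg_right _ (S.F k).pos.le
    have h4 := h_triangle (A k) (C k) (B k)
    rw [sup_comm (B k)]
    linarith
  · exact div_le_div_of_nonneg_right (h_anti le_sup_left) (S.F k).pos.le

/-- constants from bounds with every exponential loss -/
theorem exists_sub_of_eta {Pr : ℕ → ℝ → Prop} (mono : ∀ k B B', B ≤ B' → Pr k B → Pr k B')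
    (hh : ∀ η : ℝ, 0 < η → ∀ᶠ k in UF, Pr k (2 ^ (η * (S.F k).n))) :
    ∃ B : ℕ → ℝ, S.Sub B ∧ (∀ k, 1 ≤ B k) ∧ ∀ᶠ k in UF, Pr k (B k) := by
  obtain ⟨g, hg⟩ : ∃ g : ℕ → ℝ, g = fun k => sInf {η : ℝ | 0 ≤ η ∧ Pr k (2 ^ (η * (S.F k).n))} := ⟨_, rfl⟩
  have hbdd : ∀ k, BddBelow {η : ℝ | 0 ≤ η ∧ Pr k (2 ^ (η * (S.F k).n))} := fun k => ⟨0, fun η hη => hη.1⟩
  have hg0 : ∀ k, 0 ≤ g k := fun k => by
    rw [hg]
    exact Real.sInf_nonneg fun η hη => hη.1
  have hgt : Tendsto g UF (𝓝 0) := by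
    rw [Metric.tendsto_nhds]
    intro ε hε
    filter_upwards [hh (ε / 2) (by linarith)] with k hk
    have h1 : g k ≤ ε / 2 := by
      rw [hg]
      exact csInf_le (hbdd k) ⟨by linarith, hk⟩
    rw [Real.dist_eq, sub_zero, abs_of_nonneg (hg0 k)]
    linarith
  have hn1 := S.div_n_tendsto 1
  refine ⟨fun k => 2 ^ ((g k + 1 / (S.F k).n) * (S.F k).n), ⟨Eventually.of_forall fun k => by positivity, ?_⟩,
    fun k => ?_, ?_⟩
  · have h1 : Tendsto (fun k => (g k + 1 / (S.F k).n) + 2 / (S.F k).n) UF (𝓝 ((0 + 0) + 0)) :=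
      (hgt.add hn1).add (S.div_n_tendsto 2)
    rw [add_zero, add_zero] at h1
    refine squeeze_zero (fun k => ?_) (fun k => ?_) h1
    · apply div_nonneg _ (S.F k).pos.le
      apply Real.logb_nonneg (by norm_num)
      have : (0 : ℝ) ≤ 2 ^ ((g k + 1 / (S.F k).n) * (S.F k).n) := by positivity
      linarith
    · have hn := (S.F k).pos
      have h2 : (1 : ℝ) ≤ 2 ^ ((g k + 1 / (S.F k).n) * (S.F k).n) := by
        apply Real.one_le_rpow (by norm_num)
        have := hg0 k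
        positivity
      have h4 : ∀ X : ℝ, (1 : ℝ) ≤ 2 ^ X → Real.logb 2 (2 ^ X + 2) ≤ X + 2 := by
        intro X hX
        calc Real.logb 2 (2 ^ X + 2) ≤ Real.logb 2 (2 ^ (X + 2)) := by
              apply Real.logb_le_logb_of_le (by norm_num) (by positivity)
              rw [Real.rpow_add (by norm_num)]
              norm_num
              linarith
          _ = _ := Real.logb_rpow (by norm_num) (by norm_num)
      have h3 := h4 _ h2
      rw [div_le_iff₀ hn]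
      refine h3.trans (le_of_eq ?_)
      field_simp
  · apply Real.one_le_rpow (by norm_num)
    have h1 := hg0 k
    have h2 := (S.F k).pos
    positivity
  · filter_upwards [hh 1 one_pos] with k hk
    have hn := (S.F k).pos
    have h1 : sInf {η : ℝ | 0 ≤ η ∧ Pr k (2 ^ (η * (S.F k).n))} < g k + 1 / (S.F k).n := by
      rw [hg]
      have : 0 < 1 / (S.F k).n := by positivity
      linarith
    have h0 : Set.Nonempty {η : ℝ | 0 ≤ η ∧ Pr k (2 ^ (η * (S.F k).n))} := ⟨1, zero_le_one, hk⟩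
    obtain ⟨η, hη, h2⟩ := exists_lt_of_csInf_lt h0 h1
    refine mono k _ _ ?_ hη.2
    apply Real.rpow_le_rpow_of_exponent_le (by norm_num)
    exact mul_le_mul_of_nonneg_right h2.le hn.le

end

end Pool.Agent.Helper63.FRT
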