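import Pool.Agent.Helper85.FRM.St
import Pool.Agent.Helper63.FRT.Tyc
import Pool.Agent.Helper63.FRT.Pol

/-! INPJ: from exact frames of the layers `< j` on a grid of windows and rows of the layer `j` to the input of the layer
step (local graphs and nesting). -/

set_option autoImplicit false

namespace Pool.Agent.Helper63.FRT

open Finset Filter Topology Pool.Agent.Helper69.RK Pool.Agent.Helper31.EC Pool.Agent.Helper31.EC.Sp
open Pool.Agent.Helper40.EL Pool.Agent.Helper89.LX Pool.Agent.Helper3.LF Pool.Agent.Helper84.MT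
open Pool.Agent.Helper85.FRM (Fr tr co trg Sta Inp Knw Det pre INPJ N maj tr_WD tr_vars co_eq co_tr tr_congr WD rec'
  tr_eq)

noncomputable section

/-! ### truncation -/

/-- truncation to `[-B, B]` -/
def clp (B t : ℝ) : ℝ := max (-B) (min B t)

theorem clp_le {B : ℝ} (hB : 0 ≤ B) (t : ℝ) : |clp B t| ≤ B := by
  unfold clp
  rw [abs_le]
  exact ⟨le_max_left _ _, max_le (by linarith) (min_le_left _ _)⟩

theorem clp_eq {B t : ℝ} (h : |t| ≤ B) : clp B t = t := by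
  unfold clp
  rw [abs_le] at h
  rw [min_eq_right h.2, max_eq_right h.1]

variable {S : Sp} {M : ℕ}

/-! ### the scale -/

theorem q_one (S : Sp) (k : ℕ) : (1 : ℝ) ≤ 2 ^ (S.F k).n := Real.one_le_rpow (by norm_num) (S.F k).pos.le

theorem q_dl (S : Sp) (k : ℕ) (r : ℝ) : ((2 : ℝ) ^ (S.F k).n) ^ (-r) = S.dl r k := by
  unfold Sp.dl
  rw [← Real.rpow_mul (by norm_num)]
  congr 1
  ring

theorem q_dl' (S : Sp) (k : ℕ) (r : ℝ) : ((2 : ℝ) ^ (S.F k).n) ^ r = S.dl (-r) k := by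
  rw [← q_dl, neg_neg]

/-- the first coordinates of the point -/
def ptj (Q : S.VV M) (j : Fin M) : S.VV j.val where
  v := fun k ω l => Q.v k ω (emb j l)
  bd := by
    obtain ⟨K, hK, h1⟩ := Q.bd
    exact ⟨K, hK, by
      filter_upwards [h1] with k hk ω hω l
      exact hk ω hω _⟩

/-- the levels -/
def be (w : Fin M → ℝ) (sg : ℕ → ℝ) (j : Fin M) (i : ℕ) : Fin j.val → ℝ := fun l => 1 - w (emb j l) * sg i

/-- transitions in the first variables -/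
def trd (w : Fin M → ℝ) (sg : ℕ → ℝ) (j : Fin M) (P : ℕ → ∀ k, (S.F k).Ω → Fin M → MvPolynomial (Fin M) ℝ)
    (i k : ℕ) (ω : (S.F k).Ω) : Fin j.val → MvPolynomial (Fin j.val) ℝ := fun l =>
  dn j (trg (2 ^ (S.F k).n) w sg (fun i => P i k ω) i (i + 1) (emb j l))

/-- increments in the first variables -/
def incd (w : Fin M → ℝ) (sg : ℕ → ℝ) (j : Fin M) (P : ℕ → ∀ k, (S.F k).Ω → Fin M → MvPolynomial (Fin M) ℝ)
    (G : ℕ → ∀ k, (S.F k).Ω → MvPolynomial (Fin j.val) ℝ) (i k : ℕ) (ω : (S.F k).Ω) :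
    MvPolynomial (Fin j.val) ℝ := G (i + 1) k ω - MvPolynomial.bind₁ (trd w sg j P i k ω) (G i k ω)

/-! ### data -/

/-- exact frames of the layers `< j` at the windows `sg i`, with a tame bound -/
structure DI (S : Sp) (w : Fin M → ℝ) (d m : ℕ) (sg : ℕ → ℝ) (j : Fin M) (ε : ℝ) (Q : S.VV M)
    (V : ℕ → ∀ k, Setoid (S.F k).Ω) (P : ℕ → ∀ k, (S.F k).Ω → Fin M → MvPolynomial (Fin M) ℝ)
    (A : ∀ k, (S.F k).Ω → Prop) (B : ℕ → ℝ) : Prop where
  hw : ∀ l, 1 ≤ w l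
  hd : ∀ l, w l ≤ d
  s0 : sg 0 = 0
  mono : Monotone sg
  eps : 0 < ε
  top : ∀ l, w l * sg m + ε < 1
  anti : ∀ i k, V (i + 1) k ≤ V i k
  fr : ∀ i k ω, Fr w j.val (P i k ω)
  kn : ∀ i, i ≤ m → Knw S (V i) (P i)
  typ : S.Typ A
  sB : S.Sub B
  B1 : ∀ k, 1 ≤ B k
  sta : ∀ᶠ k in UF, ∀ ω, (S.F k).μ ω ≠ 0 → A k ω →
    Sta (2 ^ (S.F k).n) w sg m j.val (B k) (fun i => P i k ω) (Q.v k ω)
  num : ∀ i, 1 ≤ i → i ≤ m → Tendsto (fun k => h (pre Q j.val k) (fc (V i k)) / (S.F k).n) UF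
    (𝓝 (∑ l : Fin M, if l < j then 1 - w l * sg i else 0))

namespace DI

variable {w : Fin M → ℝ} {d m : ℕ} {sg : ℕ → ℝ} {j : Fin M} {ε : ℝ} {Q : S.VV M}
  {V : ℕ → ∀ k, Setoid (S.F k).Ω} {P : ℕ → ∀ k, (S.F k).Ω → Fin M → MvPolynomial (Fin M) ℝ}
  {A : ∀ k, (S.F k).Ω → Prop} {B : ℕ → ℝ} (D : DI S w d m sg j ε Q V P A B)

include D

theorem degP (i k : ℕ) (ω : (S.F k).Ω) (l : Fin M) (hl : l.val < j.val) : (P i k ω l).totalDegree ≤ d :=
  deg_le_of_wd D.hw (D.hd l) fun a ha => ((D.fr i k ω).wd l hl a ha).le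

theorem degT (i i' k : ℕ) (ω : (S.F k).Ω) (l : Fin M) (hl : l.val < j.val) :
    (trg (2 ^ (S.F k).n) w sg (fun i => P i k ω) i i' l).totalDegree ≤ d :=
  deg_le_of_wd D.hw (D.hd l) (tr_WD (sg i) (sg i') (D.fr i k ω) (D.fr i' k ω) l hl)

/-- the coordinates of the first layers at the window `sg i`, truncated -/
def Y (i : ℕ) : S.VV j.val where
  v := fun k ω l => clp (B k) (co (2 ^ (S.F k).n) w (sg i) (P i k ω) (Q.v k ω) (emb j l))
  bd := ⟨B, D.sB, by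
    filter_upwards [D.sB.1] with k hk ω _ l
    exact clp_le hk _⟩

theorem Y_eq : ∀ᶠ k in UF, ∀ ω, (S.F k).μ ω ≠ 0 → A k ω → ∀ i, i ≤ m → ∀ l,
    (D.Y i).v k ω l = co (2 ^ (S.F k).n) w (sg i) (P i k ω) (Q.v k ω) (emb j l) := by
  filter_upwards [D.sta] with k hk ω hω hA i hi l
  exact clp_eq ((hk ω hω hA).yn i hi (emb j l) (emb_lt j l))

theorem sg_le {i : ℕ} (hi : i ≤ m) (l : Fin M) : w l * sg i ≤ w l * sg m :=
  mul_le_mul_of_nonneg_left (D.mono hi) (by linarith [D.hw l])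

theorem sg_nonneg (i : ℕ) : 0 ≤ sg i := by
  rw [← D.s0]
  exact D.mono (Nat.zero_le i)

theorem be_gt {i : ℕ} (hi : i ≤ m) (l : Fin j.val) : ε < be w sg j i l := by
  have h1 := D.sg_le hi (emb j l)
  have h2 := D.top (emb j l)
  unfold be
  linarith

omit D in
theorem sum_emb (f : Fin M → ℝ) : (∑ l : Fin M, if l < j then f l else 0) = ∑ l : Fin j.val, f (emb j l) := by
  classical
  rw [← Finset.sum_filter]
  symm
  apply Finset.sum_bij (fun (l : Fin j.val) _ => emb j l)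
  · intro l _
    exact Finset.mem_filter.mpr ⟨Finset.mem_univ _, emb_lt j l⟩
  · intro a _ b _ h
    exact emb_inj j h
  · intro l hl
    exact ⟨⟨l.val, (Finset.mem_filter.mp hl).2⟩, Finset.mem_univ _, rfl⟩
  · intro l _
    rfl

theorem ent {i : ℕ} (h1 : 1 ≤ i) (hi : i ≤ m) :
    Tendsto (fun k => h (fc (Setoid.ker ((ptj Q j).cellv 1 k))) (fc (V i k)) / (S.F k).n) UF
      (𝓝 (∑ l, be w sg j i l)) := by
  have h2 := D.num i h1 hi
  rw [sum_emb (fun l => 1 - w l * sg i)] at h2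
  refine h2.congr fun k => ?_
  have h3 : (Setoid.ker fun ω (i : Fin M) => if i.val < j.val then Q.cellv 1 k ω i else 0) =
      Setoid.ker ((ptj Q j).cellv 1 k) := by
    ext ω ω'
    constructor
    · intro h4
      have h5 : (fun (i : Fin M) => if i.val < j.val then Q.cellv 1 k ω i else 0) =
        fun (i : Fin M) => if i.val < j.val then Q.cellv 1 k ω' i else 0 := h4
      funext l
      have h6 := congrFun h5 (emb j l)
      have h7 : (emb j l).val < j.val := emb_lt j l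
      have h8 : (if (emb j l).val < j.val then Q.cellv 1 k ω (emb j l) else 0) =
        if (emb j l).val < j.val then Q.cellv 1 k ω' (emb j l) else 0 := h6
      rw [if_pos h7, if_pos h7] at h8
      exact h8
    · intro h4
      show (fun (i : Fin M) => if i.val < j.val then Q.cellv 1 k ω i else 0) =
        fun (i : Fin M) => if i.val < j.val then Q.cellv 1 k ω' i else 0
      funext l
      by_cases h7 : l.val < j.val
      · rw [if_pos h7, if_pos h7]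
        exact congrFun (show (ptj Q j).cellv 1 k ω = (ptj Q j).cellv 1 k ω' from h4) ⟨l.val, h7⟩
      · rw [if_neg h7, if_neg h7]
  show h (fc (Setoid.ker fun ω (i : Fin M) => if i.val < j.val then Q.cellv 1 k ω i else 0)) (fc (V i k)) /
    (S.F k).n = _
  rw [h3]

/-- FULLNESS of the coordinates over the label -/
theorem full {i : ℕ} (h1 : 1 ≤ i) (hi : i ≤ m) :
    Tendsto (fun k => h (fc (Setoid.ker (celm (D.Y i) (be w sg j i) k))) (fc (V i k)) / (S.F k).n) UF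
      (𝓝 (∑ l, be w sg j i l)) := by
  have hK : S.Sub (fun k => B k * (d * B k ^ d) + 1) :=
    (D.sB.mul ((S.Sub_const (Nat.cast_nonneg d)).mul (Sub_pow' D.sB d))).add (S.Sub_const zero_le_one)
  refine full_of_chart_typ (D.Y i) (ptj Q j) 1 (V i) (be w sg j i) (fun l => by linarith [D.be_gt hi l, D.eps])
    (D.ent h1 hi) D.typ _ hK ?_
  filter_upwards [D.Y_eq, D.sta, D.kn i hi] with k hY hS hkn ω ω' hω hω' hZ hV hc hA hA' l
  have hq := q_one S k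
  have hq0 : (0 : ℝ) < 2 ^ (S.F k).n := by linarith
  have hB := D.B1 k
  have hP := hkn ω ω' hω hω' hZ hV
  have hyn : ∀ a : Fin M, a.val < j.val → |co (2 ^ (S.F k).n) w (sg i) (P i k ω) (Q.v k ω) a| ≤ B k :=
    fun a ha => (hS ω hω hA).yn i hi a ha
  have hyn' : ∀ a : Fin M, a.val < j.val → |co (2 ^ (S.F k).n) w (sg i) (P i k ω') (Q.v k ω') a| ≤ B k :=
    fun a ha => (hS ω' hω' hA').yn i hi a ha
  have hclose : ∀ a : Fin M, a.val < j.val → |co (2 ^ (S.F k).n) w (sg i) (P i k ω) (Q.v k ω) a -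
      co (2 ^ (S.F k).n) w (sg i) (P i k ω') (Q.v k ω') a| ≤ S.dl (1 - w a * sg i) k := by
    intro a ha
    have h2 := hY ω hω hA i hi ⟨a.val, ha⟩
    have h3 := hY ω' hω' hA' i hi ⟨a.val, ha⟩
    have e1 : emb j ⟨a.val, ha⟩ = a := rfl
    rw [e1] at h2 h3
    rw [← h2, ← h3]
    have h4 := congrFun hc ⟨a.val, ha⟩
    exact abs_sub_le_of_floor_eq (S.dl_pos _ _) h4
  have hpn : maj (fun a => (2 ^ (S.F k).n) ^ (sg i * w a)) (P i k ω (emb j l)) ≤ B k :=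
    (hS ω hω hA).pn i hi (emb j l) (emb_lt j l)
  have hvars := (D.fr i k ω).vars (emb j l) (emb_lt j l)
  have hlt : ∀ a ∈ (P i k ω (emb j l)).vars, a.val < j.val := fun a ha => (hvars a ha).trans (emb_lt j l)
  have hs0 : ∀ a : Fin M, S.dl (1 - w a * sg i) k = S.dl 1 k * (2 ^ (S.F k).n) ^ (sg i * w a) := by
    intro a
    rw [q_dl', ← S.dl_add]
    congr 1
    ring
  have hv1 : ∀ a : Fin M, (1 : ℝ) ≤ (2 ^ (S.F k).n) ^ (sg i * w a) := fun a =>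
    Real.one_le_rpow hq (mul_nonneg (D.sg_nonneg i) (by linarith [D.hw a]))
  have h6 := lip_maj (P i k ω (emb j l)) (v := fun a => (2 ^ (S.F k).n) ^ (sg i * w a))
    (fun a => Real.rpow_pos_of_pos hq0 _) (T := B k) (δ := S.dl 1 k) hB (S.dl_pos 1 k).le
    (D.degP i k ω (emb j l) (emb_lt j l)) (x := co (2 ^ (S.F k).n) w (sg i) (P i k ω) (Q.v k ω))
    (y := co (2 ^ (S.F k).n) w (sg i) (P i k ω') (Q.v k ω'))
    (fun a ha => (hyn a (hlt a ha)).trans (le_mul_of_one_le_right (by linarith) (hv1 a)))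
    (fun a ha => (hyn' a (hlt a ha)).trans (le_mul_of_one_le_right (by linarith) (hv1 a)))
    (fun a ha => by
      rw [← hs0]
      exact hclose a (hlt a ha))
  have hd1 := S.dl_pos 1 k
  have h7 : maj (fun a => (2 ^ (S.F k).n) ^ (sg i * w a)) (P i k ω (emb j l)) * (d * B k ^ d * S.dl 1 k) ≤
      B k * (d * B k ^ d * S.dl 1 k) := mul_le_mul_of_nonneg_right hpn (by positivity)
  have e2 : ∀ ω : (S.F k).Ω, Q.v k ω (emb j l) = MvPolynomial.eval (co (2 ^ (S.F k).n) w (sg i) (P i k ω) (Q.v k ω))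
      (P i k ω (emb j l)) + S.dl (w (emb j l) * sg i) k * co (2 ^ (S.F k).n) w (sg i) (P i k ω) (Q.v k ω) (emb j l) := by
    intro ω
    have h8 := co_eq (q := 2 ^ (S.F k).n) (w := w) (sg i) (Q.v k ω) ((D.fr i k ω).vars (emb j l) (emb_lt j l))
    have h9 : S.dl (w (emb j l) * sg i) k * (2 ^ (S.F k).n) ^ (w (emb j l) * sg i) = 1 := by
      rw [q_dl', ← S.dl_add, add_neg_cancel, S.dl_zero]
    calc Q.v k ω (emb j l) = MvPolynomial.eval (co (2 ^ (S.F k).n) w (sg i) (P i k ω) (Q.v k ω)) (P i k ω (emb j l)) +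
          (S.dl (w (emb j l) * sg i) k * (2 ^ (S.F k).n) ^ (w (emb j l) * sg i)) * (Q.v k ω (emb j l) -
          MvPolynomial.eval (co (2 ^ (S.F k).n) w (sg i) (P i k ω) (Q.v k ω)) (P i k ω (emb j l))) := by
            rw [h9]
            ring
      _ = _ := by
            rw [mul_assoc, ← h8]
  show |Q.v k ω (emb j l) - Q.v k ω' (emb j l)| ≤ _
  rw [e2 ω, e2 ω', ← hP]
  rw [← hP] at h6
  have h10 := hclose (emb j l) (emb_lt j l)
  rw [← hP] at h10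
  have h11 : S.dl (w (emb j l) * sg i) k * S.dl (1 - w (emb j l) * sg i) k = S.dl 1 k := by
    rw [← S.dl_add]
    congr 1
    ring
  have h12 : |S.dl (w (emb j l) * sg i) k * (co (2 ^ (S.F k).n) w (sg i) (P i k ω) (Q.v k ω) (emb j l) -
      co (2 ^ (S.F k).n) w (sg i) (P i k ω) (Q.v k ω') (emb j l))| ≤ S.dl 1 k := by
    rw [abs_mul, abs_of_pos (S.dl_pos _ _), ← h11]
    exact mul_le_mul_of_nonneg_left h10 (S.dl_pos _ _).le
  rw [mul_sub] at h12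
  rw [add_sub_add_comm]
  refine (abs_add_le _ _).trans ?_
  linarith

/-- CLOSENESS of the coordinates of a window from those of the next window -/
theorem cls {i : ℕ} (hi : i < m) : ∃ K : ℕ → ℝ, S.Sub K ∧ ∀ᶠ k in UF, ∀ ω ω', (S.F k).μ ω ≠ 0 →
    (S.F k).μ ω' ≠ 0 → A k ω → A k ω' → (S.F k).Z ω ω' → V (i + 1) k ω ω' →
    celm (D.Y (i + 1)) (fun _ => ε) k ω = celm (D.Y (i + 1)) (fun _ => ε) k ω' →
      ∀ l : Fin M, l < j → |co (2 ^ (S.F k).n) w (sg i) (P i k ω) (Q.v k ω) l -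
        co (2 ^ (S.F k).n) w (sg i) (P i k ω') (Q.v k ω') l| ≤ K k * S.dl ε k := by
  have hK : S.Sub (fun k => B k * (d * B k ^ d)) :=
    D.sB.mul ((S.Sub_const (Nat.cast_nonneg d)).mul (Sub_pow' D.sB d))
  refine ⟨_, hK, ?_⟩
  filter_upwards [D.Y_eq, D.sta, D.kn i hi.le, D.kn (i + 1) hi] with k hY hS hkn hkn' ω ω' hω hω' hA hA' hZ hV hc l hl
  have hq := q_one S k
  have hq0 : (0 : ℝ) < 2 ^ (S.F k).n := by linarith
  have hB := D.B1 k
  have hP' := hkn' ω ω' hω hω' hZ hV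
  have hP := hkn ω ω' hω hω' hZ (D.anti i k hV)
  have hyn : ∀ a : Fin M, a.val < j.val → |co (2 ^ (S.F k).n) w (sg (i + 1)) (P (i + 1) k ω) (Q.v k ω) a| ≤ B k :=
    fun a ha => (hS ω hω hA).yn (i + 1) hi a ha
  have hyn' : ∀ a : Fin M, a.val < j.val → |co (2 ^ (S.F k).n) w (sg (i + 1)) (P (i + 1) k ω') (Q.v k ω') a| ≤ B k :=
    fun a ha => (hS ω' hω' hA').yn (i + 1) hi a ha
  have hclose : ∀ a : Fin M, a.val < j.val → |co (2 ^ (S.F k).n) w (sg (i + 1)) (P (i + 1) k ω) (Q.v k ω) a -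
      co (2 ^ (S.F k).n) w (sg (i + 1)) (P (i + 1) k ω') (Q.v k ω') a| ≤ S.dl ε k := by
    intro a ha
    have h2 := hY ω hω hA (i + 1) hi ⟨a.val, ha⟩
    have h3 := hY ω' hω' hA' (i + 1) hi ⟨a.val, ha⟩
    have e1 : emb j ⟨a.val, ha⟩ = a := rfl
    rw [e1] at h2 h3
    rw [← h2, ← h3]
    have h4 := congrFun hc ⟨a.val, ha⟩
    exact abs_sub_le_of_floor_eq (S.dl_pos _ _) h4
  have hs1 : 0 ≤ sg (i + 1) - sg i := sub_nonneg.mpr (D.mono (Nat.le_succ i))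
  have hv1 : ∀ a : Fin M, (1 : ℝ) ≤ (2 ^ (S.F k).n) ^ ((sg (i + 1) - sg i) * w a) := fun a =>
    Real.one_le_rpow hq (mul_nonneg hs1 (by linarith [D.hw a]))
  have htn : maj (fun a => (2 ^ (S.F k).n) ^ ((sg (i + 1) - sg i) * w a))
      (tr (2 ^ (S.F k).n) w (sg i) (sg (i + 1)) (P i k ω) (P (i + 1) k ω) l) ≤ B k :=
    (hS ω hω hA).tn i (i + 1) (Nat.le_succ i) hi l hl
  have hvars := tr_vars (q := 2 ^ (S.F k).n) (sg i) (sg (i + 1)) (D.fr i k ω) (D.fr (i + 1) k ω) l hl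
  have hlt : ∀ a ∈ (tr (2 ^ (S.F k).n) w (sg i) (sg (i + 1)) (P i k ω) (P (i + 1) k ω) l).vars, a.val < j.val :=
    fun a ha => lt_of_le_of_lt (hvars a ha) hl
  have hd1 := S.dl_pos ε k
  have h6 := lip_maj (tr (2 ^ (S.F k).n) w (sg i) (sg (i + 1)) (P i k ω) (P (i + 1) k ω) l)
    (v := fun a => (2 ^ (S.F k).n) ^ ((sg (i + 1) - sg i) * w a))
    (fun a => Real.rpow_pos_of_pos hq0 _) (T := B k) (δ := S.dl ε k) hB hd1.le
    (D.degT i (i + 1) k ω l hl) (x := co (2 ^ (S.F k).n) w (sg (i + 1)) (P (i + 1) k ω) (Q.v k ω))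
    (y := co (2 ^ (S.F k).n) w (sg (i + 1)) (P (i + 1) k ω') (Q.v k ω'))
    (fun a ha => (hyn a (hlt a ha)).trans (le_mul_of_one_le_right (by linarith) (hv1 a)))
    (fun a ha => (hyn' a (hlt a ha)).trans (le_mul_of_one_le_right (by linarith) (hv1 a)))
    (fun a ha => (hclose a (hlt a ha)).trans (le_mul_of_one_le_right hd1.le (hv1 a)))
  rw [co_tr hq (sg i) (sg (i + 1)) (D.fr i k ω) (D.fr (i + 1) k ω) (Q.v k ω) l hl] at h6
  have h8 : MvPolynomial.eval (co (2 ^ (S.F k).n) w (sg (i + 1)) (P (i + 1) k ω') (Q.v k ω'))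
      (tr (2 ^ (S.F k).n) w (sg i) (sg (i + 1)) (P i k ω) (P (i + 1) k ω) l) =
      co (2 ^ (S.F k).n) w (sg i) (P i k ω') (Q.v k ω') l := by
    rw [hP, hP']
    exact co_tr hq (sg i) (sg (i + 1)) (D.fr i k ω') (D.fr (i + 1) k ω') (Q.v k ω') l hl
  rw [h8] at h6
  refine h6.trans ?_
  have h7 := mul_le_mul_of_nonneg_right htn (show (0 : ℝ) ≤ d * B k ^ d * S.dl ε k by positivity)
  refine h7.trans (le_of_eq ?_)
  ring

/-- the known part at the window `sg i`: the grid cell of the coordinates and an index -/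
def Wp (i : ℕ) {N : ℕ} (idx : ∀ k, (S.F k).Ω → Option (Fin N)) : ∀ k, Setoid (S.F k).Ω :=
  fun k => Setoid.ker (gcell (D.Y i) ε k) ⊓ Setoid.ker (idx k)

theorem det {i : ℕ} (hi : i ≤ m) {N : ℕ} (idx : ∀ k, (S.F k).Ω → Option (Fin N)) :
    Det (V i) (D.Wp i idx) (fun k ω => co (2 ^ (S.F k).n) w (sg i) (P i k ω) (Q.v k ω)) j ε := by
  intro C hC
  obtain ⟨K, A', hK, hA', hh⟩ := hC
  have h1 : PLe (fun k => fc (Setoid.ker (gcell (D.Y i) ε k))) (fun k => fc (V i k ⊓ C k)) := by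
    refine PLe_gcell_typ (D.Y i) D.eps.le (fun k => V i k ⊓ C k) (D.typ.and hA') hK ?_
    filter_upwards [hh, D.Y_eq] with k hk hY ω ω' hω hω' hZ hV hA hA2 l
    rw [hY ω hω hA.1 i hi l, hY ω' hω' hA2.1 i hi l]
    exact hk ω ω' hω hω' hA.2 hA2.2 hZ hV.1 hV.2 (emb j l) (emb_lt j l)
  have h2 : PLe (fun k => fc (Setoid.ker (idx k))) (fun k => fc (V i k ⊓ C k)) := fin_PLe idx _
  have e1 : (fun k => (fc (D.Wp i idx k) : FL (S.F k))) = fun k => fc (Setoid.ker (gcell (D.Y i) ε k)) ⊔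
      fc (Setoid.ker (idx k)) := by
    funext k
    exact fc_inf _ _
  have h3 : PLe (fun k => fc (D.Wp i idx k)) (fun k => fc (V i k ⊓ C k)) := by
    rw [e1]
    exact PLe.sup_le h1 h2
  exact h3

theorem Y_lit (i : ℕ) {k : ℕ} {ω ω' : (S.F k).Ω} (hQ : Q.v k ω = Q.v k ω') (hP : P i k ω = P i k ω') :
    (D.Y i).v k ω = (D.Y i).v k ω' := by
  funext l
  show clp (B k) (co (2 ^ (S.F k).n) w (sg i) (P i k ω) (Q.v k ω) (emb j l)) =
    clp (B k) (co (2 ^ (S.F k).n) w (sg i) (P i k ω') (Q.v k ω') (emb j l))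
  rw [hQ, hP]

theorem gcell_lit {i k : ℕ} {ω ω' : (S.F k).Ω} (h : (D.Y i).v k ω = (D.Y i).v k ω') :
    gcell (D.Y i) ε k ω = gcell (D.Y i) ε k ω' := by
  funext l
  show ⌊ngr S ε k * (D.Y i).v k ω l⌋ = ⌊ngr S ε k * (D.Y i).v k ω' l⌋
  rw [h]

/-- LOCAL GRAPHS at the window `sg i` -/
theorem lg {Dg : ℕ} {p : ∀ k, (S.F k).Ω → MvPolynomial (Fin M) ℝ} (hdeg : ∀ k ω, (p k ω).totalDegree ≤ Dg)
    (hvars : ∀ k ω, ∀ a ∈ (p k ω).vars, a ≤ j) {i : ℕ} (h1 : 1 ≤ i) (hi : i ≤ m) (hkn : Knw S (V i) p)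
    (hrow : ∃ K : ℕ → ℝ, S.Sub K ∧ S.Typ fun k ω => |MvPolynomial.eval (Q.v k ω) (p k ω)| ≤ K k ∧
      2 ^ (w j * sg i * (S.F k).n) ≤ K k * |MvPolynomial.eval (Q.v k ω) (MvPolynomial.pderiv j (p k ω))|) :
    ∃ (K1 N : ℕ) (idx : ∀ k, (S.F k).Ω → Option (Fin N)) (G : ∀ k, (S.F k).Ω → MvPolynomial (Fin j.val) ℝ)
      (K : ℕ → ℝ), (∀ k ω, (G k ω).totalDegree ≤ K1) ∧ Knw S (fun k => V i k ⊓ D.Wp i idx k) G ∧
      (∀ᶠ k in UF, ∀ ω ω', (S.F k).μ ω ≠ 0 → (S.F k).μ ω' ≠ 0 → (S.F k).Z ω ω' → V i k ω ω' →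
        Q.v k ω = Q.v k ω' → D.Wp i idx k ω ω') ∧ S.Sub K ∧
      S.Typ fun k ω => |Q.v k ω j - MvPolynomial.eval ((D.Y i).v k ω) (G k ω)| ≤ K k * S.dl (w j * sg i) k := by
  obtain ⟨Kq, hKq, hq⟩ := Q.bd
  obtain ⟨Kr, hKr, hr⟩ := hrow
  have hβ : ∀ l, ε ≤ be w sg j i l := fun l => (D.be_gt hi l).le
  obtain ⟨D', hD'⟩ : ∃ D' : ℕ, D' = Dg * (d + 1) + 1 := ⟨_, rfl⟩
  obtain ⟨K1, B1, idx, G, hB1, hG1, hG2, _, hG5, hG4⟩ := lgj' (D.Y i) (V i) (be w sg j i) D.eps hβ (D.full h1 hi)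
    (D := D') (by omega) (fun k ω => Q.v k ω j) (K0 := fun k => Kq k + 1)
    (hKq.add (S.Sub_const zero_le_one)) (by
      filter_upwards [hKq.1] with k hk
      linarith) (by
      filter_upwards [hq] with k hk ω hω
      linarith [hk ω hω j])
    (fun k ω => rowf (2 ^ (S.F k).n) w (sg i) j (P i k ω) (p k ω)) (Eventually.of_forall fun k ω _ =>
      (rowf_deg (sg i) (fun l hl => D.degP i k ω l hl) (hdeg k ω)).trans (by omega)) (by
      filter_upwards [D.kn i hi, hkn] with k h2 h3 ω ω' a b c e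
      rw [h2 ω ω' a b c e, h3 ω ω' a b c e]) (w j * sg i)
  refine ⟨K1, D' * D', idx, G, fun k => (D' : ℝ) * (Kr k * Kr k) + 1, hG1, ?_, ?_,
    ((S.Sub_const (Nat.cast_nonneg _)).mul (hKr.mul hKr)).add (S.Sub_const zero_le_one), ?_⟩
  · filter_upwards [hG2] with k hk ω ω' a b c e
    exact hk ω ω' a b c e.1 e.2.1 e.2.2
  · filter_upwards [D.kn i hi, hkn] with k h2 h3 ω ω' a b c e hQ
    have h4 := D.Y_lit i hQ (h2 ω ω' a b c e)
    refine ⟨D.gcell_lit h4, hG5 k ω ω' ?_ h4 ?_⟩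
    · show Q.v k ω j = Q.v k ω' j
      rw [hQ]
    · show rowf _ _ _ _ (P i k ω) (p k ω) = rowf _ _ _ _ (P i k ω') (p k ω')
      rw [h2 ω ω' a b c e, h3 ω ω' a b c e]
  · refine ((hG4.and hr).and D.typ).mono ?_
    filter_upwards [D.Y_eq, hKr.1] with k hY hKr0 ω hω hh
    obtain ⟨⟨h2, h3, h4⟩, h5⟩ := hh
    have hqq := q_one S k
    have hq0 : (0 : ℝ) < 2 ^ (S.F k).n := by linarith
    have h6 := hY ω hω h5 i hi
    have e1 := rowf_eval (q := 2 ^ (S.F k).n) hq0 (sg i) (D.fr i k ω) (Q.v k ω) ((D.Y i).v k ω) h6 (hvars k ω)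
    have e2 := rowf_pd (q := 2 ^ (S.F k).n) hq0 (sg i) (D.fr i k ω) (Q.v k ω) ((D.Y i).v k ω) h6 (hvars k ω)
    rw [e1, e2] at h2
    obtain ⟨g, hg⟩ : ∃ g, g = |MvPolynomial.eval (Q.v k ω) (MvPolynomial.pderiv j (p k ω))| := ⟨_, rfl⟩
    obtain ⟨t, ht⟩ : ∃ t, t = |Q.v k ω j - MvPolynomial.eval ((D.Y i).v k ω) (G k ω)| := ⟨_, rfl⟩
    obtain ⟨u, hu⟩ : ∃ u, u = |MvPolynomial.eval (Q.v k ω) (p k ω)| := ⟨_, rfl⟩
    obtain ⟨c, hc⟩ : ∃ c : ℝ, c = S.dl (w j * sg i) k := ⟨_, rfl⟩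
    have hc0 : 0 < c := by rw [hc]; exact S.dl_pos _ _
    have hc1 : (2 : ℝ) ^ (w j * sg i * (S.F k).n) = c⁻¹ := by
      rw [hc, dl_inv]
    rw [hc1, ← hg] at h4
    rw [← hg, ← ht, ← hu, ← hc] at h2
    rw [← hu] at h3
    rw [← ht, ← hc]
    have hg0 : 0 < g := by
      have h7 : 0 < Kr k * g := lt_of_lt_of_le (inv_pos.mpr hc0) h4
      have h8 : 0 ≤ g := by rw [hg]; exact abs_nonneg _
      rcases h8.lt_or_eq with h9 | h9
      · exact h9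
      · rw [← h9, mul_zero] at h7
        exact absurd h7 (lt_irrefl _)
    have h10 : 1 ≤ Kr k * g * c := by
      have := mul_le_mul_of_nonneg_right h4 hc0.le
      rwa [inv_mul_cancel₀ hc0.ne'] at this
    have hD0 : (0 : ℝ) ≤ (D' : ℝ) := Nat.cast_nonneg _
    have h11 : t * g ≤ (((D' : ℝ) * (Kr k * Kr k) + 1) * c) * g := by
      have h12 : (D' : ℝ) * u ≤ (D' : ℝ) * Kr k * 1 := by
        rw [mul_one]
        exact mul_le_mul_of_nonneg_left h3 hD0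
      have h13 : (D' : ℝ) * Kr k * 1 ≤ (D' : ℝ) * Kr k * (Kr k * g * c) :=
        mul_le_mul_of_nonneg_left h10 (mul_nonneg hD0 hKr0)
      calc t * g ≤ (D' : ℝ) * u + c * g := h2
        _ ≤ (D' : ℝ) * Kr k * (Kr k * g * c) + c * g := by linarith
        _ = _ := by ring
    exact le_of_mul_le_mul_right h11 hg0

/-- local graphs at all windows, zero at the window `0` -/
theorem lg_all {Dg : ℕ} {p : ℕ → ∀ k, (S.F k).Ω → MvPolynomial (Fin M) ℝ} (hdeg : ∀ i k ω, (p i k ω).totalDegree ≤ Dg)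
    (hvars : ∀ i k ω, ∀ a ∈ (p i k ω).vars, a ≤ j) (hkn : ∀ i, 1 ≤ i → i ≤ m → Knw S (V i) (p i))
    (hrow : ∀ i, 1 ≤ i → i ≤ m → ∃ K : ℕ → ℝ, S.Sub K ∧ S.Typ fun k ω =>
      |MvPolynomial.eval (Q.v k ω) (p i k ω)| ≤ K k ∧
      2 ^ (w j * sg i * (S.F k).n) ≤ K k * |MvPolynomial.eval (Q.v k ω) (MvPolynomial.pderiv j (p i k ω))|) (i : ℕ) :
    ∃ (K1 N : ℕ) (idx : ∀ k, (S.F k).Ω → Option (Fin N)) (G : ∀ k, (S.F k).Ω → MvPolynomial (Fin j.val) ℝ)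
      (K : ℕ → ℝ), (i = 0 → ∀ k ω, G k ω = 0) ∧ (i ≤ m →
      (∀ k ω, (G k ω).totalDegree ≤ K1) ∧ Knw S (fun k => V i k ⊓ D.Wp i idx k) G ∧
      (∀ᶠ k in UF, ∀ ω ω', (S.F k).μ ω ≠ 0 → (S.F k).μ ω' ≠ 0 → (S.F k).Z ω ω' → V i k ω ω' →
        Q.v k ω = Q.v k ω' → D.Wp i idx k ω ω') ∧ S.Sub K ∧
      S.Typ fun k ω => |Q.v k ω j - MvPolynomial.eval ((D.Y i).v k ω) (G k ω)| ≤ K k * S.dl (w j * sg i) k) := by
  by_cases hi : i ≤ m
  · rcases Nat.eq_zero_or_pos i with h0 | h0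
    · subst h0
      obtain ⟨Kq, hKq, hq⟩ := Q.bd
      refine ⟨0, 0, fun _ _ => none, fun _ _ => 0, Kq, fun _ _ _ => rfl, fun _ => ⟨fun k ω => ?_,
        Eventually.of_forall fun k ω ω' _ _ _ _ => rfl, ?_, hKq, (Typ_true (S := S)).mono ?_⟩⟩
      · rw [MvPolynomial.totalDegree_zero]
      · filter_upwards [D.kn 0 hi] with k h2 ω ω' a b c e hQ
        exact ⟨D.gcell_lit (D.Y_lit 0 hQ (h2 ω ω' a b c e)), rfl⟩
      · filter_upwards [hq] with k hk ω hω _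
        rw [map_zero, sub_zero, D.s0, mul_zero, S.dl_zero, mul_one]
        exact hk ω hω j
    · obtain ⟨K1, N, idx, G, K, h1, h2, h3, h4, h5⟩ := D.lg (hdeg i) (hvars i) h0 hi (hkn i h0 hi) (hrow i h0 hi)
      exact ⟨K1, N, idx, G, K, fun h => by omega, fun _ => ⟨h1, h2, h3, h4, h5⟩⟩
  · exact ⟨0, 0, fun _ _ => none, fun _ _ => 0, fun _ => 0, fun _ _ _ => rfl, fun h => absurd h hi⟩

theorem vars_trg (i k : ℕ) (ω : (S.F k).Ω) (l : Fin j.val) :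
    ∀ a ∈ (trg (2 ^ (S.F k).n) w sg (fun i => P i k ω) i (i + 1) (emb j l)).vars, a < j := fun a ha =>
  lt_of_le_of_lt (tr_vars (q := 2 ^ (S.F k).n) (sg i) (sg (i + 1)) (D.fr i k ω) (D.fr (i + 1) k ω) (emb j l)
    (emb_lt j l) a ha) (emb_lt j l)

theorem rename_incd (G : ℕ → ∀ k, (S.F k).Ω → MvPolynomial (Fin j.val) ℝ) (i k : ℕ) (ω : (S.F k).Ω) :
    MvPolynomial.rename (emb j) (incd w sg j P G i k ω) = Pool.Agent.Helper85.FRM.inc (trg (2 ^ (S.F k).n) w sg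
      (fun i => P i k ω)) (fun i => MvPolynomial.rename (emb j) (G i k ω)) i := by
  unfold incd Pool.Agent.Helper85.FRM.inc
  rw [map_sub, MvPolynomial.rename_bind₁, MvPolynomial.bind₁_rename]
  congr 3
  funext l
  exact rename_dn (D.vars_trg i k ω l)

theorem deg_incd {G : ℕ → ∀ k, (S.F k).Ω → MvPolynomial (Fin j.val) ℝ} {i k : ℕ} (ω : (S.F k).Ω) {a b : ℕ}
    (ha : (G (i + 1) k ω).totalDegree ≤ a) (hb : (G i k ω).totalDegree ≤ b) :
    (incd w sg j P G i k ω).totalDegree ≤ a + b * d := by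
  unfold incd
  refine (MvPolynomial.totalDegree_sub _ _).trans (max_le (ha.trans (Nat.le_add_right _ _)) ?_)
  refine (Pool.Agent.Helper77.WDG.totalDegree_bind_le hb _ fun l _ => ?_).trans (Nat.le_add_left _ _)
  exact (dn_deg j _).trans (D.degT i (i + 1) k ω (emb j l) (emb_lt j l))

theorem eval_incd (G : ℕ → ∀ k, (S.F k).Ω → MvPolynomial (Fin j.val) ℝ) {i k : ℕ} (ω : (S.F k).Ω)
    (h1 : ∀ l, (D.Y (i + 1)).v k ω l = co (2 ^ (S.F k).n) w (sg (i + 1)) (P (i + 1) k ω) (Q.v k ω) (emb j l))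
    (h0 : ∀ l, (D.Y i).v k ω l = co (2 ^ (S.F k).n) w (sg i) (P i k ω) (Q.v k ω) (emb j l)) :
    MvPolynomial.eval ((D.Y (i + 1)).v k ω) (incd w sg j P G i k ω) =
      MvPolynomial.eval ((D.Y (i + 1)).v k ω) (G (i + 1) k ω) - MvPolynomial.eval ((D.Y i).v k ω) (G i k ω) := by
  unfold incd
  rw [map_sub, eval_bind']
  congr 3
  funext l
  show MvPolynomial.eval ((D.Y (i + 1)).v k ω) (dn j (trg (2 ^ (S.F k).n) w sg (fun i => P i k ω) i (i + 1) (emb j l))) =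
    (D.Y i).v k ω l
  rw [eval_dn (D.vars_trg i k ω l) (co (2 ^ (S.F k).n) w (sg (i + 1)) (P (i + 1) k ω) (Q.v k ω)) _ h1, h0]
  exact co_tr (q_one S k) (sg i) (sg (i + 1)) (D.fr i k ω) (D.fr (i + 1) k ω) (Q.v k ω) (emb j l) (emb_lt j l)

/-- NESTING between consecutive windows -/
theorem nst {i : ℕ} (hi : i < m) {W W' : ∀ k, Setoid (S.F k).Ω}
    (hW : Det (V i) W (fun k ω => co (2 ^ (S.F k).n) w (sg i) (P i k ω) (Q.v k ω)) j ε)
    (hW' : Det (V (i + 1)) W' (fun k ω => co (2 ^ (S.F k).n) w (sg (i + 1)) (P (i + 1) k ω) (Q.v k ω)) j ε)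
    {G : ℕ → ∀ k, (S.F k).Ω → MvPolynomial (Fin j.val) ℝ} {a b : ℕ} (ha : ∀ k ω, (G (i + 1) k ω).totalDegree ≤ a)
    (hb : ∀ k ω, (G i k ω).totalDegree ≤ b) (hG : Knw S (fun k => V i k ⊓ W k) (G i))
    (hG' : Knw S (fun k => V (i + 1) k ⊓ W' k) (G (i + 1))) {K K' : ℕ → ℝ} (hK : S.Sub K) (hK' : S.Sub K')
    (hT : S.Typ fun k ω => |Q.v k ω j - MvPolynomial.eval ((D.Y i).v k ω) (G i k ω)| ≤ K k * S.dl (w j * sg i) k)
    (hT' : S.Typ fun k ω => |Q.v k ω j - MvPolynomial.eval ((D.Y (i + 1)).v k ω) (G (i + 1) k ω)| ≤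
      K' k * S.dl (w j * sg (i + 1)) k) :
    ∃ L : ℕ → ℝ, S.Sub L ∧ S.Typ fun k ω => N (2 ^ (S.F k).n) w (-ε) (rec' (co (2 ^ (S.F k).n) w (sg (i + 1))
      (P (i + 1) k ω) (Q.v k ω)) (Pool.Agent.Helper85.FRM.inc (trg (2 ^ (S.F k).n) w sg (fun i => P i k ω))
        (fun i => MvPolynomial.rename (emb j) (G i k ω)) i)) ≤ L k * S.dl (w j * sg i) k := by
  have hc : ∀ l, ε < be w sg j (i + 1) l := fun l => D.be_gt hi l
  -- fullness over everything which is known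
  have hf1 := full_cells (D.Y (i + 1)) (V (i + 1)) (fun _ => ε) (be w sg j (i + 1)) (fun _ => D.eps.le)
    (fun l => (hc l).le) (D.full (Nat.succ_le_succ (Nat.zero_le i)) hi)
  have hp1 : PLe (fun k => fc (W' k)) (fun k => fc (V (i + 1) k ⊓ Setoid.ker (celm (D.Y (i + 1)) (fun _ => ε) k))) := by
    refine hW' (fun k => Setoid.ker (celm (D.Y (i + 1)) (fun _ => ε) k)) ⟨fun _ => 1, A, S.Sub_const zero_le_one, D.typ, ?_⟩
    filter_upwards [D.Y_eq] with k hY ω ω' hω hω' hA hA' hZ hV hcc l hl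
    have h2 := hY ω hω hA (i + 1) hi ⟨l.val, hl⟩
    have h3 := hY ω' hω' hA' (i + 1) hi ⟨l.val, hl⟩
    have e1 : emb j ⟨l.val, hl⟩ = l := rfl
    rw [e1] at h2 h3
    rw [← h2, ← h3, one_mul]
    have h4 := congrFun (show celm (D.Y (i + 1)) (fun _ => ε) k ω = celm (D.Y (i + 1)) (fun _ => ε) k ω' from hcc)
      ⟨l.val, hl⟩
    exact abs_sub_le_of_floor_eq (S.dl_pos _ _) h4
  have hp2 : PLe (fun k => fc (W k)) (fun k => fc (V (i + 1) k ⊓ Setoid.ker (celm (D.Y (i + 1)) (fun _ => ε) k))) := by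
    obtain ⟨Kc, hKc, hcl⟩ := D.cls hi
    have h1 := hW (fun k => V (i + 1) k ⊓ Setoid.ker (celm (D.Y (i + 1)) (fun _ => ε) k)) ⟨Kc, A, hKc, D.typ, by
      filter_upwards [hcl] with k hk ω ω' hω hω' hA hA' hZ hV hcc l hl
      exact hk ω ω' hω hω' hA hA' hZ hcc.1 hcc.2 l hl⟩
    have e1 : (fun k => V i k ⊓ (V (i + 1) k ⊓ Setoid.ker (celm (D.Y (i + 1)) (fun _ => ε) k))) =
        fun k => V (i + 1) k ⊓ Setoid.ker (celm (D.Y (i + 1)) (fun _ => ε) k) := by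
      funext k
      rw [← inf_assoc, inf_eq_right.mpr (D.anti i k)]
    have h2 : Nul S (fun k => h (fc (W k) : FL (S.F k)) (fc ((fun k => V i k ⊓ (V (i + 1) k ⊓
      Setoid.ker (celm (D.Y (i + 1)) (fun _ => ε) k))) k))) := h1
    rw [e1] at h2
    exact h2
  have hp3 : Tendsto (fun k => h (fc (W' k) ⊔ fc (W k)) (fc (V (i + 1) k ⊓
      Setoid.ker (celm (D.Y (i + 1)) (fun _ => ε) k))) / (S.F k).n) UF (𝓝 0) := PLe.sup_le hp1 hp2
  have hf2 := tendsto_join hf1 hp3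
  have hf3 : Tendsto (fun k => h (fc (Setoid.ker (celm (D.Y (i + 1)) (be w sg j (i + 1)) k)))
      (fc ((V (i + 1) k ⊓ (W' k ⊓ W k)) ⊓ Setoid.ker (celm (D.Y (i + 1)) (fun _ => ε) k))) / (S.F k).n) UF
      (𝓝 (∑ l, (be w sg j (i + 1) l - ε))) := by
    refine hf2.congr fun k => ?_
    rw [← fc_inf, ← fc_inf]
    have e1 : V (i + 1) k ⊓ Setoid.ker (celm (D.Y (i + 1)) (fun _ => ε) k) ⊓ (W' k ⊓ W k) =
        (V (i + 1) k ⊓ (W' k ⊓ W k)) ⊓ Setoid.ker (celm (D.Y (i + 1)) (fun _ => ε) k) := by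
      rw [inf_assoc, inf_assoc, inf_comm (W' k ⊓ W k)]
    rw [e1]
  obtain ⟨L, hL, _, hN⟩ := nes (D.Y (i + 1)) (fun k => V (i + 1) k ⊓ (W' k ⊓ W k)) (fun _ => ε) (be w sg j (i + 1)) hc hf3
    (D := a + b * d) (fun k ω => incd w sg j P G i k ω) (Eventually.of_forall fun k ω _ => D.deg_incd ω (ha k ω) (hb k ω))
    (κ := fun _ => 1) (S.Sub_const zero_le_one) (by
      filter_upwards [hG, hG', D.kn i hi.le, D.kn (i + 1) hi] with k h1 h2 h3 h4 ω ω' hω hω' hZ hV _ y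
      have h5 : incd w sg j P G i k ω' = incd w sg j P G i k ω := by
        have e3 := h3 ω ω' hω hω' hZ (D.anti i k hV.1)
        have e4 := h4 ω ω' hω hω' hZ hV.1
        have e5 : trd w sg j P i k ω' = trd w sg j P i k ω := by
          funext l
          show dn j (tr (2 ^ (S.F k).n) w (sg i) (sg (i + 1)) (P i k ω') (P (i + 1) k ω') (emb j l)) =
            dn j (tr (2 ^ (S.F k).n) w (sg i) (sg (i + 1)) (P i k ω) (P (i + 1) k ω) (emb j l))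
          rw [e3, e4]
        unfold incd
        rw [h1 ω ω' hω hω' hZ ⟨D.anti i k hV.1, hV.2.2⟩, h2 ω ω' hω hω' hZ ⟨hV.1, hV.2.1⟩, e5]
      rw [h5, one_mul])
  have hC : (0 : ℝ) ≤ (((a + b * d : ℕ) : ℝ) + 1) ^ j.val := by positivity
  refine ⟨fun k => (((a + b * d : ℕ) : ℝ) + 1) ^ j.val * (L k * (K' k + K k)),
    (S.Sub_const hC).mul (hL.mul (hK'.add hK)), ?_⟩
  refine (((hN.and hT).and hT').and D.typ).mono ?_
  filter_upwards [D.Y_eq, hL.1, hK'.1] with k hY hL0 hK0 ω hω hh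
  obtain ⟨⟨⟨h1, h2⟩, h3⟩, h4⟩ := hh
  have h5 := hY ω hω h4 (i + 1) hi
  have h6 := hY ω hω h4 i hi.le
  have h7 := D.eval_incd G ω h5 h6
  have h8 : |MvPolynomial.eval ((D.Y (i + 1)).v k ω) (incd w sg j P G i k ω)| ≤ (K' k + K k) * S.dl (w j * sg i) k := by
    rw [h7]
    have h9 : S.dl (w j * sg (i + 1)) k ≤ S.dl (w j * sg i) k := S.dl_anti
      (mul_le_mul_of_nonneg_left (D.mono (Nat.le_succ i)) (by linarith [D.hw j])) k
    have h10 : MvPolynomial.eval ((D.Y (i + 1)).v k ω) (G (i + 1) k ω) - MvPolynomial.eval ((D.Y i).v k ω) (G i k ω) =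
        (Q.v k ω j - MvPolynomial.eval ((D.Y i).v k ω) (G i k ω)) -
        (Q.v k ω j - MvPolynomial.eval ((D.Y (i + 1)).v k ω) (G (i + 1) k ω)) := by ring
    rw [h10]
    refine (abs_sub _ _).trans ?_
    have h11 := mul_le_mul_of_nonneg_left h9 hK0
    rw [add_mul]
    linarith
  rw [← D.rename_incd]
  have h12 := (h1 1 le_rfl ((D.Y (i + 1)).v k ω) (fun l => by
    rw [sub_self, abs_zero]
    exact mul_nonneg zero_le_one (S.dl_pos _ _).le)).2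
  have h13 : ∀ c, |(rcp ((D.Y (i + 1)).v k ω) (fun _ => (2 ^ (S.F k).n) ^ (-ε)) (incd w sg j P G i k ω)).coeff c| ≤
      L k * ((K' k + K k) * S.dl (w j * sg i) k) := by
    intro c
    rw [q_dl]
    refine (h12 c).trans ?_
    rw [one_pow, mul_one]
    exact mul_le_mul_of_nonneg_left h8 hL0
  have h14 := N_of_coeff D.hw (q_one S k) D.eps.le (incd w sg j P G i k ω) (D.deg_incd ω (ha k ω) (hb k ω))
    (co (2 ^ (S.F k).n) w (sg (i + 1)) (P (i + 1) k ω) (Q.v k ω)) ((D.Y (i + 1)).v k ω) h5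
    ((abs_nonneg _).trans (h13 0)) h13
  refine h14.trans (le_of_eq ?_)
  ring

end DI

/-- INPJ, with partitions `W i` which are literal functions of the base, `V i` and the point -/
theorem inpj' (M : ℕ) (w : Fin M → ℝ) (d m Dg : ℕ) (sg : ℕ → ℝ) (j : Fin M) (ε : ℝ) (hw : ∀ l, 1 ≤ w l)
    (hd : ∀ l, w l ≤ d) (s0 : sg 0 = 0) (mono : Monotone sg) (eps : 0 < ε) (top : ∀ l, w l * sg m + ε < 1)
    (S : Sp) (Q : S.VV M) (V : ℕ → ∀ k, Setoid (S.F k).Ω) (P : ℕ → ∀ k, (S.F k).Ω → Fin M → MvPolynomial (Fin M) ℝ)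
    (A : ∀ k, (S.F k).Ω → Prop) (p : ℕ → ∀ k, (S.F k).Ω → MvPolynomial (Fin M) ℝ)
    (anti : ∀ i k, V (i + 1) k ≤ V i k) (fr : ∀ i k ω, Fr w j.val (P i k ω))
    (kn : ∀ i, i ≤ m → Knw S (V i) (P i)) (typ : S.Typ A)
    (sta : ∀ η : ℝ, 0 < η → ∀ᶠ k in UF, ∀ ω, (S.F k).μ ω ≠ 0 → A k ω →
      Sta (2 ^ (S.F k).n) w sg m j.val (2 ^ (η * (S.F k).n)) (fun i => P i k ω) (Q.v k ω))
    (num : ∀ i, 1 ≤ i → i ≤ m → Tendsto (fun k => h (pre Q j.val k) (fc (V i k)) / (S.F k).n) UF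
      (𝓝 (∑ l : Fin M, if l < j then 1 - w l * sg i else 0)))
    (hdeg : ∀ i k ω, (p i k ω).totalDegree ≤ Dg) (hvars : ∀ i k ω, ∀ a ∈ (p i k ω).vars, a ≤ j)
    (hkn : ∀ i, 1 ≤ i → i ≤ m → Knw S (V i) (p i))
    (hrow : ∀ i, 1 ≤ i → i ≤ m → ∃ K : ℕ → ℝ, S.Sub K ∧ S.Typ fun k ω => |MvPolynomial.eval (Q.v k ω) (p i k ω)| ≤ K k ∧
      2 ^ (w j * sg i * (S.F k).n) ≤ K k * |MvPolynomial.eval (Q.v k ω) (MvPolynomial.pderiv j (p i k ω))|) :
    ∃ (W : ℕ → ∀ k, Setoid (S.F k).Ω) (G : ℕ → ∀ k, (S.F k).Ω → MvPolynomial (Fin M) ℝ),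
      (∀ i, i ≤ m → Det (V i) (W i) (fun k ω => co (2 ^ (S.F k).n) w (sg i) (P i k ω) (Q.v k ω)) j ε) ∧
      (∀ i, i ≤ m → Knw S (fun k => V i k ⊓ W i k) (G i)) ∧
      (∀ i, i ≤ m → ∀ᶠ k in UF, ∀ ω ω', (S.F k).μ ω ≠ 0 → (S.F k).μ ω' ≠ 0 → (S.F k).Z ω ω' → V i k ω ω' →
        Q.v k ω = Q.v k ω' → W i k ω ω') ∧
      ∃ K : ℕ → ℝ, S.Sub K ∧ S.Typ fun k ω =>
        Inp (2 ^ (S.F k).n) w sg m j (fun i => P i k ω) (Q.v k ω) (fun i => G i k ω) ε (K k) := by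
  obtain ⟨B, hB, hB1, hsta⟩ := exists_sub_of_eta (S := S) (Pr := fun k B => ∀ ω, (S.F k).μ ω ≠ 0 → A k ω →
    Sta (2 ^ (S.F k).n) w sg m j.val B (fun i => P i k ω) (Q.v k ω)) (fun k B B' hBB h ω h1 h2 =>
      ⟨(h ω h1 h2).fr, fun i k hik hk l hl => ((h ω h1 h2).tn i k hik hk l hl).trans hBB,
        fun k hk l hl => ((h ω h1 h2).pn k hk l hl).trans hBB, fun k hk l hl => ((h ω h1 h2).yn k hk l hl).trans hBB⟩) sta
  have D : DI S w d m sg j ε Q V P A B :=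
    { hw := hw, hd := hd, s0 := s0, mono := mono, eps := eps, top := top, anti := anti, fr := fr, kn := kn,
      typ := typ, sB := hB, B1 := hB1, sta := hsta, num := num }
  have hall := D.lg_all hdeg hvars hkn hrow
  choose K1 N idx G K h0 h1 using hall
  have hst : ∀ i : Fin m, ∃ L : ℕ → ℝ, S.Sub L ∧ S.Typ fun k ω => Pool.Agent.Helper85.FRM.N (2 ^ (S.F k).n) w (-ε)
      (rec' (co (2 ^ (S.F k).n) w (sg (i.val + 1)) (P (i.val + 1) k ω) (Q.v k ω)) (Pool.Agent.Helper85.FRM.inc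
        (trg (2 ^ (S.F k).n) w sg (fun i => P i k ω)) (fun i => MvPolynomial.rename (emb j) (G i k ω)) i.val)) ≤
        L k * S.dl (w j * sg i.val) k := by
    intro i
    obtain ⟨a1, a2, a3, a4, a5⟩ := h1 i.val i.isLt.le
    obtain ⟨b1, b2, b3, b4, b5⟩ := h1 (i.val + 1) i.isLt
    exact D.nst i.isLt (D.det i.isLt.le (idx i.val)) (D.det (i := i.val + 1) i.isLt (idx (i.val + 1))) b1 a1 a2 b2 a4 b4
      a5 b5
  choose L hL hLT using hst
  obtain ⟨La, hLa, hLa'⟩ := Pool.Agent.Helper63.MT.sub_all hL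
  obtain ⟨Lb, hLb, hLb'⟩ := Pool.Agent.Helper63.MT.sub_all (S := S) (ι := Fin (m + 1)) (K := fun i => K i.val)
    (fun i => (h1 i.val (Nat.lt_succ_iff.mp i.isLt)).2.2.2.1)
  have t1 := Pool.Agent.Helper63.MT.typ_all hLT
  have t2 := Pool.Agent.Helper63.MT.typ_all (S := S) (ι := Fin (m + 1)) (fun i =>
    (h1 i.val (Nat.lt_succ_iff.mp i.isLt)).2.2.2.2)
  refine ⟨fun i => D.Wp i (idx i), fun i k ω => MvPolynomial.rename (emb j) (G i k ω), fun i hi => D.det hi (idx i),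
    fun i hi => ?_, fun i hi => (h1 i hi).2.2.1, fun k => La k + Lb k, hLa.add hLb, ?_⟩
  · filter_upwards [(h1 i hi).2.1] with k hk ω ω' a b c e
    rw [hk ω ω' a b c e]
  · refine ((t1.and t2).and typ).mono ?_
    filter_upwards [D.Y_eq, hLa', hLb', hLa.1, hLb.1] with k hY c1 c2 c3 c4 ω hω hh
    obtain ⟨⟨d1, d2⟩, d3⟩ := hh
    refine ⟨?_, fun i _ => vars_rename_emb _, fun i hi => ?_, fun i hi => ?_⟩
    · show MvPolynomial.rename (emb j) (G 0 k ω) = 0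
      rw [h0 0 rfl k ω, map_zero]
    · show |Q.v k ω j - MvPolynomial.eval (co (2 ^ (S.F k).n) w (sg i) (P i k ω) (Q.v k ω))
        (MvPolynomial.rename (emb j) (G i k ω))| ≤ (La k + Lb k) * (2 ^ (S.F k).n) ^ (-(w j * sg i))
      rw [eval_rename_emb (G i k ω) _ ((D.Y i).v k ω) (hY ω hω d3 i hi), q_dl]
      refine (d2 ⟨i, Nat.lt_succ_iff.mpr hi⟩).trans (mul_le_mul_of_nonneg_right ?_ (S.dl_pos _ _).le)
      have := c2 ⟨i, Nat.lt_succ_iff.mpr hi⟩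
      simp only [] at this
      linarith
    · rw [q_dl]
      refine (d1 ⟨i, hi⟩).trans (mul_le_mul_of_nonneg_right ?_ (S.dl_pos _ _).le)
      have := c1 ⟨i, hi⟩
      linarith

/-- INPJ -/
theorem inpj : INPJ := by
  intro M w d m Dg sg j ε hw hd s0 mono eps _ top S Q V P A p anti fr _ kn typ sta num hdeg hvars hkn hrow
  obtain ⟨W, G, h1, h2, _, h3⟩ := inpj' M w d m Dg sg j ε hw hd s0 mono eps top S Q V P A p anti fr kn typ sta num
    hdeg hvars hkn hrow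
  exact ⟨W, G, h1, h2, h3⟩

end

end Pool.Agent.Helper63.FRT
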