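import Pool.Agent.Helper85.FRM.Frt
import Pool.Agent.Helper93.FRM.Fam
import Pool.Agent.Helper7.FIN.Finp
import Pool.Agent.Helper63.FRT.Inp

/-! THEOREM FRT: reduced triangular frames of the labels `kappa_c` of a system with the numbers (E1) and the rows. -/

set_option autoImplicit false

namespace Pool.Agent.Helper63.FRT

theorem frt : Pool.Agent.Helper85.FRM.FRTP :=
  Pool.Agent.Helper85.FRM.frt_of Pool.Agent.Helper93.FRM.famp inpj Pool.Agent.Helper7.FIN.finp

end Pool.Agent.Helper63.FRT
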