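import Pool.Agent.Helper76.RL.Cht
import Pool.Agent.Helper76.RL.Interp
import Pool.Agent.Helper63.FRT.Cof

/-! Local graphs (LG), deterministic part: over a good cell of the parameter the roots of a polynomial of degree at most
`D` with arbitrary coefficients are polynomials of bounded degree with bounded coefficients in the coordinates of the
cell, up to any power of the size of the cell. -/

set_option autoImplicit false

namespace Pool.Agent.Helper63.FRT

open Finset MvPolynomial Metric Pool.Agent.Helper84.MT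
open Pool.Agent.Helper76.RL (lin lin_eval lin_deriv lin_deg one_dim gp rc eval_rc excf card_excf cB cB_one chart_one
  approx totalDegree_map_le' cexc dd)

noncomputable section

variable {e : ℕ}

/-! ### polynomials with given coefficients -/

theorem ofc_support {d : ℕ} (c : (exps e d) → ℝ) {a : Fin e →₀ ℕ} (ha : a ∈ (ofc e d c).support) : a ∈ exps e d := by
  by_contra h
  rw [MvPolynomial.mem_support_iff] at ha
  apply ha
  unfold ofc
  rw [MvPolynomial.coeff_sum]
  apply Finset.sum_eq_zero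
  intro b _
  rw [MvPolynomial.coeff_monomial, if_neg (fun h' : b.1 = a => h (h' ▸ b.2))]

theorem ofc_totalDegree {d : ℕ} (c : (exps e d) → ℝ) : (ofc e d c).totalDegree ≤ d := by
  rw [MvPolynomial.totalDegree]
  refine Finset.sup_le fun a ha => ?_
  have h1 := exps_deg (ofc_support c ha)
  rw [Finsupp.sum_fintype _ _ (fun _ => rfl)]
  exact h1

theorem ofc_coeff_le {d : ℕ} (c : (exps e d) → ℝ) {B : ℝ} (hB : 0 ≤ B) (hc : ∀ a, |c a| ≤ B) (a : Fin e →₀ ℕ) :
    |(ofc e d c).coeff a| ≤ B := by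
  by_cases ha : a ∈ exps e d
  · have h1 := ofc_coeff c ⟨a, ha⟩
    rw [h1]
    exact hc _
  · have h1 : (ofc e d c).coeff a = 0 := by
      by_contra h
      exact ha (ofc_support c (MvPolynomial.mem_support_iff.mpr h))
    rw [h1, abs_zero]
    exact hB

theorem eval_expsC {d : ℕ} (P : MvPolynomial (Fin e) ℂ) (hP : P.totalDegree ≤ d) (z : Fin e → ℂ) :
    MvPolynomial.eval z P = ∑ a : exps e d, P.coeff a.1 * ∏ i, z i ^ (a.1 i) := by
  rw [MvPolynomial.eval_eq', Finset.sum_coe_sort (exps e d) (fun a => P.coeff a * ∏ i, z i ^ (a i))]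
  apply Finset.sum_subset
  · intro a ha
    apply mem_exps
    have h1 : a.sum (fun _ n => n) ≤ P.totalDegree := MvPolynomial.le_totalDegree ha
    rw [Finsupp.sum_fintype _ _ (fun _ => rfl)] at h1
    exact h1.trans hP
  · intro a _ ha
    rw [MvPolynomial.notMem_support_iff.mp ha, zero_mul]

/-- the real part of a polynomial -/
def reP (d : ℕ) (P : MvPolynomial (Fin e) ℂ) : MvPolynomial (Fin e) ℝ := ofc e d (fun a => (P.coeff a.1).re)

theorem reP_eval {d : ℕ} (P : MvPolynomial (Fin e) ℂ) (hP : P.totalDegree ≤ d) (t : Fin e → ℝ) :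
    MvPolynomial.eval t (reP d P) = (MvPolynomial.eval (rc t) P).re := by
  unfold reP
  rw [ofc_eval, eval_expsC P hP, Complex.re_sum]
  apply Finset.sum_congr rfl
  intro a _
  have h1 : (∏ i, rc t i ^ (a.1 i) : ℂ) = ((∏ i, t i ^ (a.1 i) : ℝ) : ℂ) := by
    unfold rc
    push_cast
    rfl
  rw [h1, Complex.re_mul_ofReal]

/-! ### the chain rule -/

theorem pderiv_rcp {n : ℕ} (a r : Fin n → ℝ) (f : MvPolynomial (Fin n) ℝ) (i : Fin n) :
    pderiv i (rcp a r f) = C (r i) * rcp a r (pderiv i f) := by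
  unfold rcp
  induction f using MvPolynomial.induction_on with
  | C b => simp
  | add p q hp hq =>
    rw [map_add, map_add, map_add, map_add, hp, hq, mul_add]
  | mul_X p j hp =>
    rw [map_mul, pderiv_mul, pderiv_mul, hp, map_add, map_mul, map_mul, bind₁_X_right]
    by_cases hij : j = i
    · subst hij
      simp only [map_add, pderiv_C, pderiv_mul, zero_mul, zero_add, pderiv_X_self, mul_one]
      rw [map_one]
      ring
    · have h1 : pderiv i (X j : MvPolynomial (Fin n) ℝ) = 0 := pderiv_X_of_ne hij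
      simp only [map_add, pderiv_C, pderiv_mul, h1, zero_mul, zero_add, mul_zero, map_zero, add_zero]
      ring

/-! ### the nearest root -/

theorem near_root (p : Polynomial ℂ) (D : ℕ) (hD : p.natDegree ≤ D) (t : ℂ) (hp : p.derivative.eval t ≠ 0) :
    ∃ r : ℂ, p.eval r = 0 ∧ ‖t - r‖ * ‖p.derivative.eval t‖ ≤ D * ‖p.eval t‖ := by
  classical
  have hp0 : p ≠ 0 := by
    intro h
    rw [h] at hp
    simp at hp
  have hdeg : 0 < p.degree := by
    by_contra h
    push Not at h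
    rw [Polynomial.eq_C_of_degree_le_zero h] at hp
    simp at hp
  obtain ⟨r0, hr0⟩ := Complex.exists_root hdeg
  have hne : p.roots.toFinset.Nonempty := ⟨r0, by
    rw [Multiset.mem_toFinset, Polynomial.mem_roots hp0]
    exact hr0⟩
  obtain ⟨r, hr, hmin⟩ := Finset.exists_min_image p.roots.toFinset (fun r => ‖t - r‖) hne
  have hr' : p.eval r = 0 := by
    rw [Multiset.mem_toFinset, Polynomial.mem_roots hp0] at hr
    exact hr
  refine ⟨r, hr', ?_⟩
  rcases eq_or_lt_of_le (norm_nonneg (t - r)) with h | h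
  · rw [← h, zero_mul]
    positivity
  · have h1 := one_dim p D hD h t (fun z hz => hmin z (Multiset.mem_toFinset.mpr hz))
    rw [div_mul_eq_mul_div, le_div_iff₀ h] at h1
    rw [mul_comm]
    exact h1

/-- the nearest root in the first variable -/
theorem near_root0 (H : MvPolynomial (Fin (e + 1)) ℝ) (D : ℕ) (hD : H.totalDegree ≤ D) (x : Fin e → ℝ) (u : ℝ)
    (hp : MvPolynomial.eval (Fin.cons u x : Fin (e + 1) → ℝ) (pderiv 0 H) ≠ 0) :
    ∃ r : ℂ, MvPolynomial.eval (Fin.cons r (rc x) : Fin (e + 1) → ℂ) (map (algebraMap ℝ ℂ) H) = 0 ∧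
      ‖(u : ℂ) - r‖ * |MvPolynomial.eval (Fin.cons u x : Fin (e + 1) → ℝ) (pderiv 0 H)| ≤
        D * |MvPolynomial.eval (Fin.cons u x : Fin (e + 1) → ℝ) H| := by
  have hrc : ∀ v : ℝ, (Fin.cons (v : ℂ) (rc x) : Fin (e + 1) → ℂ) = rc (Fin.cons v x : Fin (e + 1) → ℝ) := by
    intro v
    funext i
    refine Fin.cases ?_ (fun j => ?_) i
    · rfl
    · rfl
  set p : Polynomial ℂ := lin (Fin.cons 0 (rc x) : Fin (e + 1) → ℂ) 0 (map (algebraMap ℝ ℂ) H) with hpd
  have h1 : ∀ v : ℂ, p.eval v = MvPolynomial.eval (Fin.cons v (rc x) : Fin (e + 1) → ℂ) (map (algebraMap ℝ ℂ) H) := by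
    intro v
    rw [hpd, lin_eval, Fin.update_cons_zero]
  have h2 : ∀ v : ℂ, p.derivative.eval v =
      MvPolynomial.eval (Fin.cons v (rc x) : Fin (e + 1) → ℂ) (map (algebraMap ℝ ℂ) (pderiv 0 H)) := by
    intro v
    rw [hpd, lin_deriv, lin_eval, Fin.update_cons_zero, pderiv_map]
  have h3 : p.derivative.eval (u : ℂ) = ((MvPolynomial.eval (Fin.cons u x : Fin (e + 1) → ℝ) (pderiv 0 H) : ℝ) : ℂ) := by
    rw [h2, hrc, eval_rc]
  have h4 : p.eval (u : ℂ) = ((MvPolynomial.eval (Fin.cons u x : Fin (e + 1) → ℝ) H : ℝ) : ℂ) := by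
    rw [h1, hrc, eval_rc]
  obtain ⟨r, hr, hr2⟩ := near_root p D ((lin_deg _ _ _).trans ((totalDegree_map_le' H).trans hD)) (u : ℂ) (by
    rw [h3]
    exact_mod_cast hp)
  refine ⟨r, by rw [← h1]; exact hr, ?_⟩
  rw [h3, h4, Complex.norm_real, Complex.norm_real] at hr2
  exact hr2

/-! ### one good cell -/

/-- the point of the grid cell `g` with the coordinates `t` -/
def ptc (N : ℕ) (g : Fin e → Fin N) (t : Fin e → ℝ) : Fin e → ℝ := fun i => ((g i : ℕ) + t i) / N

/-- `G` are the roots over the grid cell `g` -/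
def IsG (D K : ℕ) (B : ℝ) (H : MvPolynomial (Fin (e + 1)) ℝ) (N : ℕ) (g : Fin e → Fin N)
    (G : Fin (D * D) → MvPolynomial (Fin e) ℝ) : Prop :=
  (∀ i, (G i).totalDegree ≤ e * K ∧ ∀ a, |(G i).coeff a| ≤ B) ∧
    ∀ (t : Fin e → ℝ) (u : ℝ), (∀ i, 0 ≤ t i ∧ t i ≤ 1) → |u| ≤ 1 →
      (|u| * |eval (Fin.cons u (ptc N g t) : Fin (e + 1) → ℝ) (pderiv 0 H)| ≤
        D * |eval (Fin.cons u (ptc N g t) : Fin (e + 1) → ℝ) H|) ∨
      ∃ i, |u - eval t (G i)| * |eval (Fin.cons u (ptc N g t) : Fin (e + 1) → ℝ) (pderiv 0 H)| ≤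
        D * |eval (Fin.cons u (ptc N g t) : Fin (e + 1) → ℝ) H| +
          B * (√N)⁻¹ ^ (K + 1) * |eval (Fin.cons u (ptc N g t) : Fin (e + 1) → ℝ) (pderiv 0 H)|

/-- LOCAL GRAPHS over a good cell -/
theorem lg_one (e D K : ℕ) (hD : 1 ≤ D) : ∃ B : ℝ, 1 ≤ B ∧ ∀ (H : MvPolynomial (Fin (e + 1)) ℝ), H ≠ 0 →
    H.totalDegree ≤ D → ∀ N : ℕ, B ≤ N → ∀ g : Fin e → Fin N, g ∉ excf D (1 / √N) N (map (algebraMap ℝ ℂ) H) →
    ∃ G : Fin (D * D) → MvPolynomial (Fin e) ℝ, IsG D K B H N g G := by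
  obtain ⟨C0, hC0, happ⟩ := approx e K
  have hcB := cB_one e D
  have hcB0 : 0 < cB e D := by linarith
  set B : ℝ := 1 + 16 * cB e D ^ 2 + C0 * 3 + C0 * 3 * (2 * cB e D) ^ (K + 1) with hB
  have hB1 : 1 ≤ B := by
    have : 0 ≤ 16 * cB e D ^ 2 + C0 * 3 + C0 * 3 * (2 * cB e D) ^ (K + 1) := by positivity
    linarith
  refine ⟨B, hB1, ?_⟩
  intro H hH hHD N hN g hg
  have hN1 : (1 : ℝ) ≤ N := hB1.trans hN
  have hNpos : 0 < N := by
    have : (0 : ℝ) < N := by linarith
    exact_mod_cast this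
  have hN0 : (0 : ℝ) < N := by exact_mod_cast hNpos
  have hsq : 4 * cB e D ≤ √N := by
    rw [Real.le_sqrt (by positivity) hN0.le]
    have h1 : 0 ≤ C0 * 3 + C0 * 3 * (2 * cB e D) ^ (K + 1) := by positivity
    have h2 : (4 * cB e D) ^ 2 = 16 * cB e D ^ 2 := by ring
    rw [h2]
    linarith
  have hsq0 : 0 < √(N : ℝ) := by linarith
  have hHc : map (algebraMap ℝ ℂ) H ≠ 0 := by
    intro h
    apply hH
    apply map_injective (algebraMap ℝ ℂ) (algebraMap ℝ ℂ).injective
    rw [h, map_zero]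
  obtain ⟨G', hG1, hG2⟩ := chart_one hD hNpos hHc ((totalDegree_map_le' H).trans hHD) hg
  set S : ℝ := √N / (2 * cB e D) with hS
  have hS2 : 2 ≤ S := by
    rw [hS, le_div_iff₀ (by positivity)]
    linarith
  have hsub : closedBall (0 : Fin e → ℂ) S ⊆ ball 0 (√N / cB e D) := by
    apply closedBall_subset_ball
    rw [hS]
    apply div_lt_div_of_pos_left hsq0 hcB0
    linarith
  choose P hP1 hP2 hP3 using fun i => happ S hS2 3 (by norm_num) (G' i) ((hG1 i).1.mono hsub)
    (fun x hx => (hG1 i).2.1 x (hsub hx))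
  refine ⟨fun i => reP (e * K) (P i), fun i => ⟨ofc_totalDegree _, fun a => ?_⟩, ?_⟩
  · apply ofc_coeff_le _ (by linarith)
    intro b
    have h1 : |((P i).coeff b.1).re| ≤ ‖(P i).coeff b.1‖ := Complex.abs_re_le_norm _
    have h2 := hP2 i b.1
    have h3 : 0 ≤ 16 * cB e D ^ 2 + C0 * 3 * (2 * cB e D) ^ (K + 1) := by positivity
    linarith
  · intro t u ht hu
    set x : Fin e → ℝ := ptc N g t with hx
    by_cases hder : eval (Fin.cons u x : Fin (e + 1) → ℝ) (pderiv 0 H) = 0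
    · left
      rw [hder, abs_zero, mul_zero]
      positivity
    obtain ⟨r, hr1, hr2⟩ := near_root0 H D hHD x u hder
    have hu0 := abs_nonneg (eval (Fin.cons u x : Fin (e + 1) → ℝ) (pderiv 0 H))
    by_cases hr : ‖r‖ ≤ 2
    · right
      have hy : rc t ∈ ball (0 : Fin e → ℂ) (√N / cB e D) := by
        rw [mem_ball_zero_iff]
        have h1 : ‖rc t‖ ≤ 1 := by
          rw [pi_norm_le_iff_of_nonneg zero_le_one]
          intro i
          show ‖((t i : ℝ) : ℂ)‖ ≤ 1
          rw [Complex.norm_real, Real.norm_eq_abs, abs_le]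
          constructor
          · linarith [(ht i).1]
          · exact (ht i).2
        refine lt_of_le_of_lt h1 ?_
        rw [lt_div_iff₀ hcB0]
        linarith
      have hpt : (gp N g + (N : ℂ)⁻¹ • rc t : Fin e → ℂ) = rc x := by
        funext i
        show ((g i : ℕ) : ℂ) / N + (N : ℂ)⁻¹ * ((t i : ℝ) : ℂ) = ((((g i : ℕ) + t i) / N : ℝ) : ℂ)
        push_cast
        field_simp
      obtain ⟨i, hi⟩ := hG2 (rc t) hy r hr (by rw [hpt]; exact hr1)
      refine ⟨i, ?_⟩
      have h1 := hP3 i t (fun j => (ht j).1) (fun j => (ht j).2)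
      have h2 : (fun j => (t j : ℂ)) = rc t := rfl
      rw [h2, hi] at h1
      have h3 : |u - eval t (reP (e * K) (P i))| ≤ ‖(u : ℂ) - r‖ + C0 * 3 * S⁻¹ ^ (K + 1) := by
        rw [reP_eval _ (hP1 i)]
        have h4 : u - (eval (rc t) (P i)).re = ((u : ℂ) - eval (rc t) (P i)).re := by
          rw [Complex.sub_re, Complex.ofReal_re]
        rw [h4]
        refine (Complex.abs_re_le_norm _).trans ?_
        have h5 : (u : ℂ) - eval (rc t) (P i) = ((u : ℂ) - r) + (r - eval (rc t) (P i)) := by ring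
        rw [h5]
        exact (norm_add_le _ _).trans (by linarith)
      have h6 : C0 * 3 * S⁻¹ ^ (K + 1) ≤ B * (√N)⁻¹ ^ (K + 1) := by
        have h7 : S⁻¹ = (2 * cB e D) * (√N)⁻¹ := by
          rw [hS, inv_div, div_eq_mul_inv]
        rw [h7, mul_pow, ← mul_assoc]
        apply mul_le_mul_of_nonneg_right _ (by positivity)
        have h8 : 0 ≤ 16 * cB e D ^ 2 + C0 * 3 := by positivity
        linarith
      calc |u - eval t (reP (e * K) (P i))| * |eval (Fin.cons u x : Fin (e + 1) → ℝ) (pderiv 0 H)| ≤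
          (‖(u : ℂ) - r‖ + B * (√N)⁻¹ ^ (K + 1)) * |eval (Fin.cons u x : Fin (e + 1) → ℝ) (pderiv 0 H)| :=
            mul_le_mul_of_nonneg_right (by linarith) hu0
        _ ≤ _ := by
            rw [add_mul]
            linarith
    · left
      push Not at hr
      have h1 : |u| ≤ ‖(u : ℂ) - r‖ := by
        have h2 : ‖r‖ - ‖(u : ℂ)‖ ≤ ‖(u : ℂ) - r‖ := by
          rw [norm_sub_rev]
          exact norm_sub_norm_le _ _
        rw [Complex.norm_real, Real.norm_eq_abs] at h2
        linarith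
      exact (mul_le_mul_of_nonneg_right h1 hu0).trans hr2

end

end Pool.Agent.Helper63.FRT
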