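import Pool.Agent.Helper63.FRT.Avd
import Pool.Agent.Helper63.FRT.Lgd

/-! LOCAL GRAPHS (LG): `Y` full over the partition `La`, `F` a polynomial of degree at most `D` in `(z, Y)`, with
arbitrary coefficients which are functions of `La`. Then `z` is typically a polynomial of bounded degree in `Y` up to
`D |F| / |∂_z F|`; the polynomial is a function of `La`, of the grid cell of level `ε` of `Y` and of one of `D ^ 2 + 1`
indices, with tame coefficients in the coordinates of the cell. -/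

set_option autoImplicit false

namespace Pool.Agent.Helper63.FRT

open Finset Filter Topology Matrix Pool.Agent.Helper69.RK Pool.Agent.Helper31.EC Pool.Agent.Helper31.EC.Sp
open Pool.Agent.Helper40.EL Pool.Agent.Helper89.LX Pool.Agent.Helper3.LF Pool.Agent.Helper84.MT
open Pool.Agent.Helper76.RL (excf card_excf cexc dd totalDegree_map_le')

noncomputable section

variable {S : Sp} {e : ℕ}

/-! ### grid cells -/

/-- the number of grid cells per unit is `mgr + 1` -/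
def mgr (S : Sp) (ε : ℝ) (k : ℕ) : ℕ := ⌊(S.dl ε k)⁻¹⌋₊

/-- the number of grid cells per unit -/
def ngr (S : Sp) (ε : ℝ) (k : ℕ) : ℝ := (mgr S ε k : ℝ) + 1

theorem ngr_gt (S : Sp) (ε : ℝ) (k : ℕ) : (S.dl ε k)⁻¹ < ngr S ε k := Nat.lt_floor_add_one _

theorem ngr_le (S : Sp) (ε : ℝ) (k : ℕ) : ngr S ε k ≤ (S.dl ε k)⁻¹ + 1 := by
  unfold ngr mgr
  have h1 : (0 : ℝ) ≤ (S.dl ε k)⁻¹ := (inv_pos.mpr (S.dl_pos ε k)).le
  linarith [Nat.floor_le h1]

theorem ngr_one (S : Sp) (ε : ℝ) (k : ℕ) : 1 ≤ ngr S ε k := by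
  unfold ngr
  have : (0 : ℝ) ≤ mgr S ε k := Nat.cast_nonneg _
  linarith

theorem dl_inv (S : Sp) (ε : ℝ) (k : ℕ) : (S.dl ε k)⁻¹ = 2 ^ (ε * (S.F k).n) := by
  unfold Sp.dl
  rw [Real.rpow_neg (by norm_num), inv_inv]

theorem logb_ngr_ge (S : Sp) (ε : ℝ) (k : ℕ) : ε * (S.F k).n ≤ Real.logb 2 (ngr S ε k) := by
  have h1 := ngr_gt S ε k
  rw [dl_inv] at h1
  have h2 := Real.logb_le_logb_of_le (b := 2) (by norm_num) (by positivity) h1.le
  rwa [Real.logb_rpow (by norm_num) (by norm_num)] at h2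

theorem logb_ngr_le (S : Sp) {ε : ℝ} (hε : 0 ≤ ε) (k : ℕ) : Real.logb 2 (ngr S ε k) ≤ ε * (S.F k).n + 1 := by
  have h1 := ngr_le S ε k
  rw [dl_inv] at h1
  have h3 : (1 : ℝ) ≤ 2 ^ (ε * (S.F k).n) := Real.one_le_rpow (by norm_num) (mul_nonneg hε (S.F k).pos.le)
  have h2 := Real.logb_le_logb_of_le (b := 2) (by norm_num) (lt_of_lt_of_le one_pos (ngr_one S ε k))
    (h1.trans (show _ ≤ 2 * (2 : ℝ) ^ (ε * (S.F k).n) by linarith))
  rw [Real.logb_mul (by norm_num) (by positivity), Real.logb_rpow (by norm_num) (by norm_num),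
    Real.logb_self_eq_one (by norm_num)] at h2
  linarith

/-- the grid cell of level `ε` -/
def gcell (Y : S.VV e) (ε : ℝ) : ∀ k, (S.F k).Ω → Fin e → ℤ := fun k ω i => ⌊ngr S ε k * Y.v k ω i⌋

/-- the integer part of a grid cell -/
def ipt (M : ℕ) (c : Fin e → ℤ) : Fin e → ℤ := fun i => c i / ((M + 1 : ℕ) : ℤ)

/-- the index of a grid cell in the unit cell -/
def gix (M : ℕ) (c : Fin e → ℤ) : Fin e → Fin (M + 1) := fun i => ⟨(c i % ((M + 1 : ℕ) : ℤ)).toNat, by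
  have h1 : (0 : ℤ) < ((M + 1 : ℕ) : ℤ) := by positivity
  have h2 := Int.emod_lt_of_pos (c i) h1
  have h3 := Int.emod_nonneg (c i) h1.ne'
  omega⟩

theorem ipt_gix (M : ℕ) (c : Fin e → ℤ) (i : Fin e) :
    ((M : ℝ) + 1) * (ipt M c i : ℝ) + ((gix M c i : ℕ) : ℝ) = (c i : ℝ) := by
  have h1 : (0 : ℤ) < ((M + 1 : ℕ) : ℤ) := by positivity
  have h3 := Int.emod_nonneg (c i) h1.ne'
  have h4 : (((gix M c i : ℕ) : ℤ)) = c i % ((M + 1 : ℕ) : ℤ) := by
    show ((c i % ((M + 1 : ℕ) : ℤ)).toNat : ℤ) = _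
    exact Int.toNat_of_nonneg h3
  have h5 := Int.mul_ediv_add_emod (c i) ((M + 1 : ℕ) : ℤ)
  rw [← h4] at h5
  have h6 : ((((M + 1 : ℕ) : ℤ) * ipt M c i + ((gix M c i : ℕ) : ℤ) : ℤ) : ℝ) = ((c i : ℤ) : ℝ) := by
    rw [← h5]
    rfl
  push_cast at h6
  exact h6

theorem gix_lt (M : ℕ) (c : Fin e → ℤ) (i : Fin e) : ((gix M c i : ℕ) : ℝ) < (M : ℝ) + 1 := by
  have h := (gix M c i).2
  exact_mod_cast h

/-- on the atoms of the grid cells the variable varies by at most `2 ^ (-ε n)` -/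
theorem gcell_close (Y : S.VV e) (ε : ℝ) (k : ℕ) (ω ω' : (S.F k).Ω) (i : Fin e)
    (h : gcell Y ε k ω i = gcell Y ε k ω' i) : |Y.v k ω i - Y.v k ω' i| ≤ S.dl ε k := by
  have hN := ngr_one S ε k
  have hN0 : 0 < ngr S ε k := by linarith
  have h1 := Int.floor_le (ngr S ε k * Y.v k ω i)
  have h2 := Int.lt_floor_add_one (ngr S ε k * Y.v k ω i)
  have h3 := Int.floor_le (ngr S ε k * Y.v k ω' i)
  have h4 := Int.lt_floor_add_one (ngr S ε k * Y.v k ω' i)
  have h5 : (⌊ngr S ε k * Y.v k ω i⌋ : ℤ) = ⌊ngr S ε k * Y.v k ω' i⌋ := h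
  rw [h5] at h1 h2
  have h6 : |ngr S ε k * (Y.v k ω i - Y.v k ω' i)| ≤ 1 := by
    rw [abs_le, mul_sub]
    constructor <;> linarith
  rw [abs_mul, abs_of_pos hN0] at h6
  have h7 := S.dl_pos ε k
  have h8 : S.dl ε k * ngr S ε k ≥ 1 := by
    have h9 := (ngr_gt S ε k).le
    rw [inv_le_iff_one_le_mul₀ h7] at h9
    linarith
  have h10 := abs_nonneg (Y.v k ω i - Y.v k ω' i)
  by_contra hcon
  push Not at hcon
  nlinarith

/-! ### the equation over a unit cell -/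

/-- the polynomial in the coordinates of the unit cell `a`, `z = K0 u` -/
def Hs (K0 : ℝ) (f : MvPolynomial (Fin (e + 1)) ℝ) (a : Fin e → ℤ) : MvPolynomial (Fin (e + 1)) ℝ :=
  rcp (Fin.cons 0 (fun i => (a i : ℝ))) (Fin.cons K0 (fun _ => 1)) f

theorem cons_aux (K0 u : ℝ) (a : Fin e → ℤ) (x : Fin e → ℝ) :
    (fun i => (Fin.cons 0 (fun i => (a i : ℝ)) : Fin (e + 1) → ℝ) i +
      (Fin.cons K0 (fun _ => 1) : Fin (e + 1) → ℝ) i * (Fin.cons u x : Fin (e + 1) → ℝ) i) =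
      (Fin.cons (K0 * u) (fun i => (a i : ℝ) + x i) : Fin (e + 1) → ℝ) := by
  funext i
  refine Fin.cases ?_ (fun j => ?_) i
  · simp only [Fin.cons_zero]
    ring
  · simp only [Fin.cons_succ]
    ring

theorem Hs_eval (K0 : ℝ) (f : MvPolynomial (Fin (e + 1)) ℝ) (a : Fin e → ℤ) (u : ℝ) (x : Fin e → ℝ) :
    MvPolynomial.eval (Fin.cons u x : Fin (e + 1) → ℝ) (Hs K0 f a) =
      MvPolynomial.eval (Fin.cons (K0 * u) (fun i => (a i : ℝ) + x i) : Fin (e + 1) → ℝ) f := by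
  unfold Hs
  rw [rcp_eval, cons_aux]

theorem Hs_pd (K0 : ℝ) (f : MvPolynomial (Fin (e + 1)) ℝ) (a : Fin e → ℤ) (u : ℝ) (x : Fin e → ℝ) :
    MvPolynomial.eval (Fin.cons u x : Fin (e + 1) → ℝ) (MvPolynomial.pderiv 0 (Hs K0 f a)) =
      K0 * MvPolynomial.eval (Fin.cons (K0 * u) (fun i => (a i : ℝ) + x i) : Fin (e + 1) → ℝ)
        (MvPolynomial.pderiv 0 f) := by
  unfold Hs
  rw [pderiv_rcp, map_mul, MvPolynomial.eval_C, rcp_eval, cons_aux, Fin.cons_zero]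

open Classical in
/-- a choice of the roots over the grid cell -/
def chG (D K : ℕ) (B : ℝ) (H : MvPolynomial (Fin (e + 1)) ℝ) (N : ℕ) (g : Fin e → Fin N) :
    Fin (D * D) → MvPolynomial (Fin e) ℝ :=
  if h : ∃ G, IsG D K B H N g G then h.choose else fun _ => 0

theorem chG_spec {D K : ℕ} {B : ℝ} {H : MvPolynomial (Fin (e + 1)) ℝ} {N : ℕ} {g : Fin e → Fin N}
    (h : ∃ G, IsG D K B H N g G) : IsG D K B H N g (chG D K B H N g) := by
  unfold chG
  rw [dif_pos h]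
  exact h.choose_spec

theorem chG_bd (D K : ℕ) {B : ℝ} (hB : 0 ≤ B) (H : MvPolynomial (Fin (e + 1)) ℝ) (N : ℕ) (g : Fin e → Fin N)
    (i : Fin (D * D)) : (chG D K B H N g i).totalDegree ≤ e * K ∧ ∀ a, |(chG D K B H N g i).coeff a| ≤ B := by
  by_cases h : ∃ G, IsG D K B H N g G
  · exact (chG_spec h).1 i
  · unfold chG
    rw [dif_neg h]
    refine ⟨?_, fun a => ?_⟩
    · rw [MvPolynomial.totalDegree_zero]
      exact Nat.zero_le _
    · rw [MvPolynomial.coeff_zero, abs_zero]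
      exact hB

/-- the polynomial of the grid cell `c` and of the index -/
def Gj (D K : ℕ) (B K0 : ℝ) (M : ℕ) (f : MvPolynomial (Fin (e + 1)) ℝ) (c : Fin e → ℤ) :
    Option (Fin (D * D)) → MvPolynomial (Fin e) ℝ
  | none => 0
  | some i => MvPolynomial.C K0 * rcp (fun j => -(c j : ℝ)) (fun _ => (M : ℝ) + 1)
      (chG D K B (Hs K0 f (ipt M c)) (M + 1) (gix M c) i)

theorem Gj_deg (D K : ℕ) {B : ℝ} (hB : 0 ≤ B) (K0 : ℝ) (M : ℕ) (f : MvPolynomial (Fin (e + 1)) ℝ) (c : Fin e → ℤ)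
    (i : Option (Fin (D * D))) : (Gj D K B K0 M f c i).totalDegree ≤ e * K := by
  rcases i with _ | i
  · show (0 : MvPolynomial (Fin e) ℝ).totalDegree ≤ _
    rw [MvPolynomial.totalDegree_zero]
    exact Nat.zero_le _
  · show (MvPolynomial.C K0 * _).totalDegree ≤ _
    refine (MvPolynomial.totalDegree_mul _ _).trans ?_
    rw [MvPolynomial.totalDegree_C, zero_add]
    exact (rcp_deg _ _ _).trans (chG_bd D K hB _ _ _ i).1

theorem Gj_coeff (D K : ℕ) {B : ℝ} (hB : 0 ≤ B) {K0 : ℝ} (hK0 : 0 ≤ K0) (M : ℕ) (f : MvPolynomial (Fin (e + 1)) ℝ)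
    (c : Fin e → ℤ) (i : Option (Fin (D * D))) (a : Fin e →₀ ℕ) :
    |(rcp (fun j => (c j : ℝ) / ((M : ℝ) + 1)) (fun _ => 1 / ((M : ℝ) + 1)) (Gj D K B K0 M f c i)).coeff a| ≤ B * K0 := by
  have hN : (0 : ℝ) < (M : ℝ) + 1 := by positivity
  rcases i with _ | i
  · have h1 : rcp (fun j => (c j : ℝ) / ((M : ℝ) + 1)) (fun _ => 1 / ((M : ℝ) + 1)) (Gj D K B K0 M f c none) = 0 := by
      show rcp _ _ (0 : MvPolynomial (Fin e) ℝ) = 0
      unfold rcp
      rw [map_zero]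
    rw [h1, MvPolynomial.coeff_zero, abs_zero]
    positivity
  · have h1 : rcp (fun j => (c j : ℝ) / ((M : ℝ) + 1)) (fun _ => 1 / ((M : ℝ) + 1)) (Gj D K B K0 M f c (some i)) =
        MvPolynomial.C K0 * chG D K B (Hs K0 f (ipt M c)) (M + 1) (gix M c) i := by
      apply MvPolynomial.funext
      intro u
      rw [rcp_eval]
      show MvPolynomial.eval _ (MvPolynomial.C K0 * rcp _ _ _) = _
      rw [map_mul, map_mul, MvPolynomial.eval_C, MvPolynomial.eval_C, rcp_eval]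
      congr 2
      congr 1
      funext j
      field_simp
      ring
    rw [h1, MvPolynomial.coeff_C_mul, abs_mul, abs_of_nonneg hK0, mul_comm]
    exact mul_le_mul_of_nonneg_right ((chG_bd D K hB _ _ _ i).2 a) hK0

/-- LOCAL GRAPHS at a point over a good grid cell -/
theorem lg_pt {D K : ℕ} {B : ℝ} (hB : ∀ (H : MvPolynomial (Fin (e + 1)) ℝ), H ≠ 0 →
    H.totalDegree ≤ D → ∀ N : ℕ, B ≤ N → ∀ g : Fin e → Fin N,
    g ∉ excf D (1 / √N) N (MvPolynomial.map (algebraMap ℝ ℂ) H) →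
    ∃ G : Fin (D * D) → MvPolynomial (Fin e) ℝ, IsG D K B H N g G) (hB0 : 0 ≤ B)
    {K0 : ℝ} (hK0 : 0 < K0) (f : MvPolynomial (Fin (e + 1)) ℝ) (hf : f.totalDegree ≤ D) (M : ℕ) (hM : B ≤ (M : ℝ) + 1)
    (Y : Fin e → ℝ) (z : ℝ) (hz : |z| ≤ K0) (c : Fin e → ℤ) (hc : ∀ i, c i = ⌊((M : ℝ) + 1) * Y i⌋)
    (hg : Hs K0 f (ipt M c) ≠ 0 → gix M c ∉ excf D (1 / √((M + 1 : ℕ) : ℝ)) (M + 1)
      (MvPolynomial.map (algebraMap ℝ ℂ) (Hs K0 f (ipt M c)))) :
    ∃ i : Option (Fin (D * D)), |z - MvPolynomial.eval Y (Gj D K B K0 M f c i)| *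
      |MvPolynomial.eval (Fin.cons z Y : Fin (e + 1) → ℝ) (MvPolynomial.pderiv 0 f)| ≤
      D * |MvPolynomial.eval (Fin.cons z Y : Fin (e + 1) → ℝ) f| + K0 * (B * (√((M + 1 : ℕ) : ℝ))⁻¹ ^ (K + 1)) *
        |MvPolynomial.eval (Fin.cons z Y : Fin (e + 1) → ℝ) (MvPolynomial.pderiv 0 f)| := by
  have hN : (0 : ℝ) < (M : ℝ) + 1 := by positivity
  set t : Fin e → ℝ := fun i => ((M : ℝ) + 1) * Y i - c i with ht
  have ht01 : ∀ i, 0 ≤ t i ∧ t i ≤ 1 := by
    intro i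
    have h1 := Int.floor_le (((M : ℝ) + 1) * Y i)
    have h2 := Int.lt_floor_add_one (((M : ℝ) + 1) * Y i)
    simp only [ht]
    rw [hc i]
    constructor <;> linarith
  set u : ℝ := z / K0 with hu
  have hu1 : |u| ≤ 1 := by
    rw [hu, abs_div, abs_of_pos hK0, div_le_one hK0]
    exact hz
  have hzu : K0 * u = z := by
    rw [hu]
    field_simp
  have hpt : (fun i => (ipt M c i : ℝ) + ptc (M + 1) (gix M c) t i) = Y := by
    funext i
    unfold ptc
    have h1 := ipt_gix M c i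
    push_cast
    have h2 : ((gix M c i : ℕ) : ℝ) = (c i : ℝ) - ((M : ℝ) + 1) * (ipt M c i : ℝ) := by linarith
    rw [h2]
    simp only [ht]
    field_simp
    ring
  have e1 := Hs_eval K0 f (ipt M c) u (ptc (M + 1) (gix M c) t)
  have e2 := Hs_pd K0 f (ipt M c) u (ptc (M + 1) (gix M c) t)
  rw [hzu, hpt] at e1 e2
  have hfp := abs_nonneg (MvPolynomial.eval (Fin.cons z Y : Fin (e + 1) → ℝ) (MvPolynomial.pderiv 0 f))
  have hf0 := abs_nonneg (MvPolynomial.eval (Fin.cons z Y : Fin (e + 1) → ℝ) f)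
  have hD0 : (0 : ℝ) ≤ D := Nat.cast_nonneg _
  have herr : 0 ≤ K0 * (B * (√((M + 1 : ℕ) : ℝ))⁻¹ ^ (K + 1)) *
        |MvPolynomial.eval (Fin.cons z Y : Fin (e + 1) → ℝ) (MvPolynomial.pderiv 0 f)| := by positivity
  by_cases hH : Hs K0 f (ipt M c) = 0
  · refine ⟨none, ?_⟩
    rw [hH, map_zero, map_zero] at e2
    have h1 : MvPolynomial.eval (Fin.cons z Y : Fin (e + 1) → ℝ) (MvPolynomial.pderiv 0 f) = 0 := by
      rcases mul_eq_zero.mp e2.symm with h | h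
      · exact absurd h hK0.ne'
      · exact h
    rw [h1, abs_zero, mul_zero, mul_zero, add_zero]
    positivity
  · have hdeg : (Hs K0 f (ipt M c)).totalDegree ≤ D := (rcp_deg _ _ _).trans hf
    have hM' : B ≤ ((M + 1 : ℕ) : ℝ) := by
      push_cast
      exact hM
    obtain ⟨-, h2⟩ := chG_spec (hB _ hH hdeg (M + 1) hM' (gix M c) (hg hH))
    rcases h2 t u ht01 hu1 with h | ⟨i, h⟩
    · refine ⟨none, ?_⟩
      rw [e1, e2, abs_mul, abs_of_pos hK0] at h
      have h3 : z - MvPolynomial.eval Y (Gj D K B K0 M f c none) = z := by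
        show z - MvPolynomial.eval Y 0 = z
        rw [map_zero, sub_zero]
      rw [h3]
      have h4 : |z| = |u| * K0 := by
        rw [← hzu, abs_mul, abs_of_pos hK0, mul_comm]
      rw [h4, mul_assoc]
      linarith
    · refine ⟨some i, ?_⟩
      rw [e1, e2, abs_mul, abs_of_pos hK0] at h
      have h3 : z - MvPolynomial.eval Y (Gj D K B K0 M f c (some i)) = K0 * (u - MvPolynomial.eval t
          (chG D K B (Hs K0 f (ipt M c)) (M + 1) (gix M c) i)) := by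
        show z - MvPolynomial.eval Y (MvPolynomial.C K0 * rcp _ _ _) = _
        rw [map_mul, MvPolynomial.eval_C, rcp_eval, mul_sub, hzu]
        have h4 : (fun j => -(c j : ℝ) + ((M : ℝ) + 1) * Y j) = t := by
          funext j
          simp only [ht]
          ring
        rw [h4]
      rw [h3, abs_mul, abs_of_pos hK0]
      linarith

/-! ### typical grid cells -/

/-- the integer part of a tame variable has no entropy -/
theorem ipt_ent (Y : S.VV e) (ε : ℝ) (La : ∀ k, Setoid (S.F k).Ω) (δ : ℝ) (hδ : 0 < δ) : ∀ᶠ k in UF,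
    h (fc (Setoid.ker (fun ω => ipt (mgr S ε k) (gcell Y ε k ω)))) (fc (La k)) ≤ δ * (S.F k).n := by
  obtain ⟨L, hL, hY⟩ := Y.bd
  have hL2 : S.Sub (fun k => 2 * L k + 3) := ((S.Sub_const zero_le_two).mul hL).add (S.Sub_const (by norm_num))
  have h1 : Tendsto (fun k => e * (Real.logb 2 (2 * L k + 3 + 2) / (S.F k).n)) UF (𝓝 (e * 0)) := hL2.2.const_mul _
  rw [mul_zero] at h1
  filter_upwards [hY, hL.1, h1.eventually (gt_mem_nhds hδ)] with k a b c
  have hn := (S.F k).pos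
  rw [h_fc]
  have hbd : ∀ ω, (S.F k).μ ω ≠ 0 → ∀ i, |(ipt (mgr S ε k) (gcell Y ε k ω) i : ℝ)| ≤ L k + 2 := by
    intro ω hω i
    have h2 := ipt_gix (mgr S ε k) (gcell Y ε k ω) i
    have h3 := gix_lt (mgr S ε k) (gcell Y ε k ω) i
    have h4 : (0 : ℝ) ≤ ((gix (mgr S ε k) (gcell Y ε k ω) i : ℕ) : ℝ) := Nat.cast_nonneg _
    have h5 := Int.floor_le (ngr S ε k * Y.v k ω i)
    have h6 := Int.lt_floor_add_one (ngr S ε k * Y.v k ω i)
    have h7 : ((gcell Y ε k ω i : ℤ) : ℝ) = ((⌊ngr S ε k * Y.v k ω i⌋ : ℤ) : ℝ) := rfl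
    have h8 := abs_le.mp (a ω hω i)
    have hN := ngr_one S ε k
    have h9 : (mgr S ε k : ℝ) + 1 = ngr S ε k := rfl
    rw [h9] at h2 h3
    rw [h7] at h2
    rw [abs_le]
    constructor
    · by_contra hcon
      push Not at hcon
      nlinarith
    · by_contra hcon
      push Not at hcon
      nlinarith
  have h2 := (S.F k).e_int_le (fun ω => ipt (mgr S ε k) (gcell Y ε k ω)) (La k ⊓ (S.F k).Z) (2 * L k + 4) (by linarith)
    (fun ω ω' h h' _ i => by
      have h3 := abs_le.mp (hbd ω h i)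
      have h4 := abs_le.mp (hbd ω' h' i)
      rw [abs_le]
      constructor <;> linarith)
  refine h2.trans ?_
  have h3 : Real.logb 2 (2 * L k + 4 + 1) ≤ Real.logb 2 (2 * L k + 3 + 2) :=
    Real.logb_le_logb_of_le (by norm_num) (by linarith) (by linarith)
  have h4 : e * (Real.logb 2 (2 * L k + 3 + 2) / (S.F k).n) * (S.F k).n = e * Real.logb 2 (2 * L k + 3 + 2) := by
    field_simp
  have h5 := mul_le_mul_of_nonneg_right c.le hn.le
  rw [h4] at h5
  have h6 : (0 : ℝ) ≤ e := Nat.cast_nonneg _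
  nlinarith

/-- the grid cell of a full variable is uniform -/
theorem gix_full (Y : S.VV e) (La : ∀ k, Setoid (S.F k).Ω) (β : Fin e → ℝ) {ε : ℝ} (hε : 0 ≤ ε) (hβ : ∀ i, ε ≤ β i)
    (full : Tendsto (fun k => h (fc (Setoid.ker (celm Y β k))) (fc (La k)) / (S.F k).n) UF (𝓝 (∑ i, β i)))
    (δ : ℝ) (hδ : 0 < δ) : ∀ᶠ k in UF, Real.logb 2 (Fintype.card (Fin e → Fin (mgr S ε k + 1))) ≤
      h (fc (Setoid.ker (fun ω => gix (mgr S ε k) (gcell Y ε k ω))))
        (fc (La k ⊓ Setoid.ker (fun ω => ipt (mgr S ε k) (gcell Y ε k ω)))) + δ * (S.F k).n := by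
  have h1 := ipt_ent Y ε La (δ / 4) (by linarith)
  have h2 := h_celm_le Y (fun _ => ε) β hβ (fun k => (La k ⊓ Setoid.ker (fun ω => ipt (mgr S ε k) (gcell Y ε k ω))) ⊓
    Setoid.ker (fun ω => gix (mgr S ε k) (gcell Y ε k ω))) (fun _ => 1) (S.Sub_const zero_le_one)
    (Eventually.of_forall fun k ω ω' _ _ _ r i => by
      rw [one_mul]
      apply gcell_close Y ε k ω ω' i
      have h3 : ipt (mgr S ε k) (gcell Y ε k ω) i = ipt (mgr S ε k) (gcell Y ε k ω') i := congrFun r.1.2 i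
      have h4 : gix (mgr S ε k) (gcell Y ε k ω) i = gix (mgr S ε k) (gcell Y ε k ω') i := congrFun r.2 i
      have h5 := ipt_gix (mgr S ε k) (gcell Y ε k ω) i
      have h6 := ipt_gix (mgr S ε k) (gcell Y ε k ω') i
      rw [h3, h4] at h5
      have h7 : ((gcell Y ε k ω i : ℤ) : ℝ) = ((gcell Y ε k ω' i : ℤ) : ℝ) := by rw [← h5, ← h6]
      exact_mod_cast h7) (δ / 4) (by linarith)
  have h3 := full.eventually (lt_mem_nhds (show ∑ i, β i - δ / 4 < ∑ i, β i by linarith))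
  have h4 : Tendsto (fun k => (e : ℝ) * (1 / (S.F k).n)) UF (𝓝 (e * 0)) := (S.div_n_tendsto 1).const_mul _
  rw [mul_zero] at h4
  filter_upwards [h1, h2, h3, h4.eventually (gt_mem_nhds (show 0 < δ / 4 by linarith))] with k a b c d
  have hn := (S.F k).pos
  have h5 : h (fc (Setoid.ker (celm Y β k))) (fc (La k)) ≤
      h (fc (Setoid.ker (fun ω => ipt (mgr S ε k) (gcell Y ε k ω)))) (fc (La k)) +
      h (fc (Setoid.ker (celm Y β k))) (fc (La k ⊓ Setoid.ker (fun ω => ipt (mgr S ε k) (gcell Y ε k ω)))) := by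
    refine (h_mono (le_sup_right : fc (Setoid.ker (celm Y β k)) ≤
      fc (Setoid.ker (fun ω => ipt (mgr S ε k) (gcell Y ε k ω))) ⊔ _)).trans ?_
    rw [h_chain, fc_inf (La k), sup_comm (fc (La k))]
  have h6 : h (fc (Setoid.ker (celm Y β k))) (fc (La k ⊓ Setoid.ker (fun ω => ipt (mgr S ε k) (gcell Y ε k ω)))) ≤
      h (fc (Setoid.ker (fun ω => gix (mgr S ε k) (gcell Y ε k ω))))
        (fc (La k ⊓ Setoid.ker (fun ω => ipt (mgr S ε k) (gcell Y ε k ω)))) +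
      h (fc (Setoid.ker (celm Y β k))) (fc ((La k ⊓ Setoid.ker (fun ω => ipt (mgr S ε k) (gcell Y ε k ω))) ⊓
        Setoid.ker (fun ω => gix (mgr S ε k) (gcell Y ε k ω)))) := by
    refine (h_mono (le_sup_right : fc (Setoid.ker (celm Y β k)) ≤
      fc (Setoid.ker (fun ω => gix (mgr S ε k) (gcell Y ε k ω))) ⊔ _)).trans ?_
    rw [h_chain, fc_inf (La k ⊓ Setoid.ker (fun ω => ipt (mgr S ε k) (gcell Y ε k ω))),
      sup_comm (fc (La k ⊓ Setoid.ker (fun ω => ipt (mgr S ε k) (gcell Y ε k ω))))]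
  rw [div_le_iff₀ hn] at b
  rw [lt_div_iff₀ hn] at c
  have e1 : ∑ i, (β i - ε) = ∑ i, β i - e * ε := by
    rw [Finset.sum_sub_distrib (s := Finset.univ) (fun i => β i) (fun _ => ε), Finset.sum_const, Finset.card_univ,
      Fintype.card_fin, nsmul_eq_mul]
  rw [e1] at b
  have h7 : Real.logb 2 (Fintype.card (Fin e → Fin (mgr S ε k + 1))) = e * Real.logb 2 (ngr S ε k) := by
    rw [Fintype.card_fun, Fintype.card_fin, Fintype.card_fin]
    push_cast
    rw [Real.logb_pow]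
    rfl
  rw [h7]
  have h8 := mul_le_mul_of_nonneg_left (logb_ngr_le S hε k) (Nat.cast_nonneg e : (0 : ℝ) ≤ e)
  have h9 : (e : ℝ) ≤ δ / 4 * (S.F k).n := by
    have h10 := mul_le_mul_of_nonneg_right d.le hn.le
    have h11 : (e : ℝ) * (1 / (S.F k).n) * (S.F k).n = e := by field_simp
    rwa [h11] at h10
  nlinarith

/-- a variable with boundedly many values has no entropy -/
theorem fin_PLe {α : Type} [Fintype α] (X : ∀ k, (S.F k).Ω → α) (B : ∀ k, FL (S.F k)) :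
    PLe (fun k => fc (Setoid.ker (X k))) B := by
  classical
  have h1 := S.div_n_tendsto (1 + Real.logb 2 (Fintype.card α))
  refine squeeze_zero (fun k => div_nonneg (h_nonneg _ _) (S.F k).pos.le) (fun k => ?_) h1
  apply div_le_div_of_nonneg_right _ (S.F k).pos.le
  obtain ⟨C, hC⟩ : ∃ C, B k = fc C := ⟨_, (Quotient.out_eq (B k)).symm⟩
  show h (fc (Setoid.ker (X k))) (B k) ≤ 1 + Real.logb 2 (Fintype.card α)
  rw [hC, h_fc]
  rcases isEmpty_or_nonempty α with hα | hα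
  · have h0 : mass (S.F k).μ = 0 := by
      unfold mass
      exact Finset.sum_eq_zero fun ω _ => (hα.elim (X k ω))
    rw [(S.F k).ms] at h0
    exact absurd h0 one_ne_zero
  have hc : (0 : ℝ) < Fintype.card α := by exact_mod_cast Fintype.card_pos
  have h2 := e_avoid (S.F k) (X k) (C ⊓ (S.F k).Z) (fun _ => ∅) (Fintype.card α) hc (fun _ _ _ _ _ => rfl)
    (fun ω _ => by
      rw [Finset.card_empty, Nat.cast_zero]
      exact hc.le)
  rw [sub_self, mul_zero, sub_zero] at h2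
  exact h2

/-- the grid cell is a function of every partition which determines the variable up to `K 2 ^ (-ε n)` -/
theorem gcell_PLe (Y : S.VV e) {ε : ℝ} (hε : 0 ≤ ε) (B : ∀ k, Setoid (S.F k).Ω) (K : ℕ → ℝ) (hK : S.Sub K)
    (hh : ∀ᶠ k in UF, ∀ ω ω', (S.F k).μ ω ≠ 0 → (S.F k).μ ω' ≠ 0 → (S.F k).Z ω ω' → B k ω ω' →
      ∀ i, |Y.v k ω i - Y.v k ω' i| ≤ K k * S.dl ε k) :
    PLe (fun k => fc (Setoid.ker (gcell Y ε k))) (fun k => fc (B k)) := by
  have hK2 : S.Sub (fun k => 2 * K k) := (S.Sub_const zero_le_two).mul hK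
  have h1 : Tendsto (fun k => e * (Real.logb 2 (2 * K k + 2) / (S.F k).n)) UF (𝓝 (e * 0)) := hK2.2.const_mul _
  rw [mul_zero] at h1
  refine squeeze_zero' (Eventually.of_forall fun k => div_nonneg (h_nonneg _ _) (S.F k).pos.le) ?_ h1
  filter_upwards [hh, hK.1] with k hk hK0
  have hn := (S.F k).pos
  rw [mul_div_assoc']
  apply div_le_div_of_nonneg_right _ hn.le
  rw [h_fc]
  have hN := ngr_one S ε k
  have hN0 : 0 < ngr S ε k := by linarith
  have hd := S.dl_pos ε k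
  have hd1 : S.dl ε k ≤ 1 := by
    rw [← S.dl_zero k]
    exact S.dl_anti hε k
  have hNd : ngr S ε k * S.dl ε k ≤ 2 := by
    have h2 := mul_le_mul_of_nonneg_right (ngr_le S ε k) hd.le
    rw [add_mul, inv_mul_cancel₀ hd.ne'] at h2
    linarith
  have h2 := (S.F k).e_int_le (gcell Y ε k) (B k ⊓ (S.F k).Z) (2 * K k + 1) (by linarith) (fun ω ω' a b c i => by
    have h3 := hk ω ω' a b c.2 c.1 i
    have h4 : |ngr S ε k * Y.v k ω i - ngr S ε k * Y.v k ω' i| ≤ 2 * K k * 1 := by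
      rw [← mul_sub, abs_mul, abs_of_pos hN0]
      have h5 := mul_le_mul_of_nonneg_left h3 hN0.le
      have h6 := mul_le_mul_of_nonneg_left hNd hK0
      linarith
    have h5 := floor_diff one_pos h4
    rw [div_one, div_one] at h5
    exact h5)
  refine h2.trans (le_of_eq ?_)
  congr 2
  ring

open Classical in
/-- a choice -/
def pick {α : Type} (P : α → Prop) (d : α) : α := if h : ∃ i, P i then h.choose else d

theorem pick_spec {α : Type} {P : α → Prop} (d : α) (h : ∃ i, P i) : P (pick P d) := by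
  unfold pick
  rw [dif_pos h]
  exact h.choose_spec

/-- LOCAL GRAPHS, with an index which is a literal function of the data at the point -/
theorem lgj' (Y : S.VV e) (La : ∀ k, Setoid (S.F k).Ω) (β : Fin e → ℝ) {ε : ℝ} (hε : 0 < ε) (hβ : ∀ i, ε ≤ β i)
    (full : Tendsto (fun k => h (fc (Setoid.ker (celm Y β k))) (fc (La k)) / (S.F k).n) UF (𝓝 (∑ i, β i)))
    {D : ℕ} (hD : 1 ≤ D) (z : ∀ k, (S.F k).Ω → ℝ) {K0 : ℕ → ℝ} (hK0 : S.Sub K0) (hK01 : ∀ᶠ k in UF, 1 ≤ K0 k)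
    (hz : ∀ᶠ k in UF, ∀ ω, (S.F k).μ ω ≠ 0 → |z k ω| ≤ K0 k)
    (f : ∀ k, (S.F k).Ω → MvPolynomial (Fin (e + 1)) ℝ)
    (deg : ∀ᶠ k in UF, ∀ ω, (S.F k).μ ω ≠ 0 → (f k ω).totalDegree ≤ D)
    (hf : ∀ᶠ k in UF, ∀ ω ω', (S.F k).μ ω ≠ 0 → (S.F k).μ ω' ≠ 0 → (S.F k).Z ω ω' → La k ω ω' → f k ω = f k ω')
    (A : ℝ) :
    ∃ (K : ℕ) (B : ℝ) (idx : ∀ k, (S.F k).Ω → Option (Fin (D * D))) (G : ∀ k, (S.F k).Ω → MvPolynomial (Fin e) ℝ),
      0 ≤ B ∧ (∀ k ω, (G k ω).totalDegree ≤ K) ∧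
      (∀ᶠ k in UF, ∀ ω ω', (S.F k).μ ω ≠ 0 → (S.F k).μ ω' ≠ 0 → (S.F k).Z ω ω' → La k ω ω' →
        gcell Y ε k ω = gcell Y ε k ω' → idx k ω = idx k ω' → G k ω = G k ω') ∧
      (∀ᶠ k in UF, ∀ ω a, |(rcp (fun i => (gcell Y ε k ω i : ℝ) / ngr S ε k) (fun _ => 1 / ngr S ε k)
        (G k ω)).coeff a| ≤ B * K0 k) ∧
      (∀ k ω ω', z k ω = z k ω' → Y.v k ω = Y.v k ω' → f k ω = f k ω' → idx k ω = idx k ω') ∧
      Typ (fun k ω => |z k ω - MvPolynomial.eval (Y.v k ω) (G k ω)| *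
        |MvPolynomial.eval (Fin.cons (z k ω) (Y.v k ω) : Fin (e + 1) → ℝ) (MvPolynomial.pderiv 0 (f k ω))| ≤
        D * |MvPolynomial.eval (Fin.cons (z k ω) (Y.v k ω) : Fin (e + 1) → ℝ) (f k ω)| + S.dl A k *
          |MvPolynomial.eval (Fin.cons (z k ω) (Y.v k ω) : Fin (e + 1) → ℝ) (MvPolynomial.pderiv 0 (f k ω))|) := by
  classical
  set K : ℕ := ⌈2 * (A + 1) / ε⌉₊ with hK
  have hKA : A + 1 ≤ ε / 2 * ((K : ℝ) + 1) := by
    have h1 : 2 * (A + 1) / ε ≤ K := Nat.le_ceil _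
    rw [div_le_iff₀ hε] at h1
    linarith
  obtain ⟨B, hB1, hB⟩ := lg_one e D K hD
  have hB0 : 0 ≤ B := by linarith
  set Mk : ℕ → ℕ := fun k => mgr S ε k with hMk
  set P : ∀ k, (S.F k).Ω → Option (Fin (D * D)) → Prop := fun k ω i =>
    |z k ω - MvPolynomial.eval (Y.v k ω) (Gj D K B (K0 k) (Mk k) (f k ω) (gcell Y ε k ω) i)| *
      |MvPolynomial.eval (Fin.cons (z k ω) (Y.v k ω) : Fin (e + 1) → ℝ) (MvPolynomial.pderiv 0 (f k ω))| ≤
      D * |MvPolynomial.eval (Fin.cons (z k ω) (Y.v k ω) : Fin (e + 1) → ℝ) (f k ω)| +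
        K0 k * (B * (√((Mk k + 1 : ℕ) : ℝ))⁻¹ ^ (K + 1)) *
        |MvPolynomial.eval (Fin.cons (z k ω) (Y.v k ω) : Fin (e + 1) → ℝ) (MvPolynomial.pderiv 0 (f k ω))| with hP
  set idx : ∀ k, (S.F k).Ω → Option (Fin (D * D)) := fun k ω => pick (P k ω) none with hidx
  refine ⟨e * K, B, idx, fun k ω => Gj D K B (K0 k) (Mk k) (f k ω) (gcell Y ε k ω) (idx k ω), hB0,
    fun k ω => Gj_deg D K hB0 _ _ _ _ _, ?_, ?_, ?_, ?_⟩
  · filter_upwards [hf] with k hk ω ω' a b c d h1 h2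
    show Gj D K B (K0 k) (Mk k) (f k ω) (gcell Y ε k ω) (idx k ω) = Gj D K B (K0 k) (Mk k) (f k ω') (gcell Y ε k ω')
      (idx k ω')
    rw [hk ω ω' a b c d, h1, h2]
  · filter_upwards [hK01] with k hk ω a
    exact Gj_coeff D K hB0 (by linarith) (Mk k) (f k ω) (gcell Y ε k ω) (idx k ω) a
  · intro k ω ω' h1 h2 h3
    have h4 : gcell Y ε k ω = gcell Y ε k ω' := by
      funext i
      show ⌊ngr S ε k * Y.v k ω i⌋ = ⌊ngr S ε k * Y.v k ω' i⌋
      rw [h2]
    have h5 : P k ω = P k ω' := by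
      simp only [hP]
      rw [h1, h2, h3, h4]
    simp only [hidx]
    rw [h5]
  -- bad grid cells
  set Bd : ∀ k, (S.F k).Ω → Finset (Fin e → Fin (Mk k + 1)) := fun k ω =>
    if Hs (K0 k) (f k ω) (ipt (Mk k) (gcell Y ε k ω)) = 0 then ∅ else
      excf D (1 / √((Mk k + 1 : ℕ) : ℝ)) (Mk k + 1)
        (MvPolynomial.map (algebraMap ℝ ℂ) (Hs (K0 k) (f k ω) (ipt (Mk k) (gcell Y ε k ω)))) with hBd
  set C2 : ℝ := D * (((D : ℝ) + 3) * (cexc e (dd D) * 3)) + 1 with hC2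
  have hC21 : 1 ≤ C2 := by
    have : (0 : ℝ) ≤ D * (((D : ℝ) + 3) * (cexc e (dd D) * 3)) := by positivity
    linarith
  have hav : Typ (fun k ω => gix (Mk k) (gcell Y ε k ω) ∉ Bd k ω) := by
    apply avoid (α := fun k => Fin e → Fin (Mk k + 1)) (fun k ω => gix (Mk k) (gcell Y ε k ω))
      (fun k => La k ⊓ Setoid.ker (fun ω => ipt (mgr S ε k) (gcell Y ε k ω))) Bd
      (fun k => ngr S ε k ^ e * (C2 / √(ngr S ε k))) (Eventually.of_forall fun k => by
        have := ngr_one S ε k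
        have h0 : 0 < ngr S ε k := by linarith
        positivity) _ _ (η := ε / 4) (by linarith) _ (gix_full Y La β hε.le hβ full)
    · filter_upwards [hf] with k hk ω ω' a b c d
      have h1 : f k ω = f k ω' := hk ω ω' a b c d.1
      have h2 : ipt (Mk k) (gcell Y ε k ω) = ipt (Mk k) (gcell Y ε k ω') := d.2
      simp only [hBd, h1, h2]
    · filter_upwards [deg] with k hk ω hω
      simp only [hBd]
      have hN := ngr_one S ε k
      have hN0 : 0 < ngr S ε k := by linarith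
      split_ifs with h1
      · rw [Finset.card_empty, Nat.cast_zero]
        positivity
      · have h2 : MvPolynomial.map (algebraMap ℝ ℂ) (Hs (K0 k) (f k ω) (ipt (Mk k) (gcell Y ε k ω))) ≠ 0 := by
          intro h
          apply h1
          apply MvPolynomial.map_injective (algebraMap ℝ ℂ) (algebraMap ℝ ℂ).injective
          rw [h, map_zero]
        have hN' : ((Mk k + 1 : ℕ) : ℝ) = ngr S ε k := by
          push_cast
          rfl
        have hs : (0 : ℝ) < 1 / √((Mk k + 1 : ℕ) : ℝ) := by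
          rw [hN']
          positivity
        have h3 := card_excf h2 ((totalDegree_map_le' _).trans ((rcp_deg _ _ _).trans (hk ω hω))) hs (Mk k + 1)
          (Nat.succ_pos _)
        refine h3.trans ?_
        rw [hN']
        have h4 : 2 * (1 / √(ngr S ε k)) + 1 / ngr S ε k ≤ 3 * (1 / √(ngr S ε k)) := by
          have h5 : 1 / ngr S ε k ≤ 1 / √(ngr S ε k) := by
            apply one_div_le_one_div_of_le (Real.sqrt_pos.mpr hN0)
            rw [Real.sqrt_le_left (by linarith)]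
            nlinarith
          linarith
        have h6 : (D : ℝ) * (((D : ℝ) + 3) * (ngr S ε k ^ e * (cexc e (dd D) * (2 * (1 / √(ngr S ε k)) + 1 / ngr S ε k)))) ≤
            (D : ℝ) * (((D : ℝ) + 3) * (ngr S ε k ^ e * (cexc e (dd D) * (3 * (1 / √(ngr S ε k)))))) := by
          gcongr
        refine h6.trans ?_
        have h7 : (D : ℝ) * (((D : ℝ) + 3) * (ngr S ε k ^ e * (cexc e (dd D) * (3 * (1 / √(ngr S ε k)))))) =
            ngr S ε k ^ e * ((D * (((D : ℝ) + 3) * (cexc e (dd D) * 3))) / √(ngr S ε k)) := by ring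
        rw [h7]
        apply mul_le_mul_of_nonneg_left _ (by positivity)
        apply div_le_div_of_nonneg_right _ (Real.sqrt_nonneg _)
        linarith
    · have h1 : Tendsto (fun k => Real.logb 2 C2 / (S.F k).n) UF (𝓝 0) := S.div_n_tendsto _
      filter_upwards [h1.eventually (gt_mem_nhds (show 0 < ε / 4 by linarith))] with k hk
      have hn := (S.F k).pos
      have hN := ngr_one S ε k
      have hN0 : 0 < ngr S ε k := by linarith
      rw [div_lt_iff₀ hn] at hk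
      have h2 : Real.logb 2 (Fintype.card (Fin e → Fin (Mk k + 1))) = e * Real.logb 2 (ngr S ε k) := by
        rw [Fintype.card_fun, Fintype.card_fin, Fintype.card_fin]
        push_cast
        rw [Real.logb_pow]
        rfl
      rw [h2, Real.logb_mul (by positivity) (by positivity), Real.logb_pow, Real.logb_div (by positivity) (by positivity),
        Real.sqrt_eq_rpow, Real.logb_rpow_eq_mul_logb_of_pos hN0]
      have h3 := logb_ngr_ge S ε k
      linarith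
  -- the scale
  have hsc : S.Sub (fun k => K0 k * B) := hK0.mul (S.Sub_const hB0)
  have hM : ∀ᶠ k in UF, B ≤ ngr S ε k := by
    have h1 : S.Sub (fun _ => B) := S.Sub_const hB0
    filter_upwards [h1.eventually_le hε] with k hk
    have h2 := ngr_gt S ε k
    rw [dl_inv] at h2
    linarith
  refine hav.mono ?_
  filter_upwards [hK01, hz, deg, hM, hsc.eventually_le one_pos] with k g1 g2 g3 g4 g5 ω hω hg
  have hk0 : 0 < K0 k := by linarith
  have hN0 : 0 < ngr S ε k := by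
    have := ngr_one S ε k
    linarith
  have hn := (S.F k).pos
  have hex : ∃ i, P k ω i := by
    apply lg_pt hB hB0 hk0 (f k ω) (g3 ω hω) (Mk k) g4 (Y.v k ω) (z k ω) (g2 ω hω) (gcell Y ε k ω) (fun i => rfl)
    intro h1 h2
    apply hg
    simp only [hBd]
    rw [if_neg h1]
    exact h2
  have hPi : P k ω (idx k ω) := pick_spec none hex
  refine (show |z k ω - MvPolynomial.eval (Y.v k ω) (Gj D K B (K0 k) (Mk k) (f k ω) (gcell Y ε k ω) (idx k ω))| *
      |MvPolynomial.eval (Fin.cons (z k ω) (Y.v k ω) : Fin (e + 1) → ℝ) (MvPolynomial.pderiv 0 (f k ω))| ≤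
      D * |MvPolynomial.eval (Fin.cons (z k ω) (Y.v k ω) : Fin (e + 1) → ℝ) (f k ω)| +
        K0 k * (B * (√((Mk k + 1 : ℕ) : ℝ))⁻¹ ^ (K + 1)) *
        |MvPolynomial.eval (Fin.cons (z k ω) (Y.v k ω) : Fin (e + 1) → ℝ) (MvPolynomial.pderiv 0 (f k ω))|
        from hPi).trans ?_
  have h1 : K0 k * (B * (√((Mk k + 1 : ℕ) : ℝ))⁻¹ ^ (K + 1)) ≤ S.dl A k := by
    have hN' : ((Mk k + 1 : ℕ) : ℝ) = ngr S ε k := by
      push_cast
      rfl
    rw [hN']
    have h2 : (√(ngr S ε k))⁻¹ ≤ 2 ^ (-(ε / 2 * (S.F k).n)) := by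
      have h3 : (2 : ℝ) ^ (ε / 2 * (S.F k).n) ≤ √(ngr S ε k) := by
        rw [Real.le_sqrt (by positivity) hN0.le, ← Real.rpow_natCast, ← Real.rpow_mul (by norm_num)]
        have h4 := (ngr_gt S ε k).le
        rw [dl_inv] at h4
        refine le_trans (le_of_eq ?_) h4
        congr 1
        push_cast
        ring
      rw [Real.rpow_neg (by norm_num)]
      exact inv_anti₀ (by positivity) h3
    have h3 : (√(ngr S ε k))⁻¹ ^ (K + 1) ≤ 2 ^ (-((A + 1) * (S.F k).n)) := by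
      have h4 := pow_le_pow_left₀ (inv_nonneg.mpr (Real.sqrt_nonneg _)) h2 (K + 1)
      refine h4.trans ?_
      rw [← Real.rpow_natCast, ← Real.rpow_mul (by norm_num)]
      apply Real.rpow_le_rpow_of_exponent_le (by norm_num)
      have h5 := mul_le_mul_of_nonneg_right hKA hn.le
      push_cast
      nlinarith
    have h4 : K0 k * (B * (√(ngr S ε k))⁻¹ ^ (K + 1)) = (K0 k * B) * (√(ngr S ε k))⁻¹ ^ (K + 1) := by ring
    rw [h4]
    have h5 : (K0 k * B) * (√(ngr S ε k))⁻¹ ^ (K + 1) ≤ 2 ^ (1 * (S.F k).n) * 2 ^ (-((A + 1) * (S.F k).n)) := by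
      apply mul_le_mul (by linarith) h3 (by positivity) (by positivity)
    refine h5.trans (le_of_eq ?_)
    rw [← Real.rpow_add (by norm_num)]
    unfold Sp.dl
    congr 1
    ring
  have h2 := mul_le_mul_of_nonneg_right h1
    (abs_nonneg (MvPolynomial.eval (Fin.cons (z k ω) (Y.v k ω) : Fin (e + 1) → ℝ) (MvPolynomial.pderiv 0 (f k ω))))
  linarith

/-- LOCAL GRAPHS -/
theorem lgj (Y : S.VV e) (La : ∀ k, Setoid (S.F k).Ω) (β : Fin e → ℝ) {ε : ℝ} (hε : 0 < ε) (hβ : ∀ i, ε ≤ β i)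
    (full : Tendsto (fun k => h (fc (Setoid.ker (celm Y β k))) (fc (La k)) / (S.F k).n) UF (𝓝 (∑ i, β i)))
    {D : ℕ} (hD : 1 ≤ D) (z : ∀ k, (S.F k).Ω → ℝ) {K0 : ℕ → ℝ} (hK0 : S.Sub K0) (hK01 : ∀ᶠ k in UF, 1 ≤ K0 k)
    (hz : ∀ᶠ k in UF, ∀ ω, (S.F k).μ ω ≠ 0 → |z k ω| ≤ K0 k)
    (f : ∀ k, (S.F k).Ω → MvPolynomial (Fin (e + 1)) ℝ)
    (deg : ∀ᶠ k in UF, ∀ ω, (S.F k).μ ω ≠ 0 → (f k ω).totalDegree ≤ D)
    (hf : ∀ᶠ k in UF, ∀ ω ω', (S.F k).μ ω ≠ 0 → (S.F k).μ ω' ≠ 0 → (S.F k).Z ω ω' → La k ω ω' → f k ω = f k ω')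
    (A : ℝ) :
    ∃ (K : ℕ) (B : ℝ) (idx : ∀ k, (S.F k).Ω → Option (Fin (D * D))) (G : ∀ k, (S.F k).Ω → MvPolynomial (Fin e) ℝ),
      0 ≤ B ∧ (∀ k ω, (G k ω).totalDegree ≤ K) ∧
      (∀ᶠ k in UF, ∀ ω ω', (S.F k).μ ω ≠ 0 → (S.F k).μ ω' ≠ 0 → (S.F k).Z ω ω' → La k ω ω' →
        gcell Y ε k ω = gcell Y ε k ω' → idx k ω = idx k ω' → G k ω = G k ω') ∧
      (∀ᶠ k in UF, ∀ ω a, |(rcp (fun i => (gcell Y ε k ω i : ℝ) / ngr S ε k) (fun _ => 1 / ngr S ε k)
        (G k ω)).coeff a| ≤ B * K0 k) ∧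
      Typ (fun k ω => |z k ω - MvPolynomial.eval (Y.v k ω) (G k ω)| *
        |MvPolynomial.eval (Fin.cons (z k ω) (Y.v k ω) : Fin (e + 1) → ℝ) (MvPolynomial.pderiv 0 (f k ω))| ≤
        D * |MvPolynomial.eval (Fin.cons (z k ω) (Y.v k ω) : Fin (e + 1) → ℝ) (f k ω)| + S.dl A k *
          |MvPolynomial.eval (Fin.cons (z k ω) (Y.v k ω) : Fin (e + 1) → ℝ) (MvPolynomial.pderiv 0 (f k ω))|) := by
  obtain ⟨K, B, idx, G, h1, h2, h3, h4, _, h5⟩ := lgj' Y La β hε hβ full hD z hK0 hK01 hz f deg hf A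
  exact ⟨K, B, idx, G, h1, h2, h3, h4, h5⟩

end

end Pool.Agent.Helper63.FRT
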